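import Pool.Agent.H.MP_0fd30f_pr.Codeg

/-!
# Lower tail of codegrees: conclusion
-/

open Finset

namespace Pool.Agent.H.MP_0fd30f_pr

open scoped Classical

variable {V : Type*} [Fintype V]

theorem real12 {d n k N' x : ℝ} (hd0 : 0 < d) (hN' : 0 ≤ N')
    (hk : 4096 * (k + 1) * n ≤ d * d)
    (hx : x * (d / 8 * (d / 2) * (d / 32)) ≤ N' * ((k + 1) * n * d)) : x ≤ N' / 8 := by
  have h1 : x * (d * d * d) = 512 * (x * (d / 8 * (d / 2) * (d / 32))) := by ring
  have h2 : 512 * (N' * ((k + 1) * n * d)) = N' * (512 * (k + 1) * n) * d := by ring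
  have h3 : N' * (512 * (k + 1) * n) * d ≤ N' * (d * d / 8) * d := by
    refine mul_le_mul_of_nonneg_right (mul_le_mul_of_nonneg_left ?_ hN') hd0.le
    linarith
  have h4 : x * (d * d * d) ≤ (N' / 8) * (d * d * d) := by
    calc x * (d * d * d) ≤ N' * (d * d / 8) * d := by linarith
      _ = _ := by ring
  exact le_of_mul_le_mul_right h4 (by positivity)

theorem real3 {d n k N' x : ℝ} (hd0 : 0 < d) (hn0 : 0 < n) (hN' : 0 ≤ N') (hdn : 2 * d ≤ n)
    (hk : 4096 * (k + 1) * n ≤ d * d)
    (hx : x * (d / 8 * (n / 4) * (d / 32)) ≤ N' * ((k + 1) * d * d)) : x ≤ N' / 4 := by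
  have h0 : 4096 * (k + 1) ≤ n := by
    have h1 : 4096 * (k + 1) * n ≤ n * n := by nlinarith
    exact le_of_mul_le_mul_right h1 hn0
  have h1 : x * (n * (d * d)) = 1024 * (x * (d / 8 * (n / 4) * (d / 32))) := by ring
  have h2 : 1024 * (N' * ((k + 1) * d * d)) = N' * (1024 * (k + 1)) * (d * d) := by ring
  have h3 : N' * (1024 * (k + 1)) * (d * d) ≤ N' * (n / 4) * (d * d) := by
    refine mul_le_mul_of_nonneg_right (mul_le_mul_of_nonneg_left ?_ hN') (by positivity)
    linarith
  have h4 : x * (n * (d * d)) ≤ (N' / 4) * (n * (d * d)) := by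
    calc x * (n * (d * d)) ≤ N' * (n / 4) * (d * d) := by linarith
      _ = _ := by ring
  exact le_of_mul_le_mul_right h4 (by positivity)

theorem level_le {d r k : ℕ} (hd : 128 ≤ d) (hdn : 2 * d ≤ Fintype.card V)
    (hr : 16 * (r + 1) ≤ d) (hk : 4096 * (k + 1) * Fintype.card V ≤ d * d) {a b e : V}
    (hab : a ≠ b) (hae : a ≠ e) (hbe : b ≠ e) :
    (num d (fun G : SimpleGraph V => Typ d r G ∧ (XX G a b e).card = k) : ℝ) ≤
    (1 / 2) * (num d (fun G : SimpleGraph V => (XX G a b e).card = k + 1) : ℝ) := by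
  set n := Fintype.card V with hn
  have hnd : d ≤ n := by omega
  have hk8 : 8 * k < d := by
    have h1 : 4096 * (k + 1) * d ≤ d * d := (Nat.mul_le_mul_left _ hnd).trans hk
    have h2 : 4096 * (k + 1) ≤ d := Nat.le_of_mul_le_mul_right h1 (by omega)
    omega
  have hsplit : num d (fun G : SimpleGraph V => Typ d r G ∧ (XX G a b e).card = k) ≤
      num d (fun G : SimpleGraph V => Typ d r G ∧ (XX G a b e).card = k ∧
        d ≤ 8 * (TA G a b e).card) +
      (num d (fun G : SimpleGraph V => Typ d r G ∧ (XX G b a e).card = k ∧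
        d ≤ 8 * (TA G b a e).card) +
      num d (fun G : SimpleGraph V => Typ d r G ∧ (XX G a b e).card = k ∧
        d ≤ 8 * (TC G a b e).card)) := by
    refine (num_mono (Q := fun G : SimpleGraph V =>
      (Typ d r G ∧ (XX G a b e).card = k ∧ d ≤ 8 * (TA G a b e).card) ∨
      ((Typ d r G ∧ (XX G b a e).card = k ∧ d ≤ 8 * (TA G b a e).card) ∨
      (Typ d r G ∧ (XX G a b e).card = k ∧ d ≤ 8 * (TC G a b e).card))) ?_).trans ?_
    · intro G hG h
      have h1 := pattern (by omega : 16 ≤ d) hG (a := a) (b := b) (e := e) (by rw [h.2]; omega)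
      rw [XX_comm G b a e]
      tauto
    · refine (num_or_le _ _).trans ?_
      exact Nat.add_le_add_left (num_or_le _ _) _
  have hcomm : num d (fun G : SimpleGraph V => (XX G b a e).card = k + 1) =
      num d (fun G : SimpleGraph V => (XX G a b e).card = k + 1) := by
    simp_rw [XX_comm _ b a e]
  have s1 := step1 hd hr hk8 hab hbe
  have s2 := step1 hd hr hk8 hab.symm hae
  have s3 := step3 hd hdn hr hk8 hae hbe
  rw [hcomm] at s2
  set N' : ℝ := (num d (fun G : SimpleGraph V => (XX G a b e).card = k + 1) : ℝ) with hN'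
  set N1 : ℝ := (num d (fun G : SimpleGraph V => Typ d r G ∧ (XX G a b e).card = k ∧
        d ≤ 8 * (TA G a b e).card) : ℝ) with hN1
  set N2 : ℝ := (num d (fun G : SimpleGraph V => Typ d r G ∧ (XX G b a e).card = k ∧
        d ≤ 8 * (TA G b a e).card) : ℝ) with hN2
  set N3 : ℝ := (num d (fun G : SimpleGraph V => Typ d r G ∧ (XX G a b e).card = k ∧
        d ≤ 8 * (TC G a b e).card) : ℝ) with hN3
  have hsplit' : (num d (fun G : SimpleGraph V => Typ d r G ∧ (XX G a b e).card = k) : ℝ) ≤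
      N1 + (N2 + N3) := by
    rw [hN1, hN2, hN3]; exact_mod_cast hsplit
  have hd0 : (0 : ℝ) < d := by exact_mod_cast (by omega : 0 < d)
  have hn0 : (0 : ℝ) < n := by exact_mod_cast (by omega : 0 < n)
  have hkR : 4096 * ((k : ℝ) + 1) * n ≤ d * d := by exact_mod_cast hk
  have hdnR : 2 * (d : ℝ) ≤ n := by exact_mod_cast hdn
  have hN'0 : 0 ≤ N' := by positivity
  have k1 := real12 hd0 hN'0 hkR s1
  have k2 := real12 hd0 hN'0 hkR s2
  have k3 := real3 hd0 hn0 hN'0 hdnR hkR s3
  linarith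

theorem level_bound {d r K : ℕ} (hd : 128 ≤ d) (hdn : 2 * d ≤ Fintype.card V)
    (hr : 16 * (r + 1) ≤ d) (hK : 4096 * K * Fintype.card V ≤ d * d) {a b e : V}
    (hab : a ≠ b) (hae : a ≠ e) (hbe : b ≠ e) :
    ∀ j k : ℕ, k + j = K → (num d (fun G : SimpleGraph V => (XX G a b e).card = k) : ℝ) ≤
      (1 / 2) ^ j * (regG V d).card + 2 * (num d (fun G : SimpleGraph V => ¬ Typ d r G) : ℝ) := by
  intro j
  induction j with
  | zero =>
    intro k hk
    have h1 : (num d (fun G : SimpleGraph V => (XX G a b e).card = k) : ℝ) ≤ (regG V d).card := by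
      rw [num_eq]
      exact_mod_cast card_filter_le _ _
    have h2 : (0 : ℝ) ≤ (num d (fun G : SimpleGraph V => ¬ Typ d r G) : ℝ) := by positivity
    simp only [pow_zero, one_mul]
    linarith
  | succ j ih =>
    intro k hk
    have h1 := ih (k + 1) (by omega)
    have h2 : 4096 * (k + 1) * Fintype.card V ≤ d * d := by
      refine le_trans ?_ hK
      exact Nat.mul_le_mul_right _ (Nat.mul_le_mul_left _ (by omega))
    have h3 := level_le hd hdn hr h2 hab hae hbe
    have h4 : num d (fun G : SimpleGraph V => (XX G a b e).card = k) ≤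
        num d (fun G : SimpleGraph V => Typ d r G ∧ (XX G a b e).card = k) +
        num d (fun G : SimpleGraph V => ¬ Typ d r G) := by
      refine (num_mono fun G _ h => ?_).trans (num_or_le _ _)
      by_cases c : Typ d r G
      · exact Or.inl ⟨c, h⟩
      · exact Or.inr c
    have h5 : (num d (fun G : SimpleGraph V => (XX G a b e).card = k) : ℝ) ≤
        (num d (fun G : SimpleGraph V => Typ d r G ∧ (XX G a b e).card = k) : ℝ) +
        (num d (fun G : SimpleGraph V => ¬ Typ d r G) : ℝ) := by exact_mod_cast h4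
    rw [pow_succ]
    nlinarith

/-- With high probability, `|N(a) ∩ N(b) \ N(e)|` is at least `K/2` for all `a`, `b`, `e`. -/
theorem codeg_low {d r K : ℕ} (heven : Even (Fintype.card V * d)) (h2 : 100 ≤ Fintype.card V)
    (hd : 128 ≤ d) (hdn : 2 * d ≤ Fintype.card V)
    (hr : 16 * (r + 1) ≤ d)
    (hr2 : 20 * (Fintype.card V : ℝ) * Real.log (Fintype.card V) ≤ d * (r + 1))
    (hK : 4096 * K * Fintype.card V ≤ d * d) :
    (num d (fun G : SimpleGraph V => ∃ a b e, a ≠ b ∧ a ≠ e ∧ b ≠ e ∧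
      2 * (XX G a b e).card ≤ K) : ℝ) ≤
    (Fintype.card V : ℝ) ^ 4 * ((1 / 2) ^ (K / 2) + 2 * Real.exp (-(Fintype.card V : ℝ))) *
      (regG V d).card := by
  set n := Fintype.card V with hn
  have hT := typ_bound heven h2 hdn hr hr2
  set I : Finset (V × V × V × ℕ) := (univ ×ˢ (univ ×ˢ (univ ×ˢ range (K / 2 + 1)))).filter
    fun q => q.1 ≠ q.2.1 ∧ q.1 ≠ q.2.2.1 ∧ q.2.1 ≠ q.2.2.1 with hI
  have h3 := num_le_card_mul (d := d) I (fun G : SimpleGraph V => ∃ a b e, a ≠ b ∧ a ≠ e ∧ b ≠ e ∧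
      2 * (XX G a b e).card ≤ K) (fun q G => (XX G q.1 q.2.1 q.2.2.1).card = q.2.2.2)
      (((1 / 2) ^ (K / 2) + 2 * Real.exp (-(n : ℝ))) * (regG V d).card) ?_ ?_
  · refine h3.trans ?_
    rw [← mul_assoc]
    refine mul_le_mul_of_nonneg_right ?_ (by positivity)
    refine mul_le_mul_of_nonneg_right ?_ (by positivity)
    have hKn : K / 2 + 1 ≤ n := by
      rcases Nat.eq_zero_or_pos K with h | h
      · subst h; simp; omega
      · have h4 : 4096 * K * n ≤ n * n := by nlinarith
        have h5 : 4096 * K ≤ n := Nat.le_of_mul_le_mul_right h4 (by omega)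
        omega
    have h4 : I.card ≤ n * (n * (n * (K / 2 + 1))) := by
      refine (card_filter_le _ _).trans ?_
      rw [card_product, card_product, card_product, card_univ, card_range]
    have h5 : I.card ≤ n ^ 4 := by
      refine h4.trans ?_
      calc n * (n * (n * (K / 2 + 1))) ≤ n * (n * (n * n)) := by gcongr
        _ = n ^ 4 := by ring
    exact_mod_cast h5
  · rintro G hG ⟨a, b, e, hab, hae, hbe, h⟩
    refine ⟨(a, b, e, (XX G a b e).card), ?_, rfl⟩
    simp only [hI, mem_filter, mem_product, mem_univ, true_and, mem_range]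
    exact ⟨by omega, hab, hae, hbe⟩
  · rintro ⟨a, b, e, k⟩ hq
    simp only [hI, mem_filter, mem_product, mem_univ, true_and, mem_range] at hq
    obtain ⟨hk, hab, hae, hbe⟩ := hq
    have h4 := level_bound hd hdn hr hK hab hae hbe (K - k) k (by omega)
    refine h4.trans ?_
    have h5 : (1 / 2 : ℝ) ^ (K - k) ≤ (1 / 2) ^ (K / 2) :=
      pow_le_pow_of_le_one (by norm_num) (by norm_num) (by omega)
    have h6 : (0 : ℝ) ≤ (regG V d).card := by positivity
    nlinarith

end Pool.Agent.H.MP_0fd30f_pr
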