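import Pool.Agent.H.MP_ccfaf0_pr.Count

/-!
# Basic notions for regular graphs
-/

open Finset

namespace Pool.Agent.H.MP_0fd30f_pr

export Pool.Agent.H.MP_ccfaf0_pr (regG mem_regG card_nbr card_nbr' card_darts sw sw_adj Valid
  sw_sw sw_regular cnt cnt_le)

open scoped Classical

variable {V : Type*} [Fintype V]

/-- The neighbours of `v`, as a finset. -/
noncomputable def nb (G : SimpleGraph V) (v : V) : Finset V := univ.filter fun y => G.Adj v y

theorem mem_nb {G : SimpleGraph V} {v y : V} : y ∈ nb G v ↔ G.Adj v y := by simp [nb]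

theorem card_nb {d : ℕ} {G : SimpleGraph V} (hG : G ∈ regG V d) (v : V) : (nb G v).card = d :=
  card_nbr hG v

/-- The number of pairs `(x, y) ∈ X × Y` which are adjacent. -/
noncomputable def eXY (G : SimpleGraph V) (X Y : Finset V) : ℕ :=
  ((X ×ˢ Y).filter fun p => G.Adj p.1 p.2).card

/-- The number of `d`-regular graphs with property `P`. -/
noncomputable def num (d : ℕ) (P : SimpleGraph V → Prop) : ℕ := ((regG V d).filter P).card

theorem num_eq (d : ℕ) (P : SimpleGraph V → Prop) [DecidablePred P] :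
    num d P = ((regG V d).filter P).card := by
  rw [num]; congr

theorem num_mono {d : ℕ} {P Q : SimpleGraph V → Prop} (h : ∀ G ∈ regG V d, P G → Q G) :
    num d P ≤ num d Q := by
  refine card_le_card fun G hG => ?_
  rw [mem_filter] at hG ⊢
  exact ⟨hG.1, h G hG.1 hG.2⟩

theorem num_le_sum {d : ℕ} {ι : Type*} (I : Finset ι) (P : SimpleGraph V → Prop)
    (Q : ι → SimpleGraph V → Prop) (h : ∀ G ∈ regG V d, P G → ∃ i ∈ I, Q i G) :
    num d P ≤ ∑ i ∈ I, num d (Q i) := by
  simp only [num]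
  refine (card_le_card ?_).trans card_biUnion_le
  intro G hG
  rw [mem_filter] at hG
  obtain ⟨i, hi, hQ⟩ := h G hG.1 hG.2
  rw [mem_biUnion]
  exact ⟨i, hi, mem_filter.2 ⟨hG.1, hQ⟩⟩

theorem num_le_card_mul {d : ℕ} {ι : Type*} (I : Finset ι) (P : SimpleGraph V → Prop)
    (Q : ι → SimpleGraph V → Prop) (B : ℝ) (h : ∀ G ∈ regG V d, P G → ∃ i ∈ I, Q i G)
    (hB : ∀ i ∈ I, (num d (Q i) : ℝ) ≤ B) :
    (num d P : ℝ) ≤ I.card * B := by
  have h1 : (num d P : ℝ) ≤ ∑ i ∈ I, (num d (Q i) : ℝ) := by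
    exact_mod_cast num_le_sum I P Q h
  refine h1.trans ((Finset.sum_le_sum hB).trans ?_)
  rw [Finset.sum_const, nsmul_eq_mul]

theorem num_or_le {d : ℕ} (P Q : SimpleGraph V → Prop) :
    num d (fun G => P G ∨ Q G) ≤ num d P + num d Q := by
  rw [num_eq d fun G => P G ∨ Q G, num_eq d P, num_eq d Q, filter_or]
  exact card_union_le _ _

end Pool.Agent.H.MP_0fd30f_pr
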