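import Pool.Agent.H.MP_0fd30f_pr.Defs
import Pool.Agent.H.MP_0fd30f_pr.Basic

/-!
# Charts: the local isomorphisms between two graphs with the same 1-neighbourhoods
-/

open Finset

namespace Pool.Agent.H.MP_0fd30f_pr

/-- For every vertex `v`, `ψ v` is an isomorphism from the graph induced by `G` on the neighbours
of `v` in `G` to the graph induced by `H` on the neighbours of `v` in `H`, with inverse `θ v`. -/
structure Chart {V : Type*} (G H : SimpleGraph V) (ψ θ : V → V → V) : Prop where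
  map : ∀ v x, G.Adj v x → H.Adj v (ψ v x)
  map' : ∀ v a, H.Adj v a → G.Adj v (θ v a)
  left : ∀ v x, G.Adj v x → θ v (ψ v x) = x
  right : ∀ v a, H.Adj v a → ψ v (θ v a) = a
  adj : ∀ v x y, G.Adj v x → G.Adj v y → (G.Adj x y ↔ H.Adj (ψ v x) (ψ v y))

variable {V : Type*} {G H : SimpleGraph V} {ψ θ : V → V → V}

theorem Chart.adj' (h : Chart G H ψ θ) (v a b : V) (ha : H.Adj v a) (hb : H.Adj v b) :
    H.Adj a b ↔ G.Adj (θ v a) (θ v b) := by
  rw [h.adj v _ _ (h.map' v a ha) (h.map' v b hb), h.right v a ha, h.right v b hb]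

theorem Chart.symm (h : Chart G H ψ θ) : Chart H G θ ψ :=
  ⟨h.map', h.map, h.right, h.left, h.adj'⟩

theorem Chart.inj (h : Chart G H ψ θ) {v x y : V} (hx : G.Adj v x) (hy : G.Adj v y)
    (hxy : ψ v x = ψ v y) : x = y := by
  rw [← h.left v x hx, hxy, h.left v y hy]

theorem Chart.eq_of_fixed (h : Chart G H ψ θ) (hfix : ∀ v x, G.Adj v x → ψ v x = x) : G = H := by
  ext v a
  constructor
  · intro ha
    have := h.map v a ha
    rwa [hfix v a ha] at this
  · intro ha
    have h1 := h.map' v a ha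
    have h2 := h.right v a ha
    rw [hfix v _ h1] at h2
    rwa [h2] at h1

open scoped Classical in
theorem Chart.card_nb [Fintype V] (h : Chart G H ψ θ) (v : V) : (nb H v).card = (nb G v).card := by
  refine le_antisymm ?_ ?_
  · refine card_le_card_of_injOn (θ v) ?_ ?_
    · intro a ha
      rw [mem_coe, mem_nb] at ha ⊢
      exact h.map' v a ha
    · intro a ha b hb hab
      rw [mem_coe, mem_nb] at ha hb
      exact h.symm.inj ha hb hab
  · refine card_le_card_of_injOn (ψ v) ?_ ?_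
    · intro a ha
      rw [mem_coe, mem_nb] at ha ⊢
      exact h.map v a ha
    · intro a ha b hb hab
      rw [mem_coe, mem_nb] at ha hb
      exact h.inj ha hb hab

open scoped Classical in
theorem exists_chart {V W : Type} (G : SimpleGraph V) (H : SimpleGraph W) (φ : V ≃ W)
    (h : ∀ v, SameNbhd G v H (φ v)) :
    ∃ ψ θ : V → V → V, Chart G (H.comap φ) ψ θ := by
  choose e he using h
  have hH : ∀ v a, (H.comap φ).Adj v a → φ a ∈ closedNbhd H (φ v) := fun v a h => Or.inr h
  have hG : ∀ v x, G.Adj v x → x ∈ closedNbhd G v := fun v x h => Or.inr h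
  set ψ : V → V → V := fun v x =>
    if hx : G.Adj v x then φ.symm ((e v ⟨x, hG v x hx⟩ : closedNbhd H (φ v)) : W) else v with hψ
  set θ : V → V → V := fun v a =>
    if ha : (H.comap φ).Adj v a then (((e v).symm ⟨φ a, hH v a ha⟩ : closedNbhd G v) : V) else v
    with hθ
  have hψ1 : ∀ v x (hx : G.Adj v x), φ (ψ v x) = ((e v ⟨x, hG v x hx⟩ : closedNbhd H (φ v)) : W) := by
    intro v x hx
    simp only [hψ, dif_pos hx, Equiv.apply_symm_apply]
  have hθ1 : ∀ v a (ha : (H.comap φ).Adj v a),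
      θ v a = (((e v).symm ⟨φ a, hH v a ha⟩ : closedNbhd G v) : V) := by
    intro v a ha
    simp only [hθ, dif_pos ha]
  have hmap : ∀ v x, G.Adj v x → (H.comap φ).Adj v (ψ v x) := by
    intro v x hx
    rw [SimpleGraph.comap_adj, hψ1 v x hx]
    have h1 := (e v).map_adj_iff (v := ⟨v, Or.inl rfl⟩) (w := ⟨x, hG v x hx⟩)
    rw [he v] at h1
    simp only [SimpleGraph.comap_adj, Function.Embedding.subtype_apply] at h1
    exact h1.2 hx
  have hmap' : ∀ v a, (H.comap φ).Adj v a → G.Adj v (θ v a) := by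
    intro v a ha
    rw [hθ1 v a ha]
    have h1 := (e v).symm.map_adj_iff (v := ⟨φ v, Or.inl rfl⟩) (w := ⟨φ a, hH v a ha⟩)
    have h2 : (e v).symm ⟨φ v, Or.inl rfl⟩ = ⟨v, Or.inl rfl⟩ := by
      rw [← he v]
      exact (e v).symm_apply_apply _
    rw [h2] at h1
    simp only [SimpleGraph.comap_adj, Function.Embedding.subtype_apply] at h1
    exact h1.2 ha
  refine ⟨ψ, θ, hmap, hmap', ?_, ?_, ?_⟩
  · intro v x hx
    rw [hθ1 v _ (hmap v x hx)]
    have h1 : (⟨φ (ψ v x), hH v _ (hmap v x hx)⟩ : closedNbhd H (φ v)) = e v ⟨x, hG v x hx⟩ :=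
      Subtype.ext (hψ1 v x hx)
    rw [h1]
    have h2 := (e v).symm_apply_apply ⟨x, hG v x hx⟩
    rw [h2]
  · intro v a ha
    apply φ.injective
    rw [hψ1 v _ (hmap' v a ha)]
    have h1 : (⟨θ v a, hG v _ (hmap' v a ha)⟩ : closedNbhd G v) = (e v).symm ⟨φ a, hH v a ha⟩ :=
      Subtype.ext (hθ1 v a ha)
    rw [h1]
    have h2 := (e v).apply_symm_apply ⟨φ a, hH v a ha⟩
    rw [h2]
  · intro v x y hx hy
    rw [SimpleGraph.comap_adj, hψ1 v x hx, hψ1 v y hy]
    have h1 := (e v).map_adj_iff (v := ⟨x, hG v x hx⟩) (w := ⟨y, hG v y hy⟩)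
    simp only [SimpleGraph.comap_adj, Function.Embedding.subtype_apply] at h1
    exact h1.symm

/-- It suffices to show that the charts are trivial. -/
theorem reconstructable_of_fixed {V : Type} (G : SimpleGraph V)
    (h : ∀ (H : SimpleGraph V) (ψ θ : V → V → V), Chart G H ψ θ → ∀ v x, G.Adj v x → ψ v x = x) :
    Reconstructable G := by
  intro W H ⟨φ, hφ⟩
  obtain ⟨ψ, θ, hc⟩ := exists_chart G H φ hφ
  have h1 := hc.eq_of_fixed (h _ ψ θ hc)
  rw [h1]
  exact ⟨SimpleGraph.Iso.comap φ H⟩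

end Pool.Agent.H.MP_0fd30f_pr
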