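import Pool.Agent.H.MP_0fd30f_pr.Rigid
import Pool.Agent.H.MP_0fd30f_pr.Chart

/-!
# The dense case: deterministic part
-/

open Finset

namespace Pool.Agent.H.MP_0fd30f_pr

open scoped Classical

/-- Dense case: fingerprints of edges determine the edges. -/
theorem dense_det {V : Type} [Fintype V] {K : ℕ} {d : ℕ} (G : SimpleGraph V) (B : ℝ)
    (hlow : ∀ a b e : V, a ≠ b → a ≠ e → b ≠ e → K < 2 * (XX G a b e).card)
    (hrigid : ∀ (A : Finset V) (l : V → V),
      (∀ x ∈ A, ∀ y ∈ A, x ≠ y → (G.Adj x y ↔ G.Adj (l x) (l y))) →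
      (d : ℝ) * ((A.filter fun x => l x ≠ x).card * (A.card - 2) : ℕ) < B)
    (hK : B ≤ d * ((K / 2) * (K / 2 - 2) : ℕ)) : Reconstructable G := by
  refine reconstructable_of_fixed G fun H ψ θ hc v w hvw => ?_
  by_contra hne
  set w' := ψ v w with hw'
  have hvw' : H.Adj v w' := hc.map v w hvw
  have hvne : v ≠ w' := hvw'.ne
  have hwne : w ≠ w' := fun h => hne h.symm
  set A := nb G v ∩ nb G w with hA
  set l : V → V := fun z => θ w' (ψ v z) with hl
  have hin : ∀ z ∈ A, G.Adj v z ∧ G.Adj w z := by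
    intro z hz
    rw [hA, mem_inter, mem_nb, mem_nb] at hz
    exact hz
  have hw'adj : ∀ z ∈ A, H.Adj w' (ψ v z) := by
    intro z hz
    exact (hc.adj v w z hvw (hin z hz).1).1 (hin z hz).2
  have hiso : ∀ x ∈ A, ∀ y ∈ A, x ≠ y → (G.Adj x y ↔ G.Adj (l x) (l y)) := by
    intro x hx y hy _
    rw [hc.adj v x y (hin x hx).1 (hin y hy).1]
    exact hc.adj' w' _ _ (hw'adj x hx) (hw'adj y hy)
  have h1 := hrigid A l hiso
  have h2 := hlow v w w' hvw.ne hvne hwne
  have h3 : XX G v w w' ⊆ A.filter fun x => l x ≠ x := by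
    intro z hz
    rw [mem_XX] at hz
    have hzA : z ∈ A := by
      rw [hA, mem_inter, mem_nb, mem_nb]; exact ⟨hz.1, hz.2.1⟩
    rw [mem_filter]
    refine ⟨hzA, fun h => hz.2.2.1 ?_⟩
    have h4 := hc.map' w' (ψ v z) (hw'adj z hzA)
    have h5 : θ w' (ψ v z) = z := h
    rwa [h5] at h4
  have h4 := card_le_card h3
  have h5 := (card_le_card h3).trans (card_le_card (filter_subset (fun x => l x ≠ x) A))
  have h6 : K / 2 * (K / 2 - 2) ≤ (A.filter fun x => l x ≠ x).card * (A.card - 2) :=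
    Nat.mul_le_mul (by omega) (by omega)
  have h7 : (d : ℝ) * ((K / 2) * (K / 2 - 2) : ℕ) ≤
      d * ((A.filter fun x => l x ≠ x).card * (A.card - 2) : ℕ) :=
    mul_le_mul_of_nonneg_left (by exact_mod_cast h6) (by positivity)
  linarith

end Pool.Agent.H.MP_0fd30f_pr
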