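import Mathlib

/-!
# Numerical inequalities for the sparse regime
-/

namespace Pool.Agent.H.MP_0fd30f_pr

/-- The sparse regime: `N` vertices, degree `D`, `L = log N`, `c = D ^ 2 / N`. -/
structure Regime (N D L c : ℝ) : Prop where
  hL : 1 ≤ L
  hN : 0 < N
  hD : 0 < D
  hc : c * N = D ^ 2
  hc0 : 10 ^ 70 * L ^ 3 ≤ c
  hDN : 10 ^ 20 * D ≤ N

namespace Regime

variable {N D L c : ℝ}

theorem cpos (h : Regime N D L c) : 0 < c := by
  have h1 := h.hL
  have : 0 < L := by linarith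
  exact lt_of_lt_of_le (by positivity) h.hc0

theorem cL2 (h : Regime N D L c) : 10 ^ 70 * L ^ 2 ≤ c := by
  refine le_trans ?_ h.hc0
  have h1 := h.hL
  have : L ^ 2 ≤ L ^ 3 := pow_le_pow_right₀ h1 (by norm_num)
  linarith

theorem cL1 (h : Regime N D L c) : 10 ^ 70 * L ≤ c := by
  refine le_trans ?_ h.cL2
  have h1 := h.hL
  nlinarith

theorem c1 (h : Regime N D L c) : 10 ^ 70 ≤ c := by
  refine le_trans ?_ h.cL1
  have h1 := h.hL
  nlinarith

theorem cD (h : Regime N D L c) : 10 ^ 20 * c ≤ D := by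
  have h1 := h.cpos
  have h2 := h.hc
  have h3 := h.hDN
  have h4 := h.hD
  have h5 : (10 ^ 20 * c) * D ≤ D * D := by nlinarith
  exact le_of_mul_le_mul_right h5 h4

theorem D1 (h : Regime N D L c) : 10 ^ 90 ≤ D := by
  have h1 := h.cD
  have h2 := h.c1
  linarith

theorem DDN (h : Regime N D L c) : D / N * D = c := by
  have h1 := h.hN
  have h2 := h.hc
  field_simp
  linarith

theorem DN (h : Regime N D L c) : D / N ≤ 1 / 10 ^ 20 := by
  rw [div_le_div_iff₀ h.hN (by positivity)]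
  linarith [h.hDN]

/-- The parameter `m`. -/
theorem m_bounds (h : Regime N D L c) {M : ℝ} (hM2 : M ≤ 72000 * (N * L / c) + 1) :
    M ≤ 72001 * (N * L / c) := by
  have h1 : 1 ≤ N * L / c := by
    rw [le_div_iff₀ h.cpos]
    have h2 := h.cD
    have h3 := h.hDN
    have h4 := h.hL
    have h5 := h.hN
    have h6 := h.hD
    have h7 := h.cpos
    nlinarith
  linarith

theorem m_le (h : Regime N D L c) {M : ℝ} (hM : M ≤ 72001 * (N * L / c)) : M ≤ N := by
  refine hM.trans ?_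
  have h1 := h.cpos
  have h2 := h.cL1
  have h3 := h.hL
  rw [mul_div_assoc', div_le_iff₀ h1]
  have h4 := h.hN
  nlinarith

theorem two_le_m (h : Regime N D L c) {M : ℝ} (hM : 72000 * (N * L / c) ≤ M) : 2 ≤ M := by
  refine le_trans ?_ hM
  have h1 : 1 ≤ N * L / c := by
    rw [le_div_iff₀ h.cpos]
    have h2 := h.cD
    have h3 := h.hDN
    have h4 := h.hL
    have h5 := h.hN
    have h6 := h.hD
    have h7 := h.cpos
    nlinarith
  linarith

theorem tau1 (h : Regime N D L c) {M : ℝ} (hM : 72000 * (N * L / c) ≤ M) :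
    8 * L ≤ M * (c / 8192) / N := by
  have h1 := h.cpos
  have h2 := h.hN
  have h3 := h.hL
  have h4 : 72000 * (N * L / c) * (c / 8192) / N = (72000 / 8192) * L := by
    field_simp
  have h5 : 72000 * (N * L / c) * (c / 8192) / N ≤ M * (c / 8192) / N := by gcongr
  rw [h4] at h5
  linarith

theorem tau2 (h : Regime N D L c) {M A : ℝ} (hM : M ≤ 72001 * (N * L / c))
    (hA : 4 * 10 ^ 6 * L ≤ A) : M * (31 * c) / N + 8 * L ≤ A * Real.log 2 := by
  have h1 := h.cpos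
  have h2 := h.hN
  have h3 := h.hL
  have h4 : 72001 * (N * L / c) * (31 * c) / N = (72001 * 31) * L := by
    field_simp
  have h5 : M * (31 * c) / N ≤ 72001 * (N * L / c) * (31 * c) / N := by gcongr
  rw [h4] at h5
  have h6 := Real.log_two_gt_d9
  have h7 : 4 * 10 ^ 6 * L * 0.69 ≤ A * Real.log 2 := by
    have : (0.69 : ℝ) ≤ Real.log 2 := by linarith
    have h0 : 0 ≤ A := by nlinarith
    calc 4 * 10 ^ 6 * L * 0.69 ≤ A * 0.69 := by gcongr
      _ ≤ A * Real.log 2 := by gcongr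
  linarith

theorem hk (h : Regime N D L c) {K : ℝ} (hK : K ≤ D * c / 10 ^ 13 + 1) :
    6 * K + (31 * c) ^ 2 < D * (c / 8192) / 2 := by
  have h1 := h.cpos
  have h2 := h.cD
  have h3 := h.c1
  have h4 := h.D1
  have h5 : 10 ^ 20 * (c * c) ≤ D * c := by nlinarith
  have h6 : (10 : ℝ) ^ 20 ≤ D * c := by nlinarith
  nlinarith

theorem hq (h : Regime N D L c) {M A B : ℝ} (hM0 : 72000 * (N * L / c) ≤ M)
    (hM2 : 2 ≤ M) (hA0 : 1 ≤ A) (hA : A ≤ 4000001 * L) (hB : B = 13 * M * N * L) :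
    8 * N ^ 2 * (2 * B * A ^ 2 + 1) *
      (1 + (1 + 2 * ((31 * c) / (c / 8192))) * (4 * ((31 * c) / (c / 8192)))) ≤
    (5 * 10 ^ 26 * (N * D * L ^ 2 / c)) * (M ^ 2 * D * (c / 8192)) := by
  have h1 := h.cpos
  have h2 := h.hN
  have h3 := h.hL
  have h4 := h.hD
  have hN1 : 1 ≤ N := by linarith [h.hDN, h.D1]
  have hL0 : 0 < L := by linarith
  have hM0' : 0 < M := by linarith
  have e1 : (31 * c) / (c / 8192) = 253952 := by field_simp; norm_num
  rw [e1]
  have e2 : (2 * B * A ^ 2 + 1) ≤ 27 * (M * N * L) * A ^ 2 := by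
    have : 1 ≤ (M * N * L) * A ^ 2 := by
      have a1 : 1 ≤ M * N := by nlinarith
      have a2 : 1 ≤ M * N * L := by nlinarith
      have a3 : 1 ≤ A ^ 2 := by nlinarith
      nlinarith
    rw [hB]
    nlinarith
  have e3 : A ^ 2 ≤ 16000009000000 * L ^ 2 := by
    calc A ^ 2 ≤ (4000001 * L) ^ 2 := by gcongr
      _ ≤ _ := by nlinarith [sq_nonneg L]
  have e4 : 27 * (M * N * L) * A ^ 2 ≤ 27 * (M * N * L) * (16000009000000 * L ^ 2) := by gcongr
  have e5 : 72000 * (N * L) ≤ c * M := by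
    have : 72000 * (N * L / c) * c ≤ M * c := by gcongr
    have e : 72000 * (N * L / c) * c = 72000 * (N * L) := by field_simp
    rw [e] at this
    linarith
  have e6 : (5 * 10 ^ 26 * (N * D * L ^ 2 / c)) * (M ^ 2 * D * (c / 8192)) =
      (5 * 10 ^ 26 / 8192) * (N * L ^ 2 * M ^ 2 * D ^ 2) := by
    field_simp
  rw [e6, ← h.hc]
  have e7 : (5 * 10 ^ 26 / 8192) * (N * L ^ 2 * M * N * (72000 * (N * L))) ≤
      (5 * 10 ^ 26 / 8192) * (N * L ^ 2 * M ^ 2 * (c * N)) := by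
    have : N * L ^ 2 * M ^ 2 * (c * N) = N * L ^ 2 * M * N * (c * M) := by ring
    rw [this]
    gcongr
  refine le_trans ?_ e7
  have e8 : 8 * N ^ 2 * (2 * B * A ^ 2 + 1) * (1 + (1 + 2 * 253952) * (4 * 253952)) ≤
      8 * N ^ 2 * (27 * (M * N * L) * (16000009000000 * L ^ 2)) *
        (1 + (1 + 2 * 253952) * (4 * 253952)) := by
    gcongr
    exact e2.trans e4
  refine e8.trans ?_
  have e9 : 0 < M * N ^ 3 * L ^ 3 := by positivity
  nlinarith

/-- The parameter `s`. -/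
theorem f0 (h : Regime N D L c) :
    c / (80 * 10 ^ 13 * L) ≤ c / (80 * 10 ^ 13 * L) * N / (160 * D) := by
  have h1 := h.cpos
  have h2 := h.hN
  have h3 := h.hL
  have h4 := h.hD
  have hL0 : 0 < L := by linarith
  set s := c / (80 * 10 ^ 13 * L) with hs
  have hs0 : 0 < s := by positivity
  rw [le_div_iff₀ (by positivity)]
  have := h.hDN
  nlinarith

theorem hts (h : Regime N D L c) :
    80 * D * L * (c / (80 * 10 ^ 13 * L)) = D * c / 10 ^ 13 := by
  have h3 := h.hL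
  have hL0 : 0 < L := by linarith
  field_simp

theorem f1 (h : Regime N D L c) :
    40 * (D / N) * (c / (80 * 10 ^ 13 * L) * N / (160 * D)) ≤ c / (80 * 10 ^ 13 * L) / 4 := by
  have h1 := h.cpos
  have h2 := h.hN
  have h3 := h.hL
  have h4 := h.hD
  have hL0 : 0 < L := by linarith
  apply le_of_eq
  field_simp
  norm_num

theorem f2 (h : Regime N D L c) : 10 * L ≤ c / (80 * 10 ^ 13 * L) / 4 := by
  have h3 := h.hL
  have hL0 : 0 < L := by linarith
  rw [div_div, le_div_iff₀ (by positivity)]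
  have := h.cL2
  nlinarith

theorem iq_eq (h : Regime N D L c) :
    2 * (31 * c) * (5 * 10 ^ 26 * (N * D * L ^ 2 / c)) / (D * c / 10 ^ 13) =
      31 * 10 ^ 40 * (N * L ^ 2 / c) := by
  have h1 := h.cpos
  have h4 := h.hD
  field_simp
  norm_num

theorem f3 (h : Regime N D L c) :
    40 * (D / N) * (31 * 10 ^ 40 * (N * L ^ 2 / c)) ≤
      c / (80 * 10 ^ 13 * L) * N / (160 * D) / 4 := by
  have h1 := h.cpos
  have h2 := h.hN
  have h3 := h.hL
  have h4 := h.hD
  have hL0 : 0 < L := by linarith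
  have e1 : 40 * (D / N) * (31 * 10 ^ 40 * (N * L ^ 2 / c)) = 40 * 31 * 10 ^ 40 * D * L ^ 2 / c := by
    field_simp
  have e2 : c / (80 * 10 ^ 13 * L) * N / (160 * D) / 4 = D / (80 * 10 ^ 13 * 160 * 4 * L) := by
    have : c * N = D ^ 2 := h.hc
    field_simp
    linarith
  rw [e1, e2, div_le_div_iff₀ h1 (by positivity)]
  have e3 := h.hc0
  have e4 : 40 * 31 * 10 ^ 40 * D * L ^ 2 * (80 * 10 ^ 13 * 160 * 4 * L) =
    (40 * 31 * 10 ^ 40 * 80 * 10 ^ 13 * 160 * 4) * D * L ^ 3 := by ring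
  rw [e4]
  have e5 : 0 < D * L ^ 3 := by positivity
  have e6 : D * (10 ^ 70 * L ^ 3) ≤ D * c := by gcongr
  nlinarith

theorem f3' (h : Regime N D L c) : 400 * (31 * 10 ^ 40 * (N * L ^ 2 / c)) ≤ N := by
  have h1 := h.cpos
  have h2 := h.hN
  have e1 : 400 * (31 * 10 ^ 40 * (N * L ^ 2 / c)) = 400 * 31 * 10 ^ 40 * N * L ^ 2 / c := by
    field_simp
  rw [e1, div_le_iff₀ h1]
  have e2 := h.cL2
  have e3 : N * (10 ^ 70 * L ^ 2) ≤ N * c := by gcongr
  have e4 : 0 ≤ N * L ^ 2 := by positivity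
  nlinarith

theorem f4 (h : Regime N D L c) :
    80 * (31 * c) * D * L ≤ D * c / 10 ^ 13 * (c / (80 * 10 ^ 13 * L)) := by
  have h1 := h.cpos
  have h3 := h.hL
  have h4 := h.hD
  have hL0 : 0 < L := by linarith
  have e1 : D * c / 10 ^ 13 * (c / (80 * 10 ^ 13 * L)) = D * c * c / (10 ^ 13 * (80 * 10 ^ 13 * L)) := by
    field_simp
  rw [e1, le_div_iff₀ (by positivity)]
  have e2 := h.cL2
  have e3 : (c * D) * (10 ^ 70 * L ^ 2) ≤ (c * D) * c := by gcongr
  have e4 : 0 ≤ c * D * L ^ 2 := by positivity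
  nlinarith

theorem f5 (h : Regime N D L c) :
    32 * ((31 * 10 ^ 40 * (N * L ^ 2 / c)) * D + 5 * 10 ^ 26 * (N * D * L ^ 2 / c)) * L + 8 ≤
      N * D := by
  have h1 := h.cpos
  have h2 := h.hN
  have h3 := h.hL
  have h4 := h.hD
  have hL0 : 0 < L := by linarith
  have e1 : 32 * ((31 * 10 ^ 40 * (N * L ^ 2 / c)) * D + 5 * 10 ^ 26 * (N * D * L ^ 2 / c)) * L =
      (32 * (31 * 10 ^ 40 + 5 * 10 ^ 26)) * (N * D * L ^ 3) / c := by
    field_simp
  have e2 : (32 * (31 * 10 ^ 40 + 5 * 10 ^ 26)) * (N * D * L ^ 3) / c ≤ N * D / 2 := by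
    rw [div_le_div_iff₀ h1 (by norm_num)]
    have e3 := h.hc0
    have e4 : (N * D) * (10 ^ 70 * L ^ 3) ≤ (N * D) * c := by gcongr
    have e5 : 0 ≤ N * D * L ^ 3 := by positivity
    nlinarith
  rw [e1]
  have e6 : 16 ≤ N * D := by
    have a1 := h.D1
    have a2 := h.hDN
    nlinarith
  linarith

theorem hrho1 (h : Regime N D L c) {K : ℝ} (hK : K ≤ D * c / 10 ^ 13 + 1) :
    6 * K + D * c / 10 ^ 13 ≤ 7 * D / 10 ^ 9 * (c / 8192 - 1) := by
  have h1 := h.cpos
  have h3 := h.c1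
  have h4 := h.D1
  have h6 : (10 : ℝ) ^ 70 * D ≤ D * c := by nlinarith
  nlinarith

theorem f6 (h : Regime N D L c) :
    40 * (D / N) * (7 * D / 10 ^ 9) ≤ c / 8192 / 8 := by
  have h1 := h.cpos
  have e1 : 40 * (D / N) * (7 * D / 10 ^ 9) = 280 / 10 ^ 9 * (D / N * D) := by ring
  rw [e1, h.DDN]
  nlinarith

theorem f7 (h : Regime N D L c) : 1280 * L ≤ c / 8192 := by
  have := h.cL1
  have := h.hL
  linarith

theorem hrho2 (h : Regime N D L c) :
    D * c / 10 ^ 13 + 10 * (7 * D / 10 ^ 9) * L ≤ 7 * D / 10 ^ 9 * (c / 8192 / 4) := by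
  have h1 := h.cpos
  have h2 := h.hD
  have h3 := h.cL1
  have h4 : D * (10 ^ 70 * L) ≤ D * c := by gcongr
  nlinarith

theorem f8 (h : Regime N D L c) :
    40 * (D / N) * (7 * D / 10 ^ 9 + 7 * D / 10 ^ 9) ≤ c / 8192 / 16 := by
  have h1 := h.cpos
  have e1 : 40 * (D / N) * (7 * D / 10 ^ 9 + 7 * D / 10 ^ 9) = 560 / 10 ^ 9 * (D / N * D) := by ring
  rw [e1, h.DDN]
  nlinarith

/-- The parameter `B`. -/
theorem hB (h : Regime N D L c) {M : ℝ} (hM0 : 72000 * (N * L / c) ≤ M) :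
    6 * N * (2 * D * M + N + 3) * L ≤ D * (13 * M * N * L) := by
  have h1 := h.cpos
  have h2 := h.hN
  have h3 := h.hL
  have h4 := h.hD
  have hL0 : 0 < L := by linarith
  have e5 : 72000 * (N * L) ≤ M * c := by
    have : 72000 * (N * L / c) * c ≤ M * c := by gcongr
    have e : 72000 * (N * L / c) * c = 72000 * (N * L) := by field_simp
    rw [e] at this
    linarith
  have hM1 : 0 ≤ M := by
    refine le_trans ?_ hM0
    positivity
  have e6 : 72000 * N ≤ M * D := by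
    have a1 := h.cD
    have a2 : M * c ≤ M * D := by gcongr; linarith
    nlinarith
  have e7 : 6 * (N + 3) ≤ D * M := by
    have := h.hDN
    have := h.D1
    nlinarith
  have e8 : 0 ≤ N * L := by positivity
  nlinarith

end Regime

end Pool.Agent.H.MP_0fd30f_pr
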