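import Pool.Agent.H.MP_0fd30f_pr.CodegLow

/-!
# Rigidity of large induced subgraphs
-/

open Finset

namespace Pool.Agent.H.MP_0fd30f_pr

open scoped Classical

/-- A fixed-point-free function on `B` maps some third of `B` outside that third. -/
theorem exists_indep {α : Type*} (f : α → α) : ∀ (k : ℕ) (B : Finset α), B.card = k →
    (∀ g ∈ B, f g ≠ g) → ∃ Z ⊆ B, B.card ≤ 3 * Z.card ∧ ∀ g ∈ Z, f g ∉ Z := by
  intro k
  induction k using Nat.strong_induction_on with
  | _ k ih =>
  intro B hk hB
  rcases B.eq_empty_or_nonempty with rfl | hne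
  · exact ⟨∅, Subset.refl _, by simp, by simp⟩
  -- a vertex of in-degree at most one
  obtain ⟨g0, hg0, hdeg⟩ : ∃ g0 ∈ B, (B.filter fun g => f g = g0).card ≤ 1 := by
    by_contra hcon
    push Not at hcon
    have h1 : ∑ g0 ∈ B, (B.filter fun g => f g = g0).card ≤ B.card := by
      rw [← card_biUnion]
      · exact card_le_card (by
          intro g hg
          rw [mem_biUnion] at hg
          obtain ⟨g0, _, hg⟩ := hg
          exact (mem_filter.1 hg).1)
      · intro x _ y _ hxy
        rw [Function.onFun, disjoint_left]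
        intro g hg hg'
        rw [mem_filter] at hg hg'
        exact hxy (hg.2.symm.trans hg'.2)
    have h2 : ∑ _g0 ∈ B, 2 ≤ ∑ g0 ∈ B, (B.filter fun g => f g = g0).card :=
      Finset.sum_le_sum fun g hg => hcon g hg
    rw [Finset.sum_const, smul_eq_mul] at h2
    have h3 : 0 < B.card := card_pos.2 hne
    omega
  set B' := B \ (insert g0 (insert (f g0) (B.filter fun g => f g = g0))) with hB'
  have hB'sub : B' ⊆ B := sdiff_subset
  have hc1 : (insert g0 (insert (f g0) (B.filter fun g => f g = g0))).card ≤ 3 := by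
    have e1 := card_insert_le g0 (insert (f g0) (B.filter fun g => f g = g0))
    have e2 := card_insert_le (f g0) (B.filter fun g => f g = g0)
    omega
  have hc2 : B.card ≤ B'.card + 3 := by
    have : B.card ≤ B'.card + (insert g0 (insert (f g0) (B.filter fun g => f g = g0))).card :=
      card_le_card_sdiff_add_card
    omega
  have hlt : B'.card < B.card := by
    refine card_lt_card ⟨hB'sub, fun h => ?_⟩
    have := h hg0
    rw [hB', mem_sdiff] at this
    exact this.2 (mem_insert_self _ _)
  obtain ⟨Z, hZ, hZc, hZi⟩ := ih B'.card (by omega) B' rfl fun g hg => hB g (hB'sub hg)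
  have hg0Z : g0 ∉ Z := by
    intro h
    have := hZ h
    rw [hB', mem_sdiff] at this
    exact this.2 (mem_insert_self _ _)
  refine ⟨insert g0 Z, insert_subset hg0 (hZ.trans hB'sub), ?_, ?_⟩
  · rw [card_insert_of_notMem hg0Z]; omega
  · intro g hg
    rw [mem_insert] at hg
    rw [mem_insert, not_or]
    rcases hg with rfl | hg
    · refine ⟨hB g hg0, fun h => ?_⟩
      have := hZ h
      rw [hB', mem_sdiff] at this
      exact this.2 (mem_insert_of_mem (mem_insert_self _ _))
    · refine ⟨fun h => ?_, hZi g hg⟩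
      have h1 := hZ hg
      rw [hB', mem_sdiff] at h1
      refine h1.2 (mem_insert_of_mem (mem_insert_of_mem ?_))
      rw [mem_filter]
      exact ⟨h1.1, h⟩

variable {V : Type*} [Fintype V]

/-- Moved pairs. -/
noncomputable def movedPairs (A : Finset V) (l : V → V) : Finset (Sym2 V) :=
  (pairs V).filter fun e => (∀ x ∈ e, x ∈ A) ∧ Sym2.map l e ≠ e

theorem card_movedPairs (A : Finset V) (l : V → V) :
    (A.filter fun x => l x ≠ x).card * (A.card - 2) ≤ 2 * (movedPairs A l).card := by
  set R := A.filter fun x => l x ≠ x with hR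
  -- ordered pairs
  set P : Finset (V × V) := (R ×ˢ A).filter fun q => q.2 ≠ q.1 ∧ q.2 ≠ l q.1 with hP
  have h1 : R.card * (A.card - 2) ≤ P.card := by
    have h2 : P.card = ∑ x ∈ R, (A.filter fun y => y ≠ x ∧ y ≠ l x).card := by
      rw [hP, card_filter, sum_product]
      refine Finset.sum_congr rfl fun x _ => ?_
      rw [card_filter]
    rw [h2, ← smul_eq_mul, ← Finset.sum_const]
    refine Finset.sum_le_sum fun x _ => ?_
    have h3 : A ⊆ (A.filter fun y => y ≠ x ∧ y ≠ l x) ∪ {x, l x} := by
      intro y hy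
      rw [mem_union, mem_filter, mem_insert, mem_singleton]
      tauto
    have h4 := (card_le_card h3).trans (card_union_le _ _)
    have h5 : ({x, l x} : Finset V).card ≤ 2 := card_le_two
    omega
  refine h1.trans ?_
  have h6 : P ⊆ univ.filter fun p : V × V => s(p.1, p.2) ∈ movedPairs A l := by
    rintro ⟨x, y⟩ hq
    simp only [hP, hR, mem_filter, mem_product] at hq
    obtain ⟨⟨⟨hx, hlx⟩, hy⟩, hyx, hyl⟩ := hq
    simp only [mem_filter, mem_univ, true_and, movedPairs, mem_pairs, Sym2.mk_isDiag_iff,
      Sym2.mem_iff, forall_eq_or_imp, forall_eq, Sym2.map_mk, ne_eq, Sym2.eq_iff]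
    refine ⟨fun h => hyx h.symm, ⟨hx, hy⟩, ?_⟩
    rintro (h | h)
    · exact hlx h.1
    · exact hyl h.1.symm
  exact (card_le_card h6).trans (Pool.Agent.H.MP_ccfaf0_pr.card_sym2_le _)

/-- With high probability there is no isomorphism between large induced subgraphs which moves many
vertices. -/
theorem rigid {d : ℕ} (heven : Even (Fintype.card V * d)) (h2 : 100 ≤ Fintype.card V)
    (hd : 2 * d ≤ Fintype.card V) (hd0 : 0 < d) :
    (num d (fun G : SimpleGraph V => ∃ (A : Finset V) (l : V → V),
      (∀ x ∈ A, ∀ y ∈ A, x ≠ y → (G.Adj x y ↔ G.Adj (l x) (l y))) ∧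
      60 * (Fintype.card V : ℝ) ^ 2 * Real.log (Fintype.card V) ≤
        d * ((A.filter fun x => l x ≠ x).card * (A.card - 2) : ℕ)) : ℝ) ≤
      Real.exp (-(Fintype.card V : ℝ)) * (regG V d).card := by
  set n := Fintype.card V with hn
  have hn100 : (100 : ℝ) ≤ n := by exact_mod_cast h2
  have hn0 : (0 : ℝ) < n := by linarith
  have hd0' : (0 : ℝ) < d := by exact_mod_cast hd0
  -- choose independent sets
  have hchoice : ∀ q : Finset V × (V → V), ∃ Z ⊆ movedPairs q.1 q.2,
      (movedPairs q.1 q.2).card ≤ 3 * Z.card ∧ ∀ g ∈ Z, Sym2.map q.2 g ∉ Z := by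
    intro q
    refine exists_indep (Sym2.map q.2) _ _ rfl fun g hg => ?_
    rw [movedPairs, mem_filter] at hg
    exact hg.2.2
  choose Z hZsub hZcard hZind using hchoice
  set I : Finset (Finset V × (V → V)) := univ.filter fun q =>
    60 * (n : ℝ) ^ 2 * Real.log n ≤
        d * ((q.1.filter fun x => q.2 x ≠ x).card * (q.1.card - 2) : ℕ) with hI
  have hlog : 4 ≤ Real.log n := by
    rw [Real.le_log_iff_exp_le (by linarith)]
    have := Real.exp_one_lt_d9
    calc Real.exp 4 = (Real.exp 1) ^ 4 := by rw [← Real.exp_nat_mul]; norm_num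
      _ ≤ (2.7182818286 : ℝ) ^ 4 := pow_le_pow_left₀ (Real.exp_pos _).le this.le _
      _ ≤ n := by norm_num; linarith
  have h3 := num_le_card_mul (d := d) I (fun G : SimpleGraph V => ∃ (A : Finset V) (l : V → V),
      (∀ x ∈ A, ∀ y ∈ A, x ≠ y → (G.Adj x y ↔ G.Adj (l x) (l y))) ∧
      60 * (n : ℝ) ^ 2 * Real.log n ≤
        d * ((A.filter fun x => l x ≠ x).card * (A.card - 2) : ℕ))
      (fun q G => ∀ g ∈ Z q, (g ∈ G.edgeSet ↔ Sym2.map q.2 g ∈ G.edgeSet))
      (Real.exp (((n : ℝ) + 2) * Real.log n - 5 * n * Real.log n) * (regG V d).card) ?_ ?_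
  · refine h3.trans ?_
    rw [← mul_assoc]
    refine mul_le_mul_of_nonneg_right ?_ (by positivity)
    have hIc : (I.card : ℝ) ≤ Real.exp (n * Real.log 2 + n * Real.log n) := by
      have h4 : I.card ≤ 2 ^ n * n ^ n := by
        refine (card_le_univ _).trans ?_
        rw [Fintype.card_prod, Fintype.card_finset, Fintype.card_fun]
      calc (I.card : ℝ) ≤ ((2 ^ n * n ^ n : ℕ) : ℝ) := by exact_mod_cast h4
        _ = _ := by
            push_cast
            rw [Real.exp_add, ← Real.rpow_natCast (2 : ℝ) n, ← Real.rpow_natCast (n : ℝ) n,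
              Real.rpow_def_of_pos (by norm_num), Real.rpow_def_of_pos hn0]
            ring_nf
    refine (mul_le_mul_of_nonneg_right hIc (Real.exp_pos _).le).trans ?_
    rw [← Real.exp_add]
    refine Real.exp_le_exp.2 ?_
    have h11 := Real.log_two_lt_d9
    nlinarith
  · rintro G hG ⟨A, l, h4, h5⟩
    refine ⟨(A, l), ?_, ?_⟩
    · simp only [hI, mem_filter, mem_univ, true_and]
      exact h5
    · intro g hg
      have h6 := hZsub (A, l) hg
      rw [movedPairs, mem_filter, mem_pairs] at h6
      revert h6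
      induction g with
      | h x y =>
        intro h6
        have h7 := h6.2.1 x (Sym2.mem_mk_left _ _)
        have h8 := h6.2.1 y (Sym2.mem_mk_right _ _)
        have h9 : x ≠ y := fun h => h6.1 (by rw [Sym2.mk_isDiag_iff]; exact h)
        rw [Sym2.map_mk, SimpleGraph.mem_edgeSet, SimpleGraph.mem_edgeSet]
        exact h4 x h7 y h8 h9
  · rintro ⟨A, l⟩ hq
    simp only [hI, mem_filter, mem_univ, true_and] at hq
    refine (coinc_le heven (by omega) hd (Z (A, l)) ?_ _ (hZind (A, l))).trans ?_
    · intro g hg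
      have := hZsub (A, l) hg
      rw [movedPairs, mem_filter] at this
      exact this.1
    · refine mul_le_mul_of_nonneg_right (Real.exp_le_exp.2 ?_) (by positivity)
      have h4 := card_movedPairs A l
      have h5 := hZcard (A, l)
      simp only at h5
      have h6 : (A.filter fun x => l x ≠ x).card * (A.card - 2) ≤ 6 * (Z (A, l)).card := by omega
      have h7 : (((A.filter fun x => l x ≠ x).card * (A.card - 2) : ℕ) : ℝ) ≤
          6 * (Z (A, l)).card := by exact_mod_cast h6
      have h8 : 10 * (n : ℝ) ^ 2 * Real.log n ≤ d * (Z (A, l)).card := by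
        have h9 := mul_le_mul_of_nonneg_left h7 hd0'.le
        nlinarith
      have h9 : 5 * (n : ℝ) * Real.log n ≤ (d : ℝ) / (2 * n) * (Z (A, l)).card := by
        rw [div_mul_eq_mul_div, le_div_iff₀ (by positivity)]
        nlinarith
      linarith

end Pool.Agent.H.MP_0fd30f_pr
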