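import Pool.Agent.H.MP_0fd30f_pr.Fine3
import Pool.Agent.H.MP_0fd30f_pr.Dense
import Pool.Agent.H.MP_0fd30f_pr.Rigid
import Pool.Agent.H.MP_0fd30f_pr.CodegLow
import Pool.Agent.H.MP_0fd30f_pr.Num

/-!
# Failure probability of reconstruction
-/

open Finset

namespace Pool.Agent.H.MP_0fd30f_pr

open scoped Classical

theorem pow_eq_exp {n : ℝ} (hn : 0 < n) (a : ℕ) : n ^ a = Real.exp (a * Real.log n) := by
  rw [← Real.rpow_natCast, Real.rpow_def_of_pos hn]
  ring_nf

theorem pow_mul_exp_le {n x : ℝ} (hn : 0 < n) (a : ℕ) (hx : (a + 1) * Real.log n ≤ x) :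
    n ^ a * Real.exp (-x) ≤ 1 / n := by
  rw [le_div_iff₀ hn]
  have : n ^ a * Real.exp (-x) * n = n ^ (a + 1) * Real.exp (-x) := by ring
  rw [this, pow_eq_exp hn, ← Real.exp_add, Real.exp_le_one_iff]
  push_cast
  linarith

theorem codeg_fail {V : Type*} [Fintype V] {d : ℕ} (heven : Even (Fintype.card V * d))
    (hL : 1 ≤ Real.log (Fintype.card V))
    (hc : 10 ^ 70 * Real.log (Fintype.card V) ^ 3 * (Fintype.card V : ℝ) ≤ (d : ℝ) ^ 2)
    (hdn : 2 * d ≤ Fintype.card V) :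
    (num d (fun G : SimpleGraph V => ∃ a b e, a ≠ b ∧ a ≠ e ∧ b ≠ e ∧
      2 * (XX G a b e).card ≤ ⌊(d : ℝ) ^ 2 / Fintype.card V / 4096⌋₊) : ℝ) ≤
      3 / Fintype.card V * (regG V d).card := by
  set n := Fintype.card V with hn
  set L := Real.log n with hLdef
  have hn0 : (0 : ℝ) < n := by
    rcases Nat.eq_zero_or_pos n with h | h
    · rw [hLdef, h] at hL; simp at hL; linarith
    · exact_mod_cast h
  have hdn' : 2 * (d : ℝ) ≤ n := by exact_mod_cast hdn
  have hd0 : (0 : ℝ) ≤ d := by positivity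
  have hL3 : L ≤ L ^ 3 := by nlinarith [sq_nonneg L]
  have hL3' : 1 ≤ L ^ 3 := by linarith
  have hc1 : 10 ^ 70 * L * n ≤ (d : ℝ) ^ 2 := by
    refine le_trans ?_ hc
    gcongr
  have hc2 : 10 ^ 70 * n ≤ (d : ℝ) ^ 2 := by
    refine le_trans ?_ hc1
    nlinarith
  have hd1 : (2 * 10 ^ 70 : ℝ) * d ≤ d * d := by linarith
  have hdpos : (0 : ℝ) < d := by
    rcases hd0.lt_or_eq with h | h
    · exact h
    · rw [← h] at hc2; linarith
  have hd2 : (2 * 10 ^ 70 : ℝ) ≤ d := le_of_mul_le_mul_right hd1 hdpos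
  set c := (d : ℝ) ^ 2 / n with hcdef
  have hcn : c * n = (d : ℝ) ^ 2 := by rw [hcdef]; field_simp
  have hcL : 10 ^ 70 * L ≤ c := by
    rw [hcdef, le_div_iff₀ hn0]; exact hc1
  have hcd : c ≤ d := by
    rw [hcdef, div_le_iff₀ hn0]; nlinarith
  set K := ⌊c / 4096⌋₊ with hK
  have hcpos : 0 < c := by linarith
  have hK1 : (K : ℝ) ≤ c / 4096 := Nat.floor_le (by positivity)
  have hK2 : c / 4096 < K + 1 := Nat.lt_floor_add_one _
  set r := ⌈20 * n * L / d⌉₊ with hr
  have hr1 : 20 * n * L / d ≤ r := Nat.le_ceil _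
  have hr2 : (r : ℝ) < 20 * n * L / d + 1 := Nat.ceil_lt_add_one (by positivity)
  have h1 := codeg_low (V := V) (d := d) (r := r) (K := K) heven
    (by
      have : (100 : ℝ) ≤ n := by linarith
      exact_mod_cast this)
    (by
      have : (128 : ℝ) ≤ d := by linarith
      exact_mod_cast this) hdn
    (by
      have e1 : 20 * n * L / d ≤ d / 100 := by
        rw [div_le_div_iff₀ hdpos (by norm_num)]
        linarith
      have : 16 * ((r : ℝ) + 1) ≤ d := by linarith
      exact_mod_cast this)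
    (by
      rw [div_le_iff₀ hdpos] at hr1
      have : (r : ℝ) * d = d * r := by ring
      linarith)
    (by
      have e1 : 4096 * (K : ℝ) * n ≤ d * d := by
        have : (K : ℝ) * n ≤ c / 4096 * n := by gcongr
        linarith
      exact_mod_cast e1)
  refine h1.trans ?_
  gcongr
  have hKh : c / 8192 - 1 ≤ ((K / 2 : ℕ) : ℝ) := by
    have e1 : K ≤ 2 * (K / 2) + 1 := by omega
    have e2 : (K : ℝ) ≤ 2 * ((K / 2 : ℕ) : ℝ) + 1 := by exact_mod_cast e1
    linarith
  have g1 : (n : ℝ) ^ 4 * (1 / 2) ^ (K / 2) ≤ 1 / n := by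
    have e1 : ((1 : ℝ) / 2) ^ (K / 2) = Real.exp (-(((K / 2 : ℕ) : ℝ) * Real.log 2)) := by
      rw [pow_eq_exp (by norm_num), one_div, Real.log_inv]
      ring_nf
    rw [e1]
    refine pow_mul_exp_le hn0 4 ?_
    have e2 := Real.log_two_gt_d9
    have e3 : (c / 8192 - 1) * 0.69 ≤ ((K / 2 : ℕ) : ℝ) * Real.log 2 := by
      have : (0.69 : ℝ) ≤ Real.log 2 := by linarith
      have h0 : 0 ≤ c / 8192 - 1 := by linarith
      gcongr
    push_cast
    linarith
  have g2 : (n : ℝ) ^ 4 * Real.exp (-(n : ℝ)) ≤ 1 / n := by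
    refine pow_mul_exp_le hn0 4 ?_
    push_cast
    linarith
  have g3 : (n : ℝ) ^ 4 * ((1 / 2 : ℝ) ^ (K / 2) + 2 * Real.exp (-(n : ℝ))) =
      (n : ℝ) ^ 4 * (1 / 2 : ℝ) ^ (K / 2) + 2 * ((n : ℝ) ^ 4 * Real.exp (-(n : ℝ))) := by ring
  have g4 : (3 : ℝ) / n = 1 / n + 2 * (1 / n) := by ring
  rw [g3, g4]
  linarith

/-- Sparse case. -/
theorem sparse_bound {V : Type} [Fintype V] {d : ℕ} (heven : Even (Fintype.card V * d))
    (h : Regime (Fintype.card V) d (Real.log (Fintype.card V)) ((d : ℝ) ^ 2 / Fintype.card V)) :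
    (num d (fun G : SimpleGraph V => ¬ Reconstructable G) : ℝ) ≤
      9 / Fintype.card V * (regG V d).card := by
  set n := Fintype.card V with hn
  set L := Real.log n with hLdef
  set c := (d : ℝ) ^ 2 / n with hcdef
  have hn0 : (0 : ℝ) < n := h.hN
  have hd0 : (0 : ℝ) < d := h.hD
  have hL1 := h.hL
  have hL0 : 0 < L := by linarith
  have hcpos := h.cpos
  have hc1 := h.c1
  have hcL := h.cL1
  have hcd := h.cD
  have hD1 := h.D1
  have hDN := h.hDN
  have hc := h.hc
  have hd0' : 0 < d := by exact_mod_cast hd0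
  have h400 : 400 * d ≤ n := by
    have : 400 * (d : ℝ) ≤ n := by linarith
    exact_mod_cast this
  have h16 : 16 * d ≤ n := by omega
  have h100 : 100 ≤ n := by
    have : (100 : ℝ) ≤ n := by linarith
    exact_mod_cast this
  have hnd : (n : ℝ) ≤ n * d := le_mul_of_one_le_right hn0.le (by linarith)
  have hcnd : c ≤ n := by linarith
  -- parameters
  set K := ⌊c / 4096⌋₊ with hK
  have hK2 : c / 4096 < K + 1 := Nat.lt_floor_add_one _
  set kk := ⌈31 * c⌉₊ with hkk
  have hkk1 : 31 * c ≤ kk := Nat.le_ceil _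
  have hkk2 : (kk : ℝ) < 31 * c + 1 := Nat.ceil_lt_add_one (by positivity)
  set k3 := ⌈c / 16384⌉₊ with hk3
  have hk31 : c / 16384 ≤ k3 := Nat.le_ceil _
  have hk32 : (k3 : ℝ) < c / 16384 + 1 := Nat.ceil_lt_add_one (by positivity)
  set k := ⌈(d : ℝ) * c / 10 ^ 13⌉₊ with hk
  have hk1 : (d : ℝ) * c / 10 ^ 13 ≤ k := Nat.le_ceil _
  have hk2 : (k : ℝ) < (d : ℝ) * c / 10 ^ 13 + 1 := Nat.ceil_lt_add_one (by positivity)
  set m := ⌈72000 * (n * L / c)⌉₊ with hm
  have hm1 : 72000 * (n * L / c) ≤ m := Nat.le_ceil _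
  have hm2 : (m : ℝ) < 72000 * (n * L / c) + 1 := Nat.ceil_lt_add_one (by positivity)
  set a := ⌈4 * 10 ^ 6 * L⌉₊ with ha
  have ha1 : 4 * 10 ^ 6 * L ≤ a := Nat.le_ceil _
  have ha2 : (a : ℝ) < 4 * 10 ^ 6 * L + 1 := Nat.ceil_lt_add_one (by positivity)
  have hm3 := h.m_bounds hm2.le
  set B : ℝ := 13 * m * n * L with hB
  have hdc : (d : ℝ) * c ≤ d * n := by gcongr
  -- the events
  have b1 := codeg_fail (V := V) heven hL1
    (by
      have := h.hc0
      rw [hcdef, le_div_iff₀ hn0] at this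
      exact this) (by omega)
  have b2 := codeg_up (V := V) (d := d) hd0' h16 kk
    (by
      have : (0 : ℝ) < kk := by linarith
      exact_mod_cast this)
    (by
      have : 16 * (kk : ℝ) ≤ n * d := by linarith
      exact_mod_cast this)
    (by
      have : 31 * c * n ≤ kk * n := by gcongr
      nlinarith only [this, hc, hn0])
  have b3 := triple_up (V := V) (d := d) hd0' h16 k3
    (by
      have : (0 : ℝ) < k3 := lt_of_lt_of_le (by positivity) hk31
      exact_mod_cast this)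
    (by
      have : 24 * (k3 : ℝ) ≤ n * d := by linarith
      exact_mod_cast this)
    (by
      have e1 : (c / 16384) * (n : ℝ) ^ 2 ≤ k3 * (n : ℝ) ^ 2 := by gcongr
      refine le_trans ?_ e1
      have e2 : (c / 16384) * (n : ℝ) ^ 2 = (d : ℝ) ^ 2 * n / 16384 := by
        have : c * (n : ℝ) ^ 2 = (c * n) * n := by ring
        rw [div_mul_eq_mul_div, this, hc]
      rw [e2, le_div_iff₀ (by norm_num)]
      have e3 : 0 ≤ (d : ℝ) ^ 2 := by positivity
      nlinarith only [mul_le_mul_of_nonneg_left hDN e3, mul_nonneg e3 hd0.le])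
  have b4 := disc_bound (V := V) (d := d) hd0' h16 h100 (by linarith)
  have b5 := map_bound (V := V) (d := d) hd0' h16 k
    (by
      have : (0 : ℝ) < k := lt_of_lt_of_le (by positivity) hk1
      exact_mod_cast this)
    (by
      have : 16 * (k : ℝ) ≤ n * d := by linarith
      exact_mod_cast this)
    (by
      have e1 : ((d : ℝ) * c / 10 ^ 13) * (n : ℝ) ^ 2 ≤ k * (n : ℝ) ^ 2 := by gcongr
      refine le_trans ?_ e1
      have e2 : ((d : ℝ) * c / 10 ^ 13) * (n : ℝ) ^ 2 = (d : ℝ) ^ 3 * n / 10 ^ 13 := by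
        have : (d : ℝ) * c * (n : ℝ) ^ 2 = (d * n) * (c * n) := by ring
        rw [div_mul_eq_mul_div, this, hc]
        ring
      rw [e2, le_div_iff₀ (by norm_num)]
      have e3 : 0 ≤ (d : ℝ) ^ 3 := by positivity
      nlinarith only [mul_le_mul_of_nonneg_left hDN e3, mul_nonneg e3 hd0.le])
    (by
      refine le_trans ?_ hk1
      have : (d : ℝ) * (10 ^ 70 * L) ≤ d * c := by gcongr
      rw [le_div_iff₀ (by norm_num)]
      nlinarith only [this, mul_nonneg hd0.le hL0.le,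
        mul_le_mul_of_nonneg_right (show (1 : ℝ) ≤ d by linarith) hL0.le])
  have b6 := cover_bound (V := V) (d := d)
    (by
      have : (4 : ℝ) ≤ d := by linarith
      exact_mod_cast this) h16
  have b7 := respect_bound (V := V) (d := d) m heven (by omega) (by omega) B (h.hB hm1)
  -- probabilities
  have p2 : (n : ℝ) ^ 2 * Real.exp (-(kk : ℝ)) ≤ 1 / n := by
    refine pow_mul_exp_le hn0 2 ?_
    push_cast
    linarith
  have p3 : (n : ℝ) ^ 3 * Real.exp (-(k3 : ℝ)) ≤ 1 / n := by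
    refine pow_mul_exp_le hn0 3 ?_
    push_cast
    linarith
  have hR0 : (0 : ℝ) ≤ ((regG V d).card : ℝ) := by positivity
  set P1 : SimpleGraph V → Prop := fun G => ∃ a b e, a ≠ b ∧ a ≠ e ∧ b ≠ e ∧
    2 * (XX G a b e).card ≤ K with hP1
  set P2 : SimpleGraph V → Prop := fun G => ∃ a b, a ≠ b ∧ kk ≤ (nb G a ∩ nb G b).card with hP2
  set P3 : SimpleGraph V → Prop := fun G => ∃ a b e, a ≠ b ∧ a ≠ e ∧ b ≠ e ∧
    k3 ≤ (nb G a ∩ nb G b ∩ nb G e).card with hP3
  set P4 : SimpleGraph V → Prop := fun G => ∃ X Y : Finset V, 400 * Y.card ≤ n ∧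
    40 * (d / n : ℝ) * X.card * Y.card + 10 * (X.card + Y.card) * L < (eXY G X Y : ℝ) with hP4
  set P5 : SimpleGraph V → Prop := fun G => ∃ (S : Finset V) (b : V → V), S.card ≤ d ∧
    Set.InjOn b S ∧ 3 * k ≤ ((pairs V).filter fun e => (∀ x ∈ e, x ∈ S) ∧ e ∈ G.edgeSet ∧
      Sym2.map b e ∈ G.edgeSet ∧ Sym2.map b e ≠ e).card with hP5
  set P6 : SimpleGraph V → Prop := fun G => ∃ (I : Finset V) (Q : Finset (Sym2 V))
    (ψ : V → V → V), I.Nonempty ∧ 32 * ((I.card : ℝ) * d + Q.card) * L + 8 ≤ n * d ∧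
    (∀ i ∈ I, ∀ e ∈ pairs V, cov G i e → Sym2.map (ψ i) e ∈ Q → e ∈ G.edgeSet) ∧
    4 * ((I.card : ℝ) * d + Q.card) * L ≤
      ((pairs V).filter fun e => ∃ i ∈ I, cov G i e ∧ Sym2.map (ψ i) e ∈ Q).card with hP6
  set P7 : SimpleGraph V → Prop := fun G => ∃ (J : Fin m → V) (ψ : V → V → V),
    (∀ k l, ∀ g ∈ pairs V, ∀ g' ∈ pairs V, cov G (J k) g → cov G (J l) g' →
      Sym2.map (ψ (J l)) g' = Sym2.map (ψ (J k)) g → (g ∈ G.edgeSet ↔ g' ∈ G.edgeSet)) ∧
    B ≤ (bad1 G J ψ).card with hP7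
  have key : num d (fun G : SimpleGraph V => ¬ Reconstructable G) ≤
      num d (fun G => P1 G ∨ (P2 G ∨ (P3 G ∨ (P4 G ∨ (P5 G ∨ (P6 G ∨ P7 G)))))) := by
    refine num_mono fun G hG hnot => ?_
    by_contra hcon
    push Not at hcon
    obtain ⟨n1, n2, n3, n4, n5, n6, n7⟩ := hcon
    refine hnot ?_
    have hlo : ∀ g ∈ pairs V, c / 8192 ≤ (cdg G g : ℝ) := by
      intro g
      induction g with
      | h x y =>
        intro hg
        rw [mem_pairs, Sym2.mk_isDiag_iff] at hg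
        rw [cdg_mk]
        -- pick a third vertex
        obtain ⟨e, he⟩ : ∃ e : V, e ∉ ({x, y} : Finset V) := by
          by_contra hcon
          push Not at hcon
          have : (univ : Finset V) ⊆ {x, y} := fun z _ => hcon z
          have h2 := card_le_card this
          rw [card_univ, ← hn] at h2
          have h3 : ({x, y} : Finset V).card ≤ 2 := card_le_two
          omega
        rw [mem_insert, mem_singleton, not_or] at he
        have h1 : ¬ 2 * (XX G x y e).card ≤ K := fun hle =>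
          n1 ⟨x, y, e, hg, fun h => he.1 h.symm, fun h => he.2 h.symm, hle⟩
        have h2 : (XX G x y e).card ≤ (nb G x ∩ nb G y).card := by
          refine card_le_card fun v hv => ?_
          rw [XX, mem_filter] at hv
          rw [mem_inter, mem_nb, mem_nb]
          exact ⟨hv.2.1, hv.2.2.1⟩
        have h3 : K + 1 ≤ 2 * (nb G x ∩ nb G y).card := by omega
        have h4 : (K : ℝ) + 1 ≤ 2 * ((nb G x ∩ nb G y).card : ℝ) := by exact_mod_cast h3
        linarith
    have hhi : ∀ g ∈ pairs V, (cdg G g : ℝ) ≤ 31 * c := by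
      intro g
      induction g with
      | h x y =>
        intro hg
        rw [mem_pairs, Sym2.mk_isDiag_iff] at hg
        rw [cdg_mk]
        have h1 : ¬ kk ≤ (nb G x ∩ nb G y).card := fun hle => n2 ⟨x, y, hg, hle⟩
        rw [not_le, hkk, Nat.lt_ceil] at h1
        exact h1.le
    have htrip : TripProp G (c / 16384) := by
      intro x y z hxy hxz hyz
      have h1 : ¬ k3 ≤ (nb G x ∩ nb G y ∩ nb G z).card := fun hle => n3 ⟨x, y, z, hxy, hxz, hyz, hle⟩
      rw [not_le, hk3, Nat.lt_ceil] at h1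
      exact h1.le
    have hD : DiscProp G d := by
      intro X Y hY
      by_contra hcon
      rw [not_le] at hcon
      exact n4 ⟨X, Y, hY, hcon⟩
    have hcov : CoverProp G d := by
      intro I Q ψ hI h1 h2
      by_contra hcon
      rw [not_lt] at hcon
      exact n6 ⟨I, Q, ψ, hI, h1, h2, hcon⟩
    have hmap : MapProp G d k := by
      intro S b hS hb
      by_contra hcon
      rw [not_lt] at hcon
      exact n5 ⟨S, b, hS, hb, hcon⟩
    have hresp : ∀ (J : Fin m → V) (ψ : V → V → V),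
        (∀ k l, ∀ g ∈ pairs V, ∀ g' ∈ pairs V, cov G (J k) g → cov G (J l) g' →
        Sym2.map (ψ (J l)) g' = Sym2.map (ψ (J k)) g → (g ∈ G.edgeSet ↔ g' ∈ G.edgeSet)) →
        ((bad1 G J ψ).card : ℝ) ≤ B := by
      intro J ψ h1
      by_contra hcon
      rw [not_le] at hcon
      exact n7 ⟨J, ψ, h1, hcon.le⟩
    have hf3 := h.f3
    rw [← h.iq_eq] at hf3
    have hf3' := h.f3'
    rw [← h.iq_eq] at hf3'
    have hf5 := h.f5
    rw [← h.iq_eq] at hf5
    refine sparse_det (k := k) (m := m) (a := a) hG (c / 8192) (31 * c) (c / 16384)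
      (d * c / 10 ^ 13) (c / (80 * 10 ^ 13 * L)) (c / (80 * 10 ^ 13 * L) * n / (160 * d)) B
      hd0' h400 (by linarith) (by linarith) hlo hhi htrip (by linarith) hD hcov hmap hresp
      ?_ ?_ (h.tau1 hm1) (h.tau2 hm3 ha1) (h.hk hk2.le)
      (5 * 10 ^ 26 * (n * d * L ^ 2 / c)) (h.hq hm1 (h.two_le_m hm1) (by linarith) (by linarith) rfl)
      (by positivity) (by positivity) h.f0 h.hts h.f1 h.f2 hf3 hf3' h.f4 hf5
      (7 * d / 10 ^ 9) (h.hrho1 hk2.le) h.f6 h.f7 (7 * d / 10 ^ 9) h.hrho2 h.f8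
    · exact_mod_cast h.two_le_m hm1
    · exact_mod_cast h.m_le hm3
  have key2 : num d (fun G => P1 G ∨ (P2 G ∨ (P3 G ∨ (P4 G ∨ (P5 G ∨ (P6 G ∨ P7 G)))))) ≤
      num d P1 + (num d P2 + (num d P3 + (num d P4 + (num d P5 + (num d P6 + num d P7))))) := by
    refine (num_or_le _ _).trans (Nat.add_le_add_left ?_ _)
    refine (num_or_le _ _).trans (Nat.add_le_add_left ?_ _)
    refine (num_or_le _ _).trans (Nat.add_le_add_left ?_ _)
    refine (num_or_le _ _).trans (Nat.add_le_add_left ?_ _)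
    refine (num_or_le _ _).trans (Nat.add_le_add_left ?_ _)
    exact num_or_le _ _
  have key3 : (num d (fun G : SimpleGraph V => ¬ Reconstructable G) : ℝ) ≤
      num d P1 + (num d P2 + (num d P3 + (num d P4 + (num d P5 + (num d P6 + num d P7))))) := by
    exact_mod_cast key.trans key2
  have q2 : (num d P2 : ℝ) ≤ 1 / n * ((regG V d).card : ℝ) := b2.trans (by gcongr)
  have q3 : (num d P3 : ℝ) ≤ 1 / n * ((regG V d).card : ℝ) := b3.trans (by gcongr)
  have e9 : 9 / (n : ℝ) * ((regG V d).card : ℝ) =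
      3 / n * ((regG V d).card : ℝ) + 6 * (1 / n * ((regG V d).card : ℝ)) := by ring
  rw [e9]
  linarith

/-- Dense case. -/
theorem dense_bound {V : Type} [Fintype V] {d : ℕ} (heven : Even (Fintype.card V * d))
    (hL : 1 ≤ Real.log (Fintype.card V))
    (hc : 10 ^ 70 * Real.log (Fintype.card V) ^ 3 * (Fintype.card V : ℝ) ≤ (d : ℝ) ^ 2)
    (hdn : 2 * d ≤ Fintype.card V)
    (hnL : 10 ^ 120 * Real.log (Fintype.card V) ≤ Fintype.card V)
    (hdense : (Fintype.card V : ℝ) ≤ 10 ^ 20 * d) :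
    (num d (fun G : SimpleGraph V => ¬ Reconstructable G) : ℝ) ≤
      9 / Fintype.card V * (regG V d).card := by
  set n := Fintype.card V with hn
  set L := Real.log n with hLdef
  set c := (d : ℝ) ^ 2 / n with hcdef
  have hn120 : (10 : ℝ) ^ 120 ≤ n := by linarith
  have hn0 : (0 : ℝ) < n := by linarith
  have hd0 : (0 : ℝ) < d := by linarith
  have hd0' : 0 < d := by exact_mod_cast hd0
  have b1 := codeg_fail (V := V) heven hL hc hdn
  have b2 := rigid (V := V) heven
    (by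
      have : (100 : ℝ) ≤ n := by linarith
      exact_mod_cast this) hdn hd0'
  have p2 : Real.exp (-(n : ℝ)) ≤ 1 / n := by
    have := pow_mul_exp_le (x := n) hn0 0 (by push_cast; linarith)
    simpa using this
  set K := ⌊c / 4096⌋₊ with hK
  have hK2 : c / 4096 < K + 1 := Nat.lt_floor_add_one _
  have hcn : n / 10 ^ 40 ≤ c := by
    rw [hcdef, div_le_div_iff₀ (by positivity) hn0]
    nlinarith
  set P1 : SimpleGraph V → Prop := fun G => ∃ a b e, a ≠ b ∧ a ≠ e ∧ b ≠ e ∧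
    2 * (XX G a b e).card ≤ K with hP1
  set P2 : SimpleGraph V → Prop := fun G => ∃ (A : Finset V) (l : V → V),
      (∀ x ∈ A, ∀ y ∈ A, x ≠ y → (G.Adj x y ↔ G.Adj (l x) (l y))) ∧
      60 * (n : ℝ) ^ 2 * L ≤ d * ((A.filter fun x => l x ≠ x).card * (A.card - 2) : ℕ) with hP2
  have hKn : 60 * (n : ℝ) ^ 2 * L ≤ d * ((K / 2) * (K / 2 - 2) : ℕ) := by
    have e1 : K ≤ 2 * (K / 2) + 1 := by omega
    have e2 : (K : ℝ) ≤ 2 * ((K / 2 : ℕ) : ℝ) + 1 := by exact_mod_cast e1
    have e3 : K / 2 ≤ (K / 2 - 2) + 2 := by omega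
    have e4 : ((K / 2 : ℕ) : ℝ) ≤ ((K / 2 - 2 : ℕ) : ℝ) + 2 := by exact_mod_cast e3
    have e5 : n / 10 ^ 44 ≤ ((K / 2 - 2 : ℕ) : ℝ) := by
      have : n / 10 ^ 40 / 8192 - 3 ≤ ((K / 2 - 2 : ℕ) : ℝ) := by linarith
      have h2 : (n : ℝ) / 10 ^ 44 ≤ n / 10 ^ 40 / 8192 - 3 := by linarith
      linarith
    have e6 : n / 10 ^ 44 ≤ ((K / 2 : ℕ) : ℝ) := by
      have : ((K / 2 - 2 : ℕ) : ℝ) ≤ ((K / 2 : ℕ) : ℝ) := by
        exact_mod_cast Nat.sub_le _ _
      linarith
    have e7 : n / 10 ^ 20 ≤ (d : ℝ) := by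
      rw [div_le_iff₀ (by positivity)]; linarith
    push_cast
    calc 60 * (n : ℝ) ^ 2 * L ≤ n / 10 ^ 20 * ((n / 10 ^ 44) * (n / 10 ^ 44)) := by
          have e8 : n / 10 ^ 20 * (((n : ℝ) / 10 ^ 44) * (n / 10 ^ 44)) = n ^ 2 * (n / 10 ^ 108) := by
            field_simp
          rw [e8]
          have e9 : 60 * L ≤ n / 10 ^ 108 := by
            rw [le_div_iff₀ (by positivity)]
            linarith
          calc 60 * (n : ℝ) ^ 2 * L = n ^ 2 * (60 * L) := by ring
            _ ≤ _ := by gcongr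
      _ ≤ _ := by gcongr
  have key : num d (fun G : SimpleGraph V => ¬ Reconstructable G) ≤ num d (fun G => P1 G ∨ P2 G) := by
    refine num_mono fun G hG hnot => ?_
    by_contra hcon
    push Not at hcon
    obtain ⟨n1, n2⟩ := hcon
    refine hnot (dense_det (K := K) (d := d) G (60 * (n : ℝ) ^ 2 * L) ?_ ?_ hKn)
    · intro a b e hab hae hbe
      by_contra hcon
      rw [not_lt] at hcon
      exact n1 ⟨a, b, e, hab, hae, hbe, hcon⟩
    · intro A l hA
      by_contra hcon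
      rw [not_lt] at hcon
      exact n2 ⟨A, l, hA, hcon⟩
  have key2 := key.trans (num_or_le _ _)
  have key3 : (num d (fun G : SimpleGraph V => ¬ Reconstructable G) : ℝ) ≤
      num d P1 + num d P2 := by exact_mod_cast key2
  have hR0 : (0 : ℝ) ≤ ((regG V d).card : ℝ) := by positivity
  have q2 : (num d P2 : ℝ) ≤ 1 / n * ((regG V d).card : ℝ) := b2.trans (by gcongr)
  have e0 : (0 : ℝ) ≤ 1 / n * ((regG V d).card : ℝ) := by positivity
  have e9 : 9 / (n : ℝ) * ((regG V d).card : ℝ) =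
      3 / n * ((regG V d).card : ℝ) + 6 * (1 / n * ((regG V d).card : ℝ)) := by ring
  rw [e9]
  linarith

/-- Both cases together. -/
theorem fail_bound {V : Type} [Fintype V] {d : ℕ} (heven : Even (Fintype.card V * d))
    (hL : 1 ≤ Real.log (Fintype.card V))
    (hc : 10 ^ 70 * Real.log (Fintype.card V) ^ 3 * (Fintype.card V : ℝ) ≤ (d : ℝ) ^ 2)
    (hdn : 2 * d ≤ Fintype.card V)
    (hnL : 10 ^ 120 * Real.log (Fintype.card V) ≤ Fintype.card V) :
    (num d (fun G : SimpleGraph V => ¬ Reconstructable G) : ℝ) ≤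
      9 / Fintype.card V * (regG V d).card := by
  rcases le_total (Fintype.card V : ℝ) (10 ^ 20 * d) with h | h
  · exact dense_bound heven hL hc hdn hnL h
  · refine sparse_bound heven ?_
    have hn0 : (0 : ℝ) < Fintype.card V := by linarith
    have hd2 : (0 : ℝ) < (d : ℝ) ^ 2 := lt_of_lt_of_le (by positivity) hc
    have hd0 : (0 : ℝ) < d := by
      rcases (Nat.cast_nonneg d : (0 : ℝ) ≤ d).lt_or_eq with h1 | h1
      · exact h1
      · rw [← h1] at hd2; norm_num at hd2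
    refine ⟨hL, hn0, hd0, ?_, ?_, h⟩
    · field_simp
    · rw [le_div_iff₀ hn0]; exact hc

end Pool.Agent.H.MP_0fd30f_pr
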