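import Pool.Agent.H.MP_0fd30f_pr.Typ

/-!
# Lower tail of codegrees
-/

open Finset

namespace Pool.Agent.H.MP_0fd30f_pr

open scoped Classical

variable {V : Type*} [Fintype V]

theorem card_triple_ge {α β γ : Type*} (S : Finset α) (T : α → Finset β) (U : α → β → Finset γ)
    (M : Finset (α × β × γ)) (hM : ∀ a ∈ S, ∀ b ∈ T a, ∀ c ∈ U a b, (a, b, c) ∈ M) (x y z : ℝ)
    (hy0 : 0 ≤ y) (hz0 : 0 ≤ z)
    (hx : x ≤ S.card) (hy : ∀ a ∈ S, y ≤ (T a).card) (hz : ∀ a ∈ S, ∀ b ∈ T a, z ≤ (U a b).card) :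
    x * y * z ≤ M.card := by
  have h1 : (S.sigma fun a => (T a).sigma (U a)).card ≤ M.card := by
    refine card_le_card_of_injOn (fun q => (q.1, q.2.1, q.2.2)) ?_ ?_
    · rintro ⟨a, b, c⟩ h
      rw [mem_coe, mem_sigma, mem_sigma] at h
      exact hM a h.1 b h.2.1 c h.2.2
    · rintro ⟨a, b, c⟩ _ ⟨a', b', c'⟩ _ h
      simp only [Prod.mk.injEq] at h
      obtain ⟨rfl, rfl, rfl⟩ := h
      rfl
  have h2 : ((S.sigma fun a => (T a).sigma (U a)).card : ℝ) =
      ∑ a ∈ S, ∑ b ∈ T a, ((U a b).card : ℝ) := by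
    rw [card_sigma]
    push_cast
    refine Finset.sum_congr rfl fun a _ => ?_
    rw [card_sigma]
    push_cast
    rfl
  calc x * y * z ≤ ∑ a ∈ S, ∑ b ∈ T a, ((U a b).card : ℝ) := by
        calc x * y * z ≤ S.card * (y * z) := by
              rw [mul_assoc]; exact mul_le_mul_of_nonneg_right hx (by positivity)
          _ = ∑ _a ∈ S, y * z := by rw [Finset.sum_const, nsmul_eq_mul]
          _ ≤ _ := by
              refine Finset.sum_le_sum fun a ha => ?_
              calc y * z ≤ (T a).card * z := mul_le_mul_of_nonneg_right (hy a ha) hz0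
                _ = ∑ _b ∈ T a, z := by rw [Finset.sum_const, nsmul_eq_mul]
                _ ≤ _ := Finset.sum_le_sum fun b hb => hz a ha b hb
    _ = _ := h2.symm
    _ ≤ M.card := by exact_mod_cast h1

theorem card_triple_le {α β γ : Type*} (S : Finset α) (T : α → Finset β) (U : α → β → Finset γ)
    (M : Finset (α × β × γ)) (hM : ∀ q ∈ M, q.1 ∈ S ∧ q.2.1 ∈ T q.1 ∧ q.2.2 ∈ U q.1 q.2.1)
    (x y z : ℝ) (hx0 : 0 ≤ x) (hy0 : 0 ≤ y) (hz0 : 0 ≤ z)
    (hx : (S.card : ℝ) ≤ x) (hy : ∀ a ∈ S, ((T a).card : ℝ) ≤ y)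
    (hz : ∀ a ∈ S, ∀ b ∈ T a, ((U a b).card : ℝ) ≤ z) :
    (M.card : ℝ) ≤ x * y * z := by
  have h1 : M.card ≤ (S.sigma fun a => (T a).sigma (U a)).card := by
    refine card_le_card_of_injOn (fun q => ⟨q.1, q.2.1, q.2.2⟩) ?_ ?_
    · rintro ⟨a, b, c⟩ h
      rw [mem_coe, mem_sigma, mem_sigma]
      exact hM _ h
    · rintro ⟨a, b, c⟩ _ ⟨a', b', c'⟩ _ h
      simp only [Sigma.mk.injEq, heq_eq_eq] at h
      obtain ⟨rfl, rfl, rfl⟩ := h
      rfl
  have h2 : ((S.sigma fun a => (T a).sigma (U a)).card : ℝ) =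
      ∑ a ∈ S, ∑ b ∈ T a, ((U a b).card : ℝ) := by
    rw [card_sigma]
    push_cast
    refine Finset.sum_congr rfl fun a _ => ?_
    rw [card_sigma]
    push_cast
    rfl
  calc (M.card : ℝ) ≤ _ := by exact_mod_cast h1
    _ = ∑ a ∈ S, ∑ b ∈ T a, ((U a b).card : ℝ) := h2
    _ ≤ ∑ _a ∈ S, y * z := by
        refine Finset.sum_le_sum fun a ha => ?_
        calc _ ≤ ∑ _b ∈ T a, z := Finset.sum_le_sum fun b hb => hz a ha b hb
          _ = (T a).card * z := by rw [Finset.sum_const, nsmul_eq_mul]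
          _ ≤ _ := mul_le_mul_of_nonneg_right (hy a ha) hz0
    _ = S.card * (y * z) := by rw [Finset.sum_const, nsmul_eq_mul]
    _ ≤ x * (y * z) := mul_le_mul_of_nonneg_right hx (by positivity)
    _ = _ := by ring

/-- Double counting of switchings. -/
theorem switch_count {α β : Type*} (A B : Finset α) (Mv Rv : α → Finset β) (φ : α → β → α)
    (x y : ℝ) (hA : ∀ G ∈ A, x ≤ (Mv G).card)
    (hφ : ∀ G ∈ A, ∀ m ∈ Mv G, φ G m ∈ B ∧ m ∈ Rv (φ G m))
    (hB : ∀ G ∈ B, ((Rv G).card : ℝ) ≤ y)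
    (hinj : ∀ G ∈ A, ∀ m ∈ Mv G, ∀ G' ∈ A, m ∈ Mv G' → φ G m = φ G' m → G = G') :
    A.card * x ≤ B.card * y := by
  have h1 : (A.sigma Mv).card ≤ (B.sigma Rv).card := by
    refine card_le_card_of_injOn (fun q => ⟨φ q.1 q.2, q.2⟩) ?_ ?_
    · rintro ⟨G, m⟩ h
      rw [mem_coe, mem_sigma] at h ⊢
      exact hφ G h.1 m h.2
    · rintro ⟨G, m⟩ h ⟨G', m'⟩ h' heq
      rw [mem_coe, mem_sigma] at h h'
      simp only [Sigma.mk.injEq, heq_eq_eq] at heq
      obtain ⟨heq, rfl⟩ := heq
      rw [hinj G h.1 m h.2 G' h'.1 h'.2 heq]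
  have h2 : ((A.sigma Mv).card : ℝ) = ∑ G ∈ A, ((Mv G).card : ℝ) := by
    rw [card_sigma]; push_cast; rfl
  have h3 : ((B.sigma Rv).card : ℝ) = ∑ G ∈ B, ((Rv G).card : ℝ) := by
    rw [card_sigma]; push_cast; rfl
  calc A.card * x = ∑ _G ∈ A, x := by rw [Finset.sum_const, nsmul_eq_mul]
    _ ≤ ∑ G ∈ A, ((Mv G).card : ℝ) := Finset.sum_le_sum hA
    _ = _ := h2.symm
    _ ≤ ((B.sigma Rv).card : ℝ) := by exact_mod_cast h1
    _ = _ := h3
    _ ≤ ∑ _G ∈ B, y := Finset.sum_le_sum hB
    _ = _ := by rw [Finset.sum_const, nsmul_eq_mul]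

/-- Common neighbours of `a` and `b` outside the neighbourhood of `e`. -/
noncomputable def XX (G : SimpleGraph V) (a b e : V) : Finset V :=
  univ.filter fun v => G.Adj a v ∧ G.Adj b v ∧ ¬ G.Adj e v ∧ v ≠ e

/-- Neighbours of `a` which are not neighbours of `b` or `e`. -/
noncomputable def TA (G : SimpleGraph V) (a b e : V) : Finset V :=
  univ.filter fun v => G.Adj a v ∧ ¬ G.Adj b v ∧ ¬ G.Adj e v ∧ v ≠ b ∧ v ≠ e

/-- Common neighbours of `a`, `b` and `e`. -/
noncomputable def TC (G : SimpleGraph V) (a b e : V) : Finset V :=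
  univ.filter fun v => G.Adj a v ∧ G.Adj b v ∧ G.Adj e v

theorem mem_XX {G : SimpleGraph V} {a b e v : V} :
    v ∈ XX G a b e ↔ G.Adj a v ∧ G.Adj b v ∧ ¬ G.Adj e v ∧ v ≠ e := by simp [XX]

theorem mem_TA {G : SimpleGraph V} {a b e v : V} :
    v ∈ TA G a b e ↔ G.Adj a v ∧ ¬ G.Adj b v ∧ ¬ G.Adj e v ∧ v ≠ b ∧ v ≠ e := by simp [TA]

theorem mem_TC {G : SimpleGraph V} {a b e v : V} :
    v ∈ TC G a b e ↔ G.Adj a v ∧ G.Adj b v ∧ G.Adj e v := by simp [TC]

theorem XX_comm (G : SimpleGraph V) (a b e : V) : XX G a b e = XX G b a e := by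
  ext v; rw [mem_XX, mem_XX]; tauto

/-- If few vertices have pattern `{a,b}` then one of the neighbouring patterns is common. -/
theorem pattern {d : ℕ} (hd : 16 ≤ d) {G : SimpleGraph V} (hG : G ∈ regG V d) {a b e : V}
    (hX : 8 * (XX G a b e).card < d) :
    d ≤ 8 * (TA G a b e).card ∨ d ≤ 8 * (TA G b a e).card ∨ d ≤ 8 * (TC G a b e).card := by
  by_contra hcon
  push Not at hcon
  obtain ⟨h1, h2, h3⟩ := hcon
  set Ae := univ.filter fun v => G.Adj a v ∧ G.Adj e v ∧ ¬ G.Adj b v with hAe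
  set Be := univ.filter fun v => G.Adj b v ∧ G.Adj e v ∧ ¬ G.Adj a v with hBe
  have ha : nb G a ⊆ (TA G a b e ∪ XX G a b e) ∪ ((TC G a b e ∪ Ae) ∪ {b, e}) := by
    intro v hv
    rw [mem_nb] at hv
    simp only [mem_union, mem_TA, mem_XX, mem_TC, hAe, mem_filter, mem_univ, true_and, mem_insert,
      mem_singleton]
    tauto
  have hb : nb G b ⊆ (TA G b a e ∪ XX G a b e) ∪ ((TC G a b e ∪ Be) ∪ {a, e}) := by
    intro v hv
    rw [mem_nb] at hv
    simp only [mem_union, mem_TA, mem_XX, mem_TC, hBe, mem_filter, mem_univ, true_and, mem_insert,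
      mem_singleton]
    tauto
  have he : Ae ∪ Be ⊆ nb G e := by
    intro v hv
    rw [mem_nb]
    simp only [mem_union, hAe, hBe, mem_filter, mem_univ, true_and] at hv
    tauto
  have hdisj : Disjoint Ae Be := by
    rw [disjoint_left]
    intro v hv hv'
    simp only [hAe, hBe, mem_filter, mem_univ, true_and] at hv hv'
    exact hv'.2.2 hv.1
  have ca := card_le_card ha
  have cb := card_le_card hb
  have ce := card_le_card he
  rw [card_union_of_disjoint hdisj, card_nb hG] at ce
  rw [card_nb hG] at ca cb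
  have u1 := card_union_le (TA G a b e ∪ XX G a b e) ((TC G a b e ∪ Ae) ∪ {b, e})
  have u2 := card_union_le (TA G a b e) (XX G a b e)
  have u3 := card_union_le (TC G a b e ∪ Ae) {b, e}
  have u4 := card_union_le (TC G a b e) Ae
  have u5 : ({b, e} : Finset V).card ≤ 2 := card_le_two
  have v1 := card_union_le (TA G b a e ∪ XX G a b e) ((TC G a b e ∪ Be) ∪ {a, e})
  have v2 := card_union_le (TA G b a e) (XX G a b e)
  have v3 := card_union_le (TC G a b e ∪ Be) {a, e}
  have v4 := card_union_le (TC G a b e) Be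
  have v5 : ({a, e} : Finset V).card ≤ 2 := card_le_two
  omega

theorem card_nb_sdiff {d : ℕ} {G : SimpleGraph V} (hG : G ∈ regG V d) {u y : V}
    (h : ¬ 15 * d < 16 * (nb G u ∩ nb G y).card) (hd : 128 ≤ d) (B : Finset V) (hB : B.card ≤ 4) :
    (d : ℝ) / 32 ≤ (((nb G u \ nb G y) \ B).card : ℝ) := by
  have h1 : (nb G u).card = (nb G u ∩ nb G y).card + (nb G u \ nb G y).card :=
    (card_inter_add_card_sdiff _ _).symm
  rw [card_nb hG] at h1
  have h2 : (nb G u \ nb G y).card ≤ ((nb G u \ nb G y) \ B).card + B.card := by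
    exact card_le_card_sdiff_add_card
  have h3 : d ≤ 32 * ((nb G u \ nb G y) \ B).card := by omega
  rw [div_le_iff₀ (by norm_num)]
  exact_mod_cast (by omega : d ≤ ((nb G u \ nb G y) \ B).card * 32)

/-- Switching of the first type. -/
theorem step1 {d r k : ℕ} (hd : 128 ≤ d) (hr : 16 * (r + 1) ≤ d) (hk : 8 * k < d) {a b e : V}
    (hab : a ≠ b) (hbe : b ≠ e) :
    (num d (fun G : SimpleGraph V => Typ d r G ∧ (XX G a b e).card = k ∧
      d ≤ 8 * (TA G a b e).card) : ℝ) * ((d : ℝ) / 8 * (d / 2) * (d / 32)) ≤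
    (num d (fun G : SimpleGraph V => (XX G a b e).card = k + 1) : ℝ) *
      ((k + 1) * Fintype.card V * d) := by
  rw [num_eq, num_eq]
  refine switch_count _ _
    (fun G => univ.filter fun m : V × V × V => m.1 ∈ TA G a b e ∧
      (G.Adj b m.2.1 ∧ m.2.1 ≠ a ∧ m.2.1 ≠ e ∧ m.2.1 ∉ XX G a b e) ∧
      (G.Adj m.1 m.2.2 ∧ ¬ G.Adj m.2.1 m.2.2 ∧ m.2.2 ≠ a ∧ m.2.2 ≠ b ∧ m.2.2 ≠ e ∧
        m.2.2 ≠ m.2.1))
    (fun G => univ.filter fun m : V × V × V => m.1 ∈ XX G a b e ∧ G.Adj m.2.1 m.2.2)
    (fun G m => sw G b m.2.1 m.1 m.2.2) _ _ ?_ ?_ ?_ ?_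
  · -- many moves
    intro G hG
    simp only [mem_filter] at hG
    obtain ⟨hreg, htyp, hXk, hTA⟩ := hG
    refine card_triple_ge (TA G a b e)
      (fun u => ((nb G b \ XX G a b e) \ {a, e}).filter
        fun y => ¬ 15 * d < 16 * (nb G u ∩ nb G y).card)
      (fun u y => (nb G u \ nb G y) \ {a, b, e, y}) _ ?_ _ _ _ (by positivity) (by positivity)
      ?_ ?_ ?_
    · intro u hu y hy z hz
      simp only [mem_filter, mem_sdiff, mem_nb, mem_insert, mem_singleton, not_or, mem_univ,
        true_and] at hy hz ⊢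
      tauto
    · rw [div_le_iff₀ (by norm_num)]
      exact_mod_cast (by omega : d ≤ (TA G a b e).card * 8)
    · intro u _
      have h1 : ((nb G b \ XX G a b e) \ {a, e}) ⊆
          (((nb G b \ XX G a b e) \ {a, e}).filter
            fun y => ¬ 15 * d < 16 * (nb G u ∩ nb G y).card) ∪
          (univ.filter fun y => 15 * d < 16 * (nb G u ∩ nb G y).card) := by
        intro y hy
        rw [mem_union, mem_filter, mem_filter]
        by_cases c : 15 * d < 16 * (nb G u ∩ nb G y).card
        · right; exact ⟨mem_univ _, c⟩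
        · left; exact ⟨hy, c⟩
      have h2 := (card_le_card h1).trans (card_union_le _ _)
      have h3 := htyp u
      have h4 : (nb G b).card ≤ ((nb G b \ XX G a b e) \ {a, e}).card +
          ((XX G a b e).card + 2) := by
        have e1 : (nb G b).card ≤ (nb G b \ XX G a b e).card + (XX G a b e).card :=
          card_le_card_sdiff_add_card
        have e2 : (nb G b \ XX G a b e).card ≤ ((nb G b \ XX G a b e) \ {a, e}).card +
          ({a, e} : Finset V).card := card_le_card_sdiff_add_card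
        have e3 : ({a, e} : Finset V).card ≤ 2 := card_le_two
        omega
      rw [card_nb hreg, hXk] at h4
      rw [div_le_iff₀ (by norm_num)]
      have h5 : d ≤ (((nb G b \ XX G a b e) \ {a, e}).filter
            fun y => ¬ 15 * d < 16 * (nb G u ∩ nb G y).card).card * 2 := by omega
      exact_mod_cast h5
    · intro u _ y hy
      rw [mem_filter] at hy
      exact card_nb_sdiff hreg hy.2 hd _ card_le_four
  · -- moves lead to the next level
    intro G hG m hm
    obtain ⟨u, y, z⟩ := m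
    simp only [mem_filter, mem_univ, true_and, mem_TA, mem_XX] at hG hm
    obtain ⟨hreg, htyp, hXk, hTA⟩ := hG
    obtain ⟨⟨hau, hbu, heu, hub, hue⟩, ⟨hby, hya, hye, hyX⟩, ⟨huz, hyz, hza, hzb, hze, hzy⟩⟩ := hm
    have hval : Valid G b y u z := ⟨hby, huz, hub, hzy, hbu, hyz⟩
    have hua : u ≠ a := hau.ne.symm
    have hyb : y ≠ b := hby.ne.symm
    have hyu : y ≠ u := by rintro rfl; exact hbu hby
    have hA : ∀ v, (sw G b y u z).Adj a v ↔ G.Adj a v := by
      intro v
      rw [sw_adj]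
      simp only [Sym2.eq_iff, ne_eq]
      constructor
      · rintro (⟨h, -, -⟩ | ⟨h, -⟩)
        · exact h
        · exfalso
          rcases h with (h | h) | (h | h)
          · exact hab h.1
          · exact hua h.1.symm
          · exact hya h.1.symm
          · exact hza h.1.symm
      · intro h
        left
        refine ⟨h, ?_, ?_⟩
        · rintro (h | h)
          · exact hab h.1
          · exact hya h.1.symm
        · rintro (h | h)
          · exact hua h.1.symm
          · exact hza h.1.symm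
    have hE : ∀ v, (sw G b y u z).Adj e v ↔ G.Adj e v := by
      intro v
      rw [sw_adj]
      simp only [Sym2.eq_iff, ne_eq]
      constructor
      · rintro (⟨h, -, -⟩ | ⟨h, -⟩)
        · exact h
        · exfalso
          rcases h with (h | h) | (h | h)
          · exact hbe h.1.symm
          · exact hue h.1.symm
          · exact hye h.1.symm
          · exact hze h.1.symm
      · intro h
        left
        refine ⟨h, ?_, ?_⟩
        · rintro (h | h)
          · exact hbe h.1.symm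
          · exact hye h.1.symm
        · rintro (h | h)
          · exact hue h.1.symm
          · exact hze h.1.symm
    have hB : ∀ v, (sw G b y u z).Adj b v ↔ (G.Adj b v ∧ v ≠ y) ∨ v = u := by
      intro v
      rw [sw_adj]
      simp only [Sym2.eq_iff, ne_eq]
      constructor
      · rintro (⟨h, h1, -⟩ | ⟨h, -⟩)
        · left; exact ⟨h, fun hv => h1 (Or.inl ⟨trivial, hv⟩)⟩
        · rcases h with (h | h) | (h | h)
          · right; exact h.2
          · exact absurd h.1.symm hub
          · exact absurd h.1.symm hyb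
          · exact absurd h.1.symm hzb
      · rintro (⟨h, h1⟩ | h)
        · left
          refine ⟨h, ?_, ?_⟩
          · rintro (h2 | h2)
            · exact h1 h2.2
            · exact hyb h2.1.symm
          · rintro (h2 | h2)
            · exact hub h2.1.symm
            · exact hzb h2.1.symm
        · right
          subst h
          exact ⟨Or.inl (Or.inl ⟨trivial, rfl⟩), hub.symm⟩
    have hXX : XX (sw G b y u z) a b e = insert u (XX G a b e) := by
      ext v
      rw [mem_XX, hA, hB, hE, mem_insert, mem_XX]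
      constructor
      · rintro ⟨h1, h2, h3, h4⟩
        rcases h2 with h2 | h2
        · right; exact ⟨h1, h2.1, h3, h4⟩
        · left; exact h2
      · rintro (h1 | ⟨h1, h2, h3, h4⟩)
        · subst h1; exact ⟨hau, Or.inr rfl, heu, hue⟩
        · refine ⟨h1, Or.inl ⟨h2, ?_⟩, h3, h4⟩
          rintro rfl
          exact hyX ⟨h1, h2, h3, h4⟩
    simp only [mem_filter, mem_univ, true_and]
    refine ⟨⟨?_, ?_⟩, ?_, ?_⟩
    · rw [mem_regG]
      intro w
      rw [sw_regular hval, mem_regG.1 hreg w]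
    · rw [hXX, card_insert_of_notMem, hXk]
      rw [mem_XX]; exact fun h => hbu h.2.1
    · rw [hXX]; exact mem_insert_self _ _
    · rw [sw_adj]
      right; exact ⟨Or.inr rfl, hzy.symm⟩
  · -- few reverse moves
    intro G hG
    simp only [mem_filter] at hG
    refine card_triple_le (XX G a b e) (fun _ => univ) (fun _ y => nb G y) _ ?_ _ _ _
      (by positivity) (by positivity) (by positivity) ?_ ?_ ?_
    · intro q hq
      simp only [mem_filter, mem_univ, true_and] at hq
      exact ⟨hq.1, mem_univ _, mem_nb.2 hq.2⟩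
    · rw [hG.2]; push_cast; exact le_rfl
    · intro _ _; simp
    · intro _ _ y _
      rw [card_nb hG.1]
  · intro G hG m hm G' hG' hm' heq
    obtain ⟨u, y, z⟩ := m
    simp only [mem_filter, mem_univ, true_and, mem_TA] at hm hm'
    have hval : Valid G b y u z := ⟨hm.2.1.1, hm.2.2.1, hm.1.2.2.2.1, hm.2.2.2.2.2.2.2, hm.1.2.1,
      hm.2.2.2.1⟩
    have hval' : Valid G' b y u z := ⟨hm'.2.1.1, hm'.2.2.1, hm'.1.2.2.2.1, hm'.2.2.2.2.2.2.2,
      hm'.1.2.1, hm'.2.2.2.1⟩
    have h1 := sw_sw hval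
    simp only at heq
    rw [heq, sw_sw hval'] at h1
    exact h1.symm

/-- Switching of the third type. -/
theorem step3 {d r k : ℕ} (hd : 128 ≤ d) (hdn : 2 * d ≤ Fintype.card V) (hr : 16 * (r + 1) ≤ d)
    (hk : 8 * k < d) {a b e : V} (hae : a ≠ e) (hbe : b ≠ e) :
    (num d (fun G : SimpleGraph V => Typ d r G ∧ (XX G a b e).card = k ∧
      d ≤ 8 * (TC G a b e).card) : ℝ) * ((d : ℝ) / 8 * (Fintype.card V / 4) * (d / 32)) ≤
    (num d (fun G : SimpleGraph V => (XX G a b e).card = k + 1) : ℝ) *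
      ((k + 1) * d * d) := by
  rw [num_eq, num_eq]
  refine switch_count _ _
    (fun G => univ.filter fun m : V × V × V => m.1 ∈ TC G a b e ∧
      (¬ G.Adj e m.2.1 ∧ m.2.1 ≠ a ∧ m.2.1 ≠ b ∧ m.2.1 ≠ e ∧ m.2.1 ∉ XX G a b e) ∧
      (G.Adj m.2.1 m.2.2 ∧ ¬ G.Adj m.1 m.2.2 ∧ m.2.2 ≠ a ∧ m.2.2 ≠ b ∧ m.2.2 ≠ e ∧
        m.2.2 ≠ m.1))
    (fun G => univ.filter fun m : V × V × V => m.1 ∈ XX G a b e ∧ G.Adj e m.2.1 ∧
      G.Adj m.1 m.2.2)
    (fun G m => sw G e m.1 m.2.1 m.2.2) _ _ ?_ ?_ ?_ ?_
  · -- many moves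
    intro G hG
    simp only [mem_filter] at hG
    obtain ⟨hreg, htyp, hXk, hTC⟩ := hG
    refine card_triple_ge (TC G a b e)
      (fun u => (univ \ (nb G e ∪ (XX G a b e ∪ {a, b, e}))).filter
        fun y => ¬ 15 * d < 16 * (nb G u ∩ nb G y).card)
      (fun u y => (nb G y \ nb G u) \ {a, b, e, u}) _ ?_ _ _ _ (by positivity) (by positivity)
      ?_ ?_ ?_
    · intro u hu y hy z hz
      simp only [mem_filter, mem_sdiff, mem_nb, mem_insert, mem_singleton, not_or, mem_univ,
        true_and, mem_union] at hy hz ⊢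
      tauto
    · rw [div_le_iff₀ (by norm_num)]
      exact_mod_cast (by omega : d ≤ (TC G a b e).card * 8)
    · intro u _
      have h1 : (univ : Finset V) ⊆
          ((univ \ (nb G e ∪ (XX G a b e ∪ {a, b, e}))).filter
            fun y => ¬ 15 * d < 16 * (nb G u ∩ nb G y).card) ∪
          ((univ.filter fun y => 15 * d < 16 * (nb G u ∩ nb G y).card) ∪
          (nb G e ∪ (XX G a b e ∪ {a, b, e}))) := by
        intro y _
        rw [mem_union, mem_filter, mem_union, mem_filter, mem_sdiff]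
        by_cases c : 15 * d < 16 * (nb G u ∩ nb G y).card
        · right; left; exact ⟨mem_univ _, c⟩
        · by_cases c' : y ∈ nb G e ∪ (XX G a b e ∪ {a, b, e})
          · right; right; exact c'
          · left; exact ⟨⟨mem_univ _, c'⟩, c⟩
      have h2 := (card_le_card h1).trans (card_union_le _ _)
      have h2' := card_union_le (univ.filter fun y => 15 * d < 16 * (nb G u ∩ nb G y).card)
        (nb G e ∪ (XX G a b e ∪ {a, b, e}))
      have h2'' := card_union_le (nb G e) (XX G a b e ∪ {a, b, e})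
      have h2''' := card_union_le (XX G a b e) {a, b, e}
      have h24 : ({a, b, e} : Finset V).card ≤ 3 := card_le_three
      have h3 := htyp u
      rw [card_nb hreg, hXk] at *
      rw [card_univ] at h2
      rw [div_le_iff₀ (by norm_num)]
      have h5 : Fintype.card V ≤ ((univ \ (nb G e ∪ (XX G a b e ∪ {a, b, e}))).filter
            fun y => ¬ 15 * d < 16 * (nb G u ∩ nb G y).card).card * 4 := by omega
      exact_mod_cast h5
    · intro u _ y hy
      rw [mem_filter] at hy
      refine card_nb_sdiff hreg ?_ hd _ card_le_four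
      rw [inter_comm]; exact hy.2
  · -- moves lead to the next level
    intro G hG m hm
    obtain ⟨u, y, z⟩ := m
    simp only [mem_filter, mem_univ, true_and, mem_TC, mem_XX] at hG hm
    obtain ⟨hreg, htyp, hXk, hTC⟩ := hG
    obtain ⟨⟨hau, hbu, heu⟩, ⟨hey, hya, hyb, hye, hyX⟩, ⟨hyz, huz, hza, hzb, hze, hzu⟩⟩ := hm
    have hval : Valid G e u y z := ⟨heu, hyz, hye, hzu, hey, huz⟩
    have hua : u ≠ a := hau.ne.symm
    have hub : u ≠ b := hbu.ne.symm
    have hue : u ≠ e := heu.ne.symm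
    have hyu : y ≠ u := by rintro rfl; exact hey heu
    have hO : ∀ c, c ≠ e → c ≠ u → c ≠ y → c ≠ z → ∀ v, (sw G e u y z).Adj c v ↔ G.Adj c v := by
      intro c hce hcu hcy hcz v
      rw [sw_adj]
      simp only [Sym2.eq_iff, ne_eq]
      constructor
      · rintro (⟨h, -, -⟩ | ⟨h, -⟩)
        · exact h
        · exfalso
          rcases h with (h | h) | (h | h)
          · exact hce h.1
          · exact hcy h.1
          · exact hcu h.1
          · exact hcz h.1
      · intro h
        left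
        refine ⟨h, ?_, ?_⟩
        · rintro (h | h)
          · exact hce h.1
          · exact hcu h.1
        · rintro (h | h)
          · exact hcy h.1
          · exact hcz h.1
    have hA := hO a hae hua.symm hya.symm hza.symm
    have hB := hO b hbe hub.symm hyb.symm hzb.symm
    have hE : ∀ v, (sw G e u y z).Adj e v ↔ (G.Adj e v ∧ v ≠ u) ∨ v = y := by
      intro v
      rw [sw_adj]
      simp only [Sym2.eq_iff, ne_eq]
      constructor
      · rintro (⟨h, h1, -⟩ | ⟨h, -⟩)
        · left; exact ⟨h, fun hv => h1 (Or.inl ⟨trivial, hv⟩)⟩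
        · rcases h with (h | h) | (h | h)
          · right; exact h.2
          · exact absurd h.1.symm hye
          · exact absurd h.1.symm hue
          · exact absurd h.1.symm hze
      · rintro (⟨h, h1⟩ | h)
        · left
          refine ⟨h, ?_, ?_⟩
          · rintro (h2 | h2)
            · exact h1 h2.2
            · exact hue h2.1.symm
          · rintro (h2 | h2)
            · exact hye h2.1.symm
            · exact hze h2.1.symm
        · right
          subst h
          exact ⟨Or.inl (Or.inl ⟨trivial, rfl⟩), hye.symm⟩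
    have hXX : XX (sw G e u y z) a b e = insert u (XX G a b e) := by
      ext v
      rw [mem_XX, hA, hB, hE, mem_insert, mem_XX]
      constructor
      · rintro ⟨h1, h2, h3, h4⟩
        by_cases hv : v = u
        · left; exact hv
        · right; exact ⟨h1, h2, fun h5 => h3 (Or.inl ⟨h5, hv⟩), h4⟩
      · rintro (h1 | ⟨h1, h2, h3, h4⟩)
        · subst h1
          refine ⟨hau, hbu, ?_, hue⟩
          rintro (h5 | h5)
          · exact h5.2 rfl
          · exact hyu h5.symm
        · refine ⟨h1, h2, ?_, h4⟩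
          rintro (h5 | h5)
          · exact h3 h5.1
          · subst h5; exact hyX ⟨h1, h2, h3, h4⟩
    simp only [mem_filter, mem_univ, true_and]
    refine ⟨⟨?_, ?_⟩, ?_, ?_, ?_⟩
    · rw [mem_regG]
      intro w
      rw [sw_regular hval, mem_regG.1 hreg w]
    · rw [hXX, card_insert_of_notMem, hXk]
      rw [mem_XX]; exact fun h => h.2.2.1 heu
    · rw [hXX]; exact mem_insert_self _ _
    · rw [sw_adj]
      right; exact ⟨Or.inl rfl, hye.symm⟩
    · rw [sw_adj]
      right; exact ⟨Or.inr rfl, hzu.symm⟩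
  · -- few reverse moves
    intro G hG
    simp only [mem_filter] at hG
    refine card_triple_le (XX G a b e) (fun _ => nb G e) (fun u _ => nb G u) _ ?_ _ _ _
      (by positivity) (by positivity) (by positivity) ?_ ?_ ?_
    · intro q hq
      simp only [mem_filter, mem_univ, true_and] at hq
      exact ⟨hq.1, mem_nb.2 hq.2.1, mem_nb.2 hq.2.2⟩
    · rw [hG.2]; push_cast; exact le_rfl
    · intro _ _; rw [card_nb hG.1]
    · intro _ _ y _
      rw [card_nb hG.1]
  · intro G hG m hm G' hG' hm' heq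
    obtain ⟨u, y, z⟩ := m
    simp only [mem_filter, mem_univ, true_and, mem_TC] at hm hm'
    have hval : Valid G e u y z := ⟨hm.1.2.2, hm.2.2.1, hm.2.1.2.2.2.1, hm.2.2.2.2.2.2.2, hm.2.1.1,
      hm.2.2.2.1⟩
    have hval' : Valid G' e u y z := ⟨hm'.1.2.2, hm'.2.2.1, hm'.2.1.2.2.2.1, hm'.2.2.2.2.2.2.2,
      hm'.2.1.1, hm'.2.2.2.1⟩
    have h1 := sw_sw hval
    simp only at heq
    rw [heq, sw_sw hval'] at h1
    exact h1.symm

end Pool.Agent.H.MP_0fd30f_pr
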