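import Mathlib

/-!
# Reconstruction of graphs from their 1-neighbourhoods: definitions
-/

namespace Pool.Agent.H.MP_0fd30f_pr

/-- The vertex `v` together with all its neighbours in `G`. -/
def closedNbhd {V : Type*} (G : SimpleGraph V) (v : V) : Set V := {w | w = v ∨ G.Adj v w}

/-- The 1-neighbourhood of `v` in `G` (the subgraph of `G` induced on `v` and all its neighbours,
rooted at `v`) is isomorphic to the 1-neighbourhood of `w` in `H`, by a root-preserving
isomorphism. -/
def SameNbhd {V W : Type*} (G : SimpleGraph V) (v : V) (H : SimpleGraph W) (w : W) : Prop :=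
  ∃ e : G.induce (closedNbhd G v) ≃g H.induce (closedNbhd H w), e ⟨v, Or.inl rfl⟩ = ⟨w, Or.inl rfl⟩

/-- `G` is reconstructable from its 1-neighbourhoods: every graph `H` with the same collection
(multiset) of rooted unlabelled 1-neighbourhoods is isomorphic to `G`. -/
def Reconstructable {V : Type} (G : SimpleGraph V) : Prop :=
  ∀ (W : Type) (H : SimpleGraph W),
    (∃ φ : V ≃ W, ∀ v, SameNbhd G v H (φ v)) → Nonempty (G ≃g H)

/-- The set of all `d`-regular graphs with vertex set `Fin n`. -/
def regularGraphs (n d : ℕ) : Set (SimpleGraph (Fin n)) :=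
  {G | ∀ v, (G.neighborSet v).ncard = d}

/-- The probability that a uniformly random `d`-regular graph on `n` labelled vertices is
reconstructable from its 1-neighbourhoods. -/
noncomputable def probReconstructable (n d : ℕ) : ℝ :=
  ({G ∈ regularGraphs n d | Reconstructable G}.ncard : ℝ) / ((regularGraphs n d).ncard : ℝ)

end Pool.Agent.H.MP_0fd30f_pr
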