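import Pool.Agent.H.MP_0fd30f_pr.Assemble

/-!
# Random regular graphs are reconstructable from their 1-neighbourhoods
-/

open Finset Filter Topology

namespace Pool.Agent.H.MP_0fd30f_pr

open scoped Classical

theorem regularGraphs_eq (n d : ℕ) : regularGraphs n d = (regG (Fin n) d : Set _) := by
  ext G
  rw [Finset.mem_coe, mem_regG]
  rfl

theorem recon_eq (n d : ℕ) : {G ∈ regularGraphs n d | Reconstructable G}
    = (((regG (Fin n) d).filter fun G => Reconstructable G : Finset _) : Set _) := by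
  rw [regularGraphs_eq]
  ext G
  simp

theorem regG_nonempty' {n d : ℕ} (hdn : 2 * d ≤ n) (hn : 2 ≤ n) (he : Even (n * d)) :
    0 < (regG (Fin n) d).card := by
  have h1 := choose_le_card_regG (V := Fin n) d (by simpa using he)
  rw [Fintype.card_fin] at h1
  have h2 : 0 < (n.choose 2).choose (n * d / 2) := by
    apply Nat.choose_pos
    rw [Nat.choose_two_right]
    refine Nat.div_le_div_right (Nat.mul_le_mul_left _ ?_)
    omega
  rcases Nat.eq_zero_or_pos (regG (Fin n) d).card with h | h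
  · rw [h] at h1; omega
  · exact h

theorem prob_ge {n d : ℕ} (heven : Even (n * d)) (hL : 1 ≤ Real.log n)
    (hc : 10 ^ 70 * Real.log n ^ 3 * (n : ℝ) ≤ (d : ℝ) ^ 2)
    (hdn : 2 * d ≤ n) (hnL : 10 ^ 120 * Real.log n ≤ n) :
    1 - 9 / (n : ℝ) ≤ probReconstructable n d := by
  have hn0 : (0 : ℝ) < n := by nlinarith
  have hn2 : 2 ≤ n := by
    have : (2 : ℝ) ≤ n := by nlinarith
    exact_mod_cast this
  have hne := regG_nonempty' hdn hn2 heven
  have h1 := fail_bound (V := Fin n) (d := d) (by simpa using heven) (by simpa using hL)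
    (by simpa using hc) (by simpa using hdn) (by simpa using hnL)
  rw [Fintype.card_fin] at h1
  set N := (regG (Fin n) d).card with hN
  set R := ((regG (Fin n) d).filter fun G => Reconstructable G) with hR
  have hsplit : R.card + num d (fun G : SimpleGraph (Fin n) => ¬ Reconstructable G) = N := by
    rw [hR, hN, num_eq]
    exact Finset.card_filter_add_card_filter_not _
  have hprob : probReconstructable n d = (R.card : ℝ) / N := by
    rw [probReconstructable, recon_eq, regularGraphs_eq, Set.ncard_coe_finset,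
      Set.ncard_coe_finset]
  rw [hprob]
  have hNr : (0 : ℝ) < N := by exact_mod_cast hne
  have hsplit' : (R.card : ℝ) + num d (fun G : SimpleGraph (Fin n) => ¬ Reconstructable G) = N := by
    exact_mod_cast hsplit
  rw [le_div_iff₀ hNr]
  linarith

theorem prob_le_one (n d : ℕ) : probReconstructable n d ≤ 1 := by
  rw [probReconstructable]
  refine div_le_one_of_le₀ ?_ (by positivity)
  have : {G ∈ regularGraphs n d | Reconstructable G}.ncard ≤ (regularGraphs n d).ncard :=
    Set.ncard_le_ncard (fun G hG => hG.1) (Set.toFinite _)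
  exact_mod_cast this

theorem eventually_log (ε : ℝ) (hε : 0 < ε) :
    ∀ᶠ n : ℕ in atTop, 10 ^ 70 * Real.log n ^ 3 ≤ (n : ℝ) ^ (2 * ε) := by
  have h1 : (fun x : ℝ => Real.log x ^ (3 : ℝ)) =o[atTop] fun x => x ^ (2 * ε) :=
    isLittleO_log_rpow_rpow_atTop 3 (by positivity)
  have h2 := h1.bound (c := 1 / 10 ^ 70) (by positivity)
  have h3 := tendsto_natCast_atTop_atTop (R := ℝ) |>.eventually h2
  filter_upwards [h3, eventually_ge_atTop 1] with n hn hn1
  have hn1' : (1 : ℝ) ≤ n := by exact_mod_cast hn1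
  have hlog : 0 ≤ Real.log n := Real.log_nonneg hn1'
  rw [Real.norm_of_nonneg (by positivity), Real.norm_of_nonneg (by positivity)] at hn
  have h4 : Real.log n ^ (3 : ℝ) = Real.log n ^ 3 := by
    rw [← Real.rpow_natCast]; norm_num
  rw [h4] at hn
  have h5 : (10 : ℝ) ^ 70 * Real.log n ^ 3 ≤ 10 ^ 70 * (1 / 10 ^ 70 * (n : ℝ) ^ (2 * ε)) := by
    gcongr
  refine h5.trans (le_of_eq ?_)
  field_simp

theorem main (ε : ℝ) (hε : 0 < ε) (d : ℕ → ℕ) (heven : ∀ᶠ n : ℕ in atTop, Even (n * d n))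
    (hd : ∀ᶠ n : ℕ in atTop, (n : ℝ) ^ (1 / 2 + ε) ≤ d n ∧ (d n : ℝ) ≤ (n : ℝ) / 2) :
    Tendsto (fun n => probReconstructable n (d n)) atTop (𝓝 1) := by
  have hlow : Tendsto (fun n : ℕ => 1 - 9 / (n : ℝ)) atTop (𝓝 1) := by
    have h2 : Tendsto (fun n : ℕ => 9 / (n : ℝ)) atTop (𝓝 0) :=
      tendsto_natCast_atTop_atTop.const_div_atTop 9
    have := (tendsto_const_nhds (x := (1 : ℝ))).sub h2
    simpa using this
  refine tendsto_of_tendsto_of_tendsto_of_le_of_le' hlow tendsto_const_nhds ?_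
    (Eventually.of_forall fun n => prob_le_one n (d n))
  have hL : ∀ᶠ n : ℕ in atTop, 1 ≤ Real.log n :=
    (Real.tendsto_log_atTop.comp tendsto_natCast_atTop_atTop).eventually_ge_atTop 1
  have hnL : ∀ᶠ n : ℕ in atTop, 10 ^ 120 * Real.log n ≤ n := by
    have h1 := Real.isLittleO_log_id_atTop.bound (c := 1 / 10 ^ 120) (by positivity)
    have h3 := tendsto_natCast_atTop_atTop (R := ℝ) |>.eventually h1
    filter_upwards [h3, hL] with n hn hn1
    rw [Real.norm_of_nonneg (by linarith), id, Real.norm_of_nonneg (by positivity)] at hn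
    have h5 : (10 : ℝ) ^ 120 * Real.log n ≤ 10 ^ 120 * (1 / 10 ^ 120 * (n : ℝ)) := by
      gcongr
    refine h5.trans (le_of_eq ?_)
    field_simp
  filter_upwards [hd, heven, hL, hnL, eventually_log ε hε, eventually_ge_atTop 1] with
    n h1 h2 h3 h4 h5 h6
  have hn0 : (0 : ℝ) < n := by exact_mod_cast h6
  refine prob_ge h2 h3 ?_ ?_ h4
  · have e1 : ((n : ℝ) ^ (1 / 2 + ε)) ^ 2 ≤ (d n : ℝ) ^ 2 :=
      pow_le_pow_left₀ (by positivity) h1.1 2
    have e2 : ((n : ℝ) ^ (1 / 2 + ε)) ^ 2 = (n : ℝ) ^ (2 * ε) * n := by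
      rw [← Real.rpow_natCast, ← Real.rpow_mul (by positivity)]
      have : (1 / 2 + ε) * ((2 : ℕ) : ℝ) = 2 * ε + 1 := by push_cast; ring
      rw [this, Real.rpow_add hn0, Real.rpow_one]
    rw [e2] at e1
    refine le_trans ?_ e1
    gcongr
  · have : 2 * (d n : ℝ) ≤ n := by linarith [h1.2]
    exact_mod_cast this

end Pool.Agent.H.MP_0fd30f_pr
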