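import Pool.Agent.H.MP_0fd30f_pr.Moved

/-!
# The fine step: no directed edge is moved
-/

open Finset

namespace Pool.Agent.H.MP_0fd30f_pr

open scoped Classical

variable {V : Type*} [Fintype V] {G H : SimpleGraph V} {ψ θ : V → V → V}

/-- The edge `uw` of `H` is moved by the chart at `u` or the chart at `w`. -/
def MM (H : SimpleGraph V) (θ : V → V → V) (u w : V) : Prop :=
  H.Adj u w ∧ (θ u w ≠ w ∨ θ w u ≠ u)

omit [Fintype V] in
theorem MM.symm {u w : V} (h : MM H θ u w) : MM H θ w u := ⟨h.1.symm, h.2.symm⟩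

omit [Fintype V] in
theorem MM_comm {u w : V} : MM H θ u w ↔ MM H θ w u := ⟨MM.symm, MM.symm⟩

omit [Fintype V] in
theorem not_MM {u w : V} (h : H.Adj u w) (hM : ¬ MM H θ u w) : θ u w = w ∧ θ w u = u := by
  by_contra hcon
  exact hM ⟨h, by tauto⟩

/-- The set of moved edges of `H`. -/
noncomputable def QS (H : SimpleGraph V) (θ : V → V → V) : Finset (Sym2 V) :=
  univ.filter fun e => ∃ u w, e = s(u, w) ∧ MM H θ u w

/-- The set of ordered moved edges of `H`. -/
noncomputable def PM (H : SimpleGraph V) (θ : V → V → V) : Finset (V × V) :=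
  univ.filter fun q => MM H θ q.1 q.2

theorem mem_PM {q : V × V} : q ∈ PM H θ ↔ MM H θ q.1 q.2 := by simp [PM]

theorem mem_QS {u w : V} : s(u, w) ∈ QS H θ ↔ MM H θ u w := by
  simp only [QS, mem_filter, mem_univ, true_and]
  constructor
  · rintro ⟨u', w', h, hM⟩
    rw [Sym2.eq_iff] at h
    rcases h with ⟨rfl, rfl⟩ | ⟨rfl, rfl⟩
    · exact hM
    · exact hM.symm
  · intro h; exact ⟨u, w, rfl, h⟩

theorem card_QS_le_PM : (QS H θ).card ≤ (PM H θ).card := by
  have : QS H θ ⊆ (PM H θ).image fun q => s(q.1, q.2) := by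
    intro e he
    simp only [QS, mem_filter, mem_univ, true_and] at he
    obtain ⟨u, w, rfl, hM⟩ := he
    rw [mem_image]
    exact ⟨(u, w), mem_PM.2 hM, rfl⟩
  exact (card_le_card this).trans card_image_le

theorem card_PM_le : (PM H θ).card ≤ 2 * (QS H θ).card := by
  refine le_trans (card_le_card ?_) (Pool.Agent.H.MP_ccfaf0_pr.card_sym2_le _)
  intro q hq
  rw [mem_PM] at hq
  rw [mem_filter]
  exact ⟨mem_univ _, mem_QS.2 hq⟩

theorem card_QS_le_moved (hc : Chart G H ψ θ) : (QS H θ).card ≤ (moved G ψ).card := by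
  have : QS H θ ⊆ (moved G ψ).image fun q => s(q.1, ψ q.1 q.2) := by
    intro e he
    simp only [QS, mem_filter, mem_univ, true_and] at he
    obtain ⟨u, w, rfl, hadj, hM⟩ := he
    rw [mem_image]
    rcases hM with h | h
    · refine ⟨(u, θ u w), ?_, ?_⟩
      · simp only [moved, mem_filter, mem_univ, true_and]
        refine ⟨hc.map' u w hadj, ?_⟩
        rw [hc.right u w hadj]
        exact h.symm
      · simp only [hc.right u w hadj]
    · refine ⟨(w, θ w u), ?_, ?_⟩
      · simp only [moved, mem_filter, mem_univ, true_and]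
        refine ⟨hc.map' w u hadj.symm, ?_⟩
        rw [hc.right w u hadj.symm]
        exact h.symm
      · simp only [hc.right w u hadj.symm]
        exact Sym2.eq_swap
  exact (card_le_card this).trans card_image_le

theorem Chart.codeg (hc : Chart G H ψ θ) {w z : V} (h : H.Adj w z) :
    (nb H w ∩ nb H z).card = cdg G s(w, θ w z) := by
  rw [cdg_mk]
  refine card_bij' (fun a _ => θ w a) (fun x _ => ψ w x) ?_ ?_ ?_ ?_
  · intro a ha
    rw [mem_inter, mem_nb, mem_nb] at ha ⊢
    exact ⟨hc.map' w a ha.1, (hc.adj' w z a h ha.1).1 ha.2⟩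
  · intro x hx
    rw [mem_inter, mem_nb, mem_nb] at hx ⊢
    refine ⟨hc.map w x hx.1, ?_⟩
    have := (hc.adj w (θ w z) x (hc.map' w z h) hx.1).1 hx.2
    rwa [hc.right w z h] at this
  · intro a ha
    rw [mem_inter, mem_nb] at ha
    exact hc.right w a ha.1
  · intro x hx
    rw [mem_inter, mem_nb] at hx
    exact hc.left w x hx.1

theorem Chart.pair_mem (hc : Chart G H ψ θ) {w z : V} (h : H.Adj w z) :
    s(w, θ w z) ∈ pairs V := by
  rw [mem_pairs, Sym2.mk_isDiag_iff]
  exact (hc.map' w z h).ne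

/-- Moved ordered pairs in the neighbourhood of `v`. -/
noncomputable def qv (H : SimpleGraph V) (θ : V → V → V) (v : V) : Finset (V × V) :=
  (nb H v ×ˢ nb H v).filter fun q => MM H θ q.1 q.2

/-- Vertices with many moved pairs in their neighbourhoods. -/
noncomputable def IQ (H : SimpleGraph V) (θ : V → V → V) (t : ℝ) : Finset V :=
  univ.filter fun v => t ≤ (qv H θ v).card

theorem IQ_trivial (hc : Chart G H ψ θ) (hi t : ℝ)
    (hhi : ∀ g ∈ pairs V, (cdg G g : ℝ) ≤ hi) :
    ((IQ H θ t).card : ℝ) * t ≤ hi * (PM H θ).card := by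
  have h1 : ((IQ H θ t).card : ℝ) * t ≤ ∑ v ∈ IQ H θ t, ((qv H θ v).card : ℝ) := by
    rw [← nsmul_eq_mul, ← Finset.sum_const]
    refine Finset.sum_le_sum fun v hv => ?_
    rw [IQ, mem_filter] at hv
    exact hv.2
  have h2 : ∑ v ∈ IQ H θ t, (qv H θ v).card ≤ ∑ q ∈ PM H θ, (nb H q.1 ∩ nb H q.2).card := by
    rw [← card_sigma, ← card_sigma]
    refine card_le_card_of_injOn (fun p => ⟨p.2, p.1⟩) ?_ ?_
    · rintro ⟨v, w, z⟩ h
      rw [mem_coe, mem_sigma] at h
      simp only [qv, mem_filter, mem_product, mem_nb] at h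
      rw [mem_coe, mem_sigma, mem_PM, mem_inter, mem_nb, mem_nb]
      exact ⟨h.2.2, h.2.1.1.symm, h.2.1.2.symm⟩
    · rintro ⟨v, q⟩ _ ⟨v', q'⟩ _ h
      simp only [Sigma.mk.injEq, heq_eq_eq] at h
      obtain ⟨rfl, rfl⟩ := h
      rfl
  have h3 : (∑ v ∈ IQ H θ t, ((qv H θ v).card : ℝ)) ≤
      ∑ q ∈ PM H θ, ((nb H q.1 ∩ nb H q.2).card : ℝ) := by exact_mod_cast h2
  refine h1.trans (h3.trans ?_)
  rw [mul_comm, ← nsmul_eq_mul, ← Finset.sum_const]
  refine Finset.sum_le_sum fun q hq => ?_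
  rw [mem_PM] at hq
  rw [hc.codeg hq.1]
  exact hhi _ (hc.pair_mem hq.1)

/-- The discrepancy property of `G`. -/
def DiscProp (G : SimpleGraph V) (d : ℕ) : Prop :=
  ∀ X Y : Finset V, 400 * Y.card ≤ Fintype.card V →
    (eXY G X Y : ℝ) ≤ 40 * (d / Fintype.card V : ℝ) * X.card * Y.card +
      10 * (X.card + Y.card) * Real.log (Fintype.card V)

/-- If all vertices of `X` have more than `s` neighbours in a small set `Y` then `X` is small. -/
theorem disc_use {d : ℕ} (hD : DiscProp G d) {X Y : Finset V} (s α : ℝ)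
    (hY400 : 400 * Y.card ≤ Fintype.card V) (hYα : (Y.card : ℝ) ≤ α)
    (h1 : 40 * (d / Fintype.card V : ℝ) * α ≤ s / 4)
    (h2 : 10 * Real.log (Fintype.card V) ≤ s / 4)
    (hX : ∀ x ∈ X, s ≤ ((nb G x ∩ Y).card : ℝ)) :
    (X.card : ℝ) * s ≤ 20 * Y.card * Real.log (Fintype.card V) := by
  have h3 : (X.card : ℝ) * s ≤ eXY G X Y := by
    have h4 : eXY G X Y = ∑ x ∈ X, (nb G x ∩ Y).card := by
      rw [eXY, card_filter, sum_product]
      refine Finset.sum_congr rfl fun x _ => ?_
      rw [← card_filter]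
      congr 1
      ext y
      rw [mem_filter, mem_inter, mem_nb]
      tauto
    rw [h4]
    push_cast
    rw [← nsmul_eq_mul, ← Finset.sum_const]
    exact Finset.sum_le_sum hX
  have h4 := hD X Y hY400
  have hX0 : (0 : ℝ) ≤ X.card := by positivity
  have h5 : 40 * (d / Fintype.card V : ℝ) * X.card * Y.card ≤ X.card * (s / 4) := by
    calc 40 * (d / Fintype.card V : ℝ) * X.card * Y.card
        = X.card * (40 * (d / Fintype.card V : ℝ) * Y.card) := by ring
      _ ≤ X.card * (40 * (d / Fintype.card V : ℝ) * α) := by gcongr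
      _ ≤ _ := mul_le_mul_of_nonneg_left h1 hX0
  have h6 : (X.card : ℝ) * (10 * Real.log (Fintype.card V)) ≤ X.card * (s / 4) :=
    mul_le_mul_of_nonneg_left h2 hX0
  nlinarith

/-- Triples `(v, a, b)`, `v ∈ J`, `ab` an edge in the neighbourhood of `v` which is in the
neighbourhood of more than `s` vertices of `J`. -/
noncomputable def heavy (G : SimpleGraph V) (J : Finset V) (s : ℝ) : Finset (Σ _ : V × V, V) :=
  ((univ : Finset (V × V)).filter fun q => G.Adj q.1 q.2 ∧
    s ≤ ((nb G q.2 ∩ (nb G q.1 ∩ J)).card : ℝ)).sigma fun q => nb G q.2 ∩ (nb G q.1 ∩ J)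

theorem heavy_le {d : ℕ} (hG : G ∈ regG V d) (hD : DiscProp G d) (hi s s1 : ℝ) (J : Finset V)
    (hhi : ∀ g ∈ pairs V, (cdg G g : ℝ) ≤ hi) (hs : 0 < s) (hss : s ≤ s1)
    (hJ : 400 * J.card ≤ Fintype.card V) (hd : 400 * d ≤ Fintype.card V)
    (h1 : 40 * (d / Fintype.card V : ℝ) * s1 ≤ s / 4)
    (h2 : 10 * Real.log (Fintype.card V) ≤ s / 4)
    (h3 : 40 * (d / Fintype.card V : ℝ) * J.card ≤ s1 / 4) :
    ((heavy G J s).card : ℝ) * s ≤ 40 * hi * d * Real.log (Fintype.card V) * J.card := by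
  set n := Fintype.card V with hn
  set BJ := univ.filter fun a => s1 ≤ ((nb G a ∩ J).card : ℝ) with hBJ
  set Wa : V → Finset V := fun a => (nb G a).filter fun b => s ≤ ((nb G b ∩ (nb G a ∩ J)).card : ℝ)
    with hWa
  rcases (Finset.eq_empty_or_nonempty (heavy G J s)) with he | hne
  · rw [he]
    have h0 : (0 : ℝ) ≤ hi * Real.log n := by
      by_cases hp : (pairs V).Nonempty
      · obtain ⟨g, hg⟩ := hp
        have := hhi g hg
        have h5 : (0 : ℝ) ≤ hi := le_trans (by positivity) this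
        exact mul_nonneg h5 (Real.log_natCast_nonneg _)
      · have h5 : (pairs V).card = 0 := by
          rw [card_eq_zero]; exact not_nonempty_iff_eq_empty.1 hp
        rw [card_pairs] at h5
        have h6 : n < 2 := by
          by_contra hcon
          push Not at hcon
          exact absurd h5 (Nat.choose_pos hcon).ne'
        have h7 : n = 0 ∨ n = 1 := by omega
        rcases h7 with h7 | h7 <;> simp [h7]
    have h00 : (0 : ℝ) ≤ d * J.card := by positivity
    simp only [card_empty, Nat.cast_zero, zero_mul]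
    nlinarith
  obtain ⟨p0, hp0⟩ := hne
  have hlog : 0 ≤ Real.log n := Real.log_natCast_nonneg _
  have hhi0 : 0 ≤ hi := by
    rw [heavy, mem_sigma, mem_filter] at hp0
    exact le_trans (by positivity) (hhi s(p0.1.1, p0.1.2) (by
      rw [mem_pairs, Sym2.mk_isDiag_iff]; exact hp0.1.2.1.ne))
  have hs1 : 0 < s1 := lt_of_lt_of_le hs hss
  have b1 : (BJ.card : ℝ) * s1 ≤ 20 * J.card * Real.log n := by
    refine disc_use hD s1 J.card hJ le_rfl h3 (by linarith) ?_
    intro x hx
    rw [hBJ, mem_filter] at hx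
    exact hx.2
  have b2 : ∀ a, a ∉ BJ → ((Wa a).card : ℝ) * s ≤ 20 * (nb G a ∩ J).card * Real.log n := by
    intro a ha
    rw [hBJ, mem_filter] at ha
    simp only [mem_univ, true_and, not_le] at ha
    refine disc_use hD s s1 ?_ ha.le h1 h2 ?_
    · have : (nb G a ∩ J).card ≤ d := (card_le_card inter_subset_left).trans (card_nb hG a).le
      omega
    · intro b hb
      simp only [hWa, mem_filter] at hb
      exact hb.2
  -- the cover
  have hsub : heavy G J s ⊆
      ((BJ.sigma fun a => nb G a).sigma fun p => nb G p.1 ∩ nb G p.2).image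
        (fun r => (⟨(r.1.1, r.1.2), r.2⟩ : Σ _ : V × V, V)) ∪
      (((univ \ BJ).sigma fun a => Wa a).sigma fun p => nb G p.1 ∩ nb G p.2).image
        (fun r => (⟨(r.1.1, r.1.2), r.2⟩ : Σ _ : V × V, V)) := by
    rintro ⟨⟨a, b⟩, v⟩ h
    rw [heavy, mem_sigma, mem_filter] at h
    simp only [mem_inter] at h
    obtain ⟨⟨-, hab, hs'⟩, hbv, hav, hvJ⟩ := h
    rw [mem_union, mem_image, mem_image]
    by_cases ha : a ∈ BJ
    · left
      refine ⟨⟨⟨a, b⟩, v⟩, ?_, rfl⟩
      rw [mem_sigma, mem_sigma, mem_inter]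
      exact ⟨⟨ha, mem_nb.2 hab⟩, hav, hbv⟩
    · right
      refine ⟨⟨⟨a, b⟩, v⟩, ?_, rfl⟩
      rw [mem_sigma, mem_sigma, mem_inter]
      refine ⟨⟨by rw [mem_sdiff]; exact ⟨mem_univ _, ha⟩, ?_⟩, hav, hbv⟩
      simp only [hWa, mem_filter]
      exact ⟨mem_nb.2 hab, hs'⟩
  have hc1 : ((((BJ.sigma fun a => nb G a).sigma fun p => nb G p.1 ∩ nb G p.2)).card : ℝ) ≤
      BJ.card * (d * hi) := by
    rw [card_sigma]
    push_cast
    rw [sum_sigma, ← nsmul_eq_mul, ← Finset.sum_const]
    refine Finset.sum_le_sum fun a _ => ?_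
    have : (d : ℝ) * hi = ∑ _b ∈ nb G a, hi := by
      rw [Finset.sum_const, card_nb hG, nsmul_eq_mul]
    rw [this]
    refine Finset.sum_le_sum fun b hb => ?_
    rw [← cdg_mk]
    exact hhi _ (by rw [mem_pairs, Sym2.mk_isDiag_iff]; exact (mem_nb.1 hb).ne)
  have hc2 : (((((univ \ BJ).sigma fun a => Wa a).sigma fun p => nb G p.1 ∩ nb G p.2)).card : ℝ) ≤
      ∑ a ∈ univ \ BJ, (Wa a).card * hi := by
    rw [card_sigma]
    push_cast
    rw [sum_sigma]
    refine Finset.sum_le_sum fun a _ => ?_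
    rw [← nsmul_eq_mul, ← Finset.sum_const]
    refine Finset.sum_le_sum fun b hb => ?_
    rw [← cdg_mk]
    simp only [hWa, mem_filter] at hb
    exact hhi _ (by rw [mem_pairs, Sym2.mk_isDiag_iff]; exact (mem_nb.1 hb.1).ne)
  have hc3 : (∑ a ∈ univ \ BJ, ((Wa a).card : ℝ) * hi) * s ≤
      20 * hi * Real.log n * (d * J.card) := by
    have e1 : (∑ a ∈ univ \ BJ, ((Wa a).card : ℝ) * hi) * s ≤
        ∑ a ∈ univ \ BJ, (20 * hi * Real.log n) * ((nb G a ∩ J).card : ℝ) := by
      rw [Finset.sum_mul]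
      refine Finset.sum_le_sum fun a ha => ?_
      rw [mem_sdiff] at ha
      have := mul_le_mul_of_nonneg_left (b2 a ha.2) hhi0
      nlinarith
    have e2 : ∑ a ∈ univ \ BJ, ((nb G a ∩ J).card : ℝ) ≤ d * J.card := by
      have e3 : ∑ a ∈ univ \ BJ, (nb G a ∩ J).card ≤ ∑ a : V, (nb G a ∩ J).card :=
        Finset.sum_le_sum_of_subset (subset_univ _)
      have e4 : ∑ a : V, (nb G a ∩ J).card = ∑ v ∈ J, (nb G v).card := by
        have e5 : ∀ a : V, (nb G a ∩ J).card = ∑ v ∈ J, if G.Adj a v then 1 else 0 := by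
          intro a
          rw [← card_filter]
          congr 1
          ext v
          rw [mem_inter, mem_nb, mem_filter]; tauto
        simp_rw [e5]
        rw [Finset.sum_comm]
        refine Finset.sum_congr rfl fun v _ => ?_
        rw [nb, card_filter]
        refine Finset.sum_congr rfl fun a _ => ?_
        simp [G.adj_comm]
      rw [e4, Finset.sum_congr rfl fun v _ => card_nb hG v, Finset.sum_const, smul_eq_mul] at e3
      have : (∑ a ∈ univ \ BJ, ((nb G a ∩ J).card : ℝ)) ≤ J.card * d := by exact_mod_cast e3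
      linarith
    rw [← Finset.mul_sum] at e1
    exact e1.trans (mul_le_mul_of_nonneg_left e2 (by positivity))
  have hfin : ((heavy G J s).card : ℝ) ≤ BJ.card * (d * hi) + ∑ a ∈ univ \ BJ, (Wa a).card * hi := by
    have e1 := (card_le_card hsub).trans ((card_union_le _ _).trans
      (Nat.add_le_add card_image_le card_image_le))
    have e2 : ((heavy G J s).card : ℝ) ≤
      ((((BJ.sigma fun a => nb G a).sigma fun p => nb G p.1 ∩ nb G p.2)).card : ℝ) +
      (((((univ \ BJ).sigma fun a => Wa a).sigma fun p => nb G p.1 ∩ nb G p.2)).card : ℝ) := by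
      exact_mod_cast e1
    linarith
  have hb1' : (BJ.card : ℝ) * s ≤ 20 * J.card * Real.log n :=
    le_trans (mul_le_mul_of_nonneg_left hss (by positivity)) b1
  calc ((heavy G J s).card : ℝ) * s ≤
        (BJ.card * (d * hi) + ∑ a ∈ univ \ BJ, (Wa a).card * hi) * s :=
        mul_le_mul_of_nonneg_right hfin hs.le
    _ = (BJ.card * s) * (d * hi) + (∑ a ∈ univ \ BJ, (Wa a).card * hi) * s := by ring
    _ ≤ (20 * J.card * Real.log n) * (d * hi) + 20 * hi * Real.log n * (d * J.card) := by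
        refine add_le_add (mul_le_mul_of_nonneg_right hb1' (by positivity)) hc3
    _ = _ := by ring

end Pool.Agent.H.MP_0fd30f_pr
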