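import Pool.Agent.H.MP_0fd30f_pr.Fine

/-!
# The fine step, continued
-/

open Finset

namespace Pool.Agent.H.MP_0fd30f_pr

open scoped Classical

variable {V : Type*} [Fintype V] {G H : SimpleGraph V} {ψ θ : V → V → V}

/-- The property of `G` given by `cover_bound`. -/
def CoverProp (G : SimpleGraph V) (d : ℕ) : Prop :=
  ∀ (I : Finset V) (Q : Finset (Sym2 V)) (ψ : V → V → V), I.Nonempty →
    32 * ((I.card : ℝ) * d + Q.card) * Real.log (Fintype.card V) + 8 ≤ Fintype.card V * d →
    (∀ i ∈ I, ∀ e ∈ pairs V, cov G i e → Sym2.map (ψ i) e ∈ Q → e ∈ G.edgeSet) →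
    (((pairs V).filter fun e => ∃ i ∈ I, cov G i e ∧ Sym2.map (ψ i) e ∈ Q).card : ℝ) <
      4 * ((I.card : ℝ) * d + Q.card) * Real.log (Fintype.card V)

theorem IQ_small {d : ℕ} (hG : G ∈ regG V d) (hc : Chart G H ψ θ) (hD : DiscProp G d)
    (hcov : CoverProp G d) (hi s s1 t : ℝ) (hhi : ∀ g ∈ pairs V, (cdg G g : ℝ) ≤ hi)
    (hs : 0 < s) (hss : s ≤ s1) (hts : 80 * d * Real.log (Fintype.card V) * s = t)
    (hd0 : 0 < d) (hd : 400 * d ≤ Fintype.card V)
    (h1 : 40 * (d / Fintype.card V : ℝ) * s1 ≤ s / 4)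
    (h2 : 10 * Real.log (Fintype.card V) ≤ s / 4)
    (h3 : 40 * (d / Fintype.card V : ℝ) * (IQ H θ t).card ≤ s1 / 4)
    (hJ : 400 * (IQ H θ t).card ≤ Fintype.card V)
    (h4 : 80 * hi * d * Real.log (Fintype.card V) ≤ t * s)
    (h32 : 32 * (((IQ H θ t).card : ℝ) * d + (QS H θ).card) * Real.log (Fintype.card V) + 8 ≤
      Fintype.card V * d) :
    4 * ((IQ H θ t).card : ℝ) * d ≤ (QS H θ).card := by
  set n := Fintype.card V with hn
  set J := IQ H θ t with hJdef
  rcases J.eq_empty_or_nonempty with he | hne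
  · rw [he]; simp
  set Z := (pairs V).filter fun e => ∃ i ∈ J, cov G i e ∧ Sym2.map (ψ i) e ∈ QS H θ with hZ
  have hmem : ∀ i e, cov G i e → Sym2.map (ψ i) e ∈ QS H θ → e ∈ G.edgeSet := by
    intro i e hcv hq
    rw [hc.map_mem hcv]
    revert hq
    generalize Sym2.map (ψ i) e = g
    induction g with
    | h x y => intro hq; exact (mem_QS.1 hq).1
  have hZlt := hcov J (QS H θ) ψ hne h32 fun i _ e _ => hmem i e
  -- the triples
  set T := J.sigma fun v => qv H θ v with hT
  have hTlow : (J.card : ℝ) * t ≤ T.card := by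
    rw [hT, card_sigma]
    push_cast
    rw [← nsmul_eq_mul, ← Finset.sum_const]
    refine Finset.sum_le_sum fun v hv => ?_
    rw [hJdef, IQ, mem_filter] at hv
    exact hv.2
  set L := ((univ.filter fun p : V × V => s(p.1, p.2) ∈ Z).filter
    fun q => ((nb G q.2 ∩ (nb G q.1 ∩ J)).card : ℝ) < s).sigma
    fun q => nb G q.2 ∩ (nb G q.1 ∩ J) with hL
  have hTsub : T.card ≤ (heavy G J s).card + L.card := by
    refine le_trans ?_ (card_union_le _ _)
    refine card_le_card_of_injOn (fun p => ⟨(θ p.1 p.2.1, θ p.1 p.2.2), p.1⟩) ?_ ?_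
    · rintro ⟨v, w, z⟩ h
      rw [mem_coe, hT, mem_sigma] at h
      simp only [qv, mem_filter, mem_product, mem_nb] at h
      obtain ⟨hv, ⟨hvw, hvz⟩, hM⟩ := h
      have hGw := hc.map' v w hvw
      have hGz := hc.map' v z hvz
      have hadj : G.Adj (θ v w) (θ v z) := (hc.adj' v w z hvw hvz).1 hM.1
      have hin : v ∈ nb G (θ v z) ∩ (nb G (θ v w) ∩ J) := by
        rw [mem_inter, mem_inter, mem_nb, mem_nb]
        exact ⟨hGz.symm, hGw.symm, hv⟩
      rw [mem_coe, mem_union]
      by_cases hcase : s ≤ ((nb G (θ v z) ∩ (nb G (θ v w) ∩ J)).card : ℝ)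
      · left
        rw [heavy, mem_sigma, mem_filter]
        exact ⟨⟨mem_univ _, hadj, hcase⟩, hin⟩
      · right
        rw [hL, mem_sigma, mem_filter, mem_filter]
        refine ⟨⟨⟨mem_univ _, ?_⟩, not_le.1 hcase⟩, hin⟩
        rw [hZ, mem_filter, mem_pairs, Sym2.mk_isDiag_iff]
        refine ⟨hadj.ne, v, hv, ?_, ?_⟩
        · intro x hx
          rw [Sym2.mem_iff] at hx
          rcases hx with rfl | rfl
          · exact hGw
          · exact hGz
        · rw [Sym2.map_mk, hc.right v w hvw, hc.right v z hvz]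
          exact mem_QS.2 hM
    · rintro ⟨v, w, z⟩ h ⟨v', w', z'⟩ h' heq
      rw [mem_coe, hT, mem_sigma] at h h'
      simp only [qv, mem_filter, mem_product, mem_nb] at h h'
      simp only [Sigma.mk.injEq, Prod.mk.injEq, heq_eq_eq] at heq
      obtain ⟨⟨e1, e2⟩, rfl⟩ := heq
      rw [hc.symm.inj h.2.1.1 h'.2.1.1 e1, hc.symm.inj h.2.1.2 h'.2.1.2 e2]
  have hLc : (L.card : ℝ) ≤ 2 * Z.card * s := by
    have e1 : (L.card : ℝ) ≤ (((univ.filter fun p : V × V => s(p.1, p.2) ∈ Z).filter
        fun q => ((nb G q.2 ∩ (nb G q.1 ∩ J)).card : ℝ) < s).card : ℝ) * s := by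
      rw [hL, card_sigma]
      push_cast
      rw [← nsmul_eq_mul, ← Finset.sum_const]
      refine Finset.sum_le_sum fun q hq => ?_
      rw [mem_filter] at hq
      exact hq.2.le
    have e2 : ((univ.filter fun p : V × V => s(p.1, p.2) ∈ Z).filter
        fun q => ((nb G q.2 ∩ (nb G q.1 ∩ J)).card : ℝ) < s).card ≤ 2 * Z.card :=
      (card_filter_le _ _).trans (Pool.Agent.H.MP_ccfaf0_pr.card_sym2_le _)
    have e3 : (((univ.filter fun p : V × V => s(p.1, p.2) ∈ Z).filter
        fun q => ((nb G q.2 ∩ (nb G q.1 ∩ J)).card : ℝ) < s).card : ℝ) ≤ 2 * Z.card := by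
      exact_mod_cast e2
    exact e1.trans (mul_le_mul_of_nonneg_right e3 hs.le)
  have hheavy := heavy_le hG hD hi s s1 J hhi hs hss hJ hd h1 h2 h3
  have hTR : (T.card : ℝ) ≤ (heavy G J s).card + L.card := by exact_mod_cast hTsub
  have hJ0 : (0 : ℝ) < J.card := by exact_mod_cast card_pos.2 hne
  have hd0' : (0 : ℝ) < d := by exact_mod_cast hd0
  have hlog : 0 ≤ Real.log n := Real.log_natCast_nonneg _
  -- J t s ≤ (J t s)/2 + 2 Z s^2
  have f1 : (J.card : ℝ) * t * s ≤ 40 * hi * d * Real.log n * J.card + 2 * Z.card * s * s := by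
    calc (J.card : ℝ) * t * s ≤ ((heavy G J s).card + L.card) * s :=
          mul_le_mul_of_nonneg_right (hTlow.trans hTR) hs.le
      _ = (heavy G J s).card * s + L.card * s := by ring
      _ ≤ _ := add_le_add hheavy (mul_le_mul_of_nonneg_right hLc hs.le)
  have f2 : 40 * hi * d * Real.log n * J.card ≤ (J.card : ℝ) * t * s / 2 := by
    have := mul_le_mul_of_nonneg_right h4 hJ0.le
    linarith
  have f3 : (J.card : ℝ) * t ≤ 4 * Z.card * s := by
    have : ((J.card : ℝ) * t) * s ≤ (4 * Z.card * s) * s := by linarith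
    exact le_of_mul_le_mul_right this hs
  have f4 : (J.card : ℝ) * t ≤ 16 * ((J.card : ℝ) * d + (QS H θ).card) * Real.log n * s := by
    have := mul_le_mul_of_nonneg_right hZlt.le hs.le
    linarith
  -- substitute t
  have f5 : (J.card : ℝ) * (80 * d) * (Real.log n * s) ≤
      (16 * ((J.card : ℝ) * d + (QS H θ).card)) * (Real.log n * s) := by
    calc (J.card : ℝ) * (80 * d) * (Real.log n * s) = J.card * t := by rw [← hts]; ring
      _ ≤ _ := f4
      _ = _ := by ring
  have hlogpos : 0 < Real.log n := by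
    refine Real.log_pos ?_
    have : (400 : ℝ) * d ≤ n := by exact_mod_cast hd
    have : (1 : ℝ) ≤ d := by exact_mod_cast hd0
    linarith
  have f6 := le_of_mul_le_mul_right f5 (mul_pos hlogpos hs)
  linarith

/-- Moved neighbours. -/
noncomputable def Qv (H : SimpleGraph V) (θ : V → V → V) (v : V) : Finset V :=
  (nb H v).filter fun w => MM H θ v w

/-- The vertices moved by the chart at `v`. -/
noncomputable def RR (G : SimpleGraph V) (ψ : V → V → V) (v : V) : Finset V :=
  (nb G v).filter fun x => ψ v x ≠ x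

theorem RR_le {d k : ℕ} (hG : G ∈ regG V d) (hc : Chart G H ψ θ) (lo t : ℝ)
    (hlo : ∀ g ∈ pairs V, lo ≤ cdg G g) (hmap : MapProp G d k) (v : V)
    (hv : ((qv H θ v).card : ℝ) ≤ t) :
    ((RR G ψ v).card : ℝ) * (lo - 1) ≤ 6 * k + t := by
  set E := (nb G v ×ˢ nb G v).filter fun p => G.Adj p.1 p.2 ∧
    Sym2.map (ψ v) s(p.1, p.2) ≠ s(p.1, p.2) with hE
  set F := ((pairs V).filter fun e => (∀ x ∈ e, x ∈ nb G v) ∧ e ∈ G.edgeSet ∧
      Sym2.map (ψ v) e ∈ G.edgeSet ∧ Sym2.map (ψ v) e ≠ e) with hF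
  have hm : F.card < 3 * k := hmap (nb G v) (ψ v) (card_nb hG v).le (by
    intro x hx y hy hxy
    rw [mem_coe, mem_nb] at hx hy
    exact hc.inj hx hy hxy)
  have hEup : E.card ≤ 2 * F.card + (qv H θ v).card := by
    set E2 := E.filter fun p => ¬ G.Adj (ψ v p.1) (ψ v p.2) with hE2
    have h1 : E ⊆ (univ.filter fun p : V × V => s(p.1, p.2) ∈ F) ∪ E2 := by
      rintro ⟨x, y⟩ hp
      have hp' := hp
      simp only [hE, mem_filter, mem_product, mem_nb] at hp'
      obtain ⟨⟨hx, hy⟩, hxy, hne⟩ := hp'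
      rw [mem_union]
      by_cases hadj : G.Adj (ψ v x) (ψ v y)
      · left
        rw [mem_filter]
        refine ⟨mem_univ _, ?_⟩
        rw [hF, mem_filter, mem_pairs, Sym2.mk_isDiag_iff]
        refine ⟨hxy.ne, ?_, hxy, ?_, hne⟩
        · intro z hz
          rw [Sym2.mem_iff] at hz
          rcases hz with rfl | rfl
          · exact mem_nb.2 hx
          · exact mem_nb.2 hy
        · rw [Sym2.map_mk]; exact hadj
      · right
        rw [hE2]
        exact mem_filter.2 ⟨hp, hadj⟩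
    have h2 : E2.card ≤ (qv H θ v).card := by
      refine card_le_card_of_injOn (fun p => (ψ v p.1, ψ v p.2)) ?_ ?_
      · rintro ⟨x, y⟩ hp
        rw [mem_coe, hE2, mem_filter, hE, mem_filter, mem_product, mem_nb, mem_nb] at hp
        obtain ⟨⟨⟨hx, hy⟩, hxy, hne⟩, hnadj⟩ := hp
        simp only at hx hy hxy hnadj
        have hHadj := (hc.adj v x y hx hy).1 hxy
        rw [mem_coe, qv, mem_filter, mem_product, mem_nb, mem_nb]
        refine ⟨⟨hc.map v x hx, hc.map v y hy⟩, ?_⟩
        by_contra hM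
        have h3 := not_MM hHadj hM
        have h4 := hc.map' _ _ hHadj
        rw [h3.1] at h4
        exact hnadj h4
      · rintro ⟨x, y⟩ hp ⟨x', y'⟩ hp' heq
        rw [mem_coe, hE2, mem_filter, hE, mem_filter, mem_product, mem_nb, mem_nb] at hp hp'
        simp only [Prod.mk.injEq] at heq
        exact Prod.ext (hc.inj hp.1.1.1 hp'.1.1.1 heq.1) (hc.inj hp.1.1.2 hp'.1.1.2 heq.2)
    have h3 := Pool.Agent.H.MP_ccfaf0_pr.card_sym2_le F
    have h4 := (card_le_card h1).trans (card_union_le _ _)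
    omega
  have hElow : ((RR G ψ v).card : ℝ) * (lo - 1) ≤ E.card := by
    set P := (RR G ψ v).sigma fun x => (nb G x ∩ nb G v).filter fun y => y ≠ ψ v x with hP
    have h1 : ((RR G ψ v).card : ℝ) * (lo - 1) ≤ P.card := by
      rw [hP, card_sigma]
      push_cast
      rw [← nsmul_eq_mul, ← Finset.sum_const]
      refine Finset.sum_le_sum fun x hx => ?_
      rw [RR, mem_filter, mem_nb] at hx
      have h2 := hlo s(x, v) (by rw [mem_pairs, Sym2.mk_isDiag_iff]; exact hx.1.ne.symm)
      rw [cdg_mk] at h2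
      have h3 : nb G x ∩ nb G v ⊆ ((nb G x ∩ nb G v).filter fun y => y ≠ ψ v x) ∪ {ψ v x} := by
        intro y hy
        rw [mem_union, mem_filter, mem_singleton]
        tauto
      have h4 := (card_le_card h3).trans (card_union_le _ _)
      rw [card_singleton] at h4
      have h5 : ((nb G x ∩ nb G v).card : ℝ) ≤
          (((nb G x ∩ nb G v).filter fun y => y ≠ ψ v x).card : ℝ) + 1 := by exact_mod_cast h4
      linarith
    have h2 : P.card ≤ E.card := by
      refine card_le_card_of_injOn (fun p => (p.1, p.2)) ?_ ?_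
      · rintro ⟨x, y⟩ hp
        rw [mem_coe, hP, mem_sigma] at hp
        simp only [RR, mem_filter, mem_nb, mem_inter] at hp
        obtain ⟨⟨hvx, hne⟩, ⟨hxy, hvy⟩, hyne⟩ := hp
        rw [mem_coe, hE, mem_filter, mem_product, mem_nb, mem_nb]
        refine ⟨⟨hvx, hvy⟩, hxy, ?_⟩
        rw [Sym2.map_mk]
        intro h
        rw [Sym2.eq_iff] at h
        rcases h with h | h
        · exact hne h.1
        · exact hyne h.1.symm
      · rintro ⟨x, y⟩ _ ⟨x', y'⟩ _ h
        simp only [Prod.mk.injEq] at h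
        obtain ⟨rfl, rfl⟩ := h
        rfl
    have h2' : (P.card : ℝ) ≤ E.card := by exact_mod_cast h2
    linarith
  have hE' : (E.card : ℝ) ≤ 2 * F.card + (qv H θ v).card := by exact_mod_cast hEup
  have hm' : (F.card : ℝ) ≤ 3 * k := by exact_mod_cast hm.le
  linarith

/-- The neighbours `w` of `v` in `H` whose chart moves `v`. -/
noncomputable def WW (H : SimpleGraph V) (θ : V → V → V) (v : V) : Finset V :=
  (nb H v).filter fun w => θ w v ≠ v

/-- Three distinct vertices have few common neighbours. -/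
def TripProp (G : SimpleGraph V) (t3 : ℝ) : Prop :=
  ∀ a b e : V, a ≠ b → a ≠ e → b ≠ e → ((nb G a ∩ nb G b ∩ nb G e).card : ℝ) ≤ t3

theorem nice_le (hc : Chart G H ψ θ) (t3 : ℝ) (htrip : TripProp G t3) {v w : V}
    (hvw : H.Adj v w) (hne : θ w v ≠ v) :
    (((nb H v ∩ nb H w).filter fun z => ¬ MM H θ w z ∧ G.Adj v z).card : ℝ) ≤ t3 := by
  have h1 := hc.map' w v hvw.symm
  refine le_trans ?_ (htrip v w (θ w v) hvw.ne hne.symm h1.ne)
  have : ((nb H v ∩ nb H w).filter fun z => ¬ MM H θ w z ∧ G.Adj v z) ⊆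
      nb G v ∩ nb G w ∩ nb G (θ w v) := by
    intro z hz
    rw [mem_filter, mem_inter, mem_nb, mem_nb] at hz
    obtain ⟨⟨hvz, hwz⟩, hM, hG'⟩ := hz
    have h2 := (not_MM hwz hM).1
    have h3 := hc.map' w z hwz
    rw [h2] at h3
    have h4 := (hc.adj' w v z hvw.symm hwz).1 hvz
    rw [h2] at h4
    rw [mem_inter, mem_inter, mem_nb, mem_nb, mem_nb]
    exact ⟨⟨hG', h3⟩, h4⟩
  exact_mod_cast card_le_card this

theorem WW_le {d : ℕ} (hG : G ∈ regG V d) (hc : Chart G H ψ θ) (hD : DiscProp G d)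
    (lo t t3 ρ1 : ℝ)
    (hlo : ∀ g ∈ pairs V, lo ≤ cdg G g) (htrip : TripProp G t3) (ht3 : t3 ≤ lo / 2)
    (hd : 400 * d ≤ Fintype.card V) (v : V)
    (hv : ((qv H θ v).card : ℝ) ≤ t) (hR : ((RR G ψ v).card : ℝ) ≤ ρ1)
    (h1 : 40 * (d / Fintype.card V : ℝ) * ρ1 ≤ lo / 8)
    (h2 : 10 * Real.log (Fintype.card V) ≤ lo / 8) :
    ((WW H θ v).card : ℝ) * (lo / 4) ≤ t + 10 * ρ1 * Real.log (Fintype.card V) := by
  set n := Fintype.card V with hn
  set A := (WW H θ v).sigma fun w => (nb H v ∩ nb H w).filter fun z => MM H θ w z with hA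
  set B := (WW H θ v).sigma fun w => (nb H v ∩ nb H w).filter fun z => ¬ G.Adj v z with hB
  have hlog : 0 ≤ Real.log n := Real.log_natCast_nonneg _
  have hAB : ((WW H θ v).card : ℝ) * (lo / 2) ≤ A.card + B.card := by
    rw [hA, hB, card_sigma, card_sigma]
    push_cast
    rw [← Finset.sum_add_distrib, ← nsmul_eq_mul, ← Finset.sum_const]
    refine Finset.sum_le_sum fun w hw => ?_
    rw [WW, mem_filter, mem_nb] at hw
    have e1 := nice_le hc t3 htrip hw.1 hw.2
    have e2 : nb H v ∩ nb H w ⊆ ((nb H v ∩ nb H w).filter fun z => ¬ MM H θ w z ∧ G.Adj v z) ∪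
        (((nb H v ∩ nb H w).filter fun z => MM H θ w z) ∪
        ((nb H v ∩ nb H w).filter fun z => ¬ G.Adj v z)) := by
      intro z hz
      rw [mem_union, mem_union, mem_filter, mem_filter, mem_filter]
      tauto
    have e3 := (card_le_card e2).trans ((card_union_le _ _).trans
      (Nat.add_le_add_left (card_union_le _ _) _))
    have e4 : ((nb H v ∩ nb H w).card : ℝ) ≤
        (((nb H v ∩ nb H w).filter fun z => ¬ MM H θ w z ∧ G.Adj v z).card : ℝ) +
        ((((nb H v ∩ nb H w).filter fun z => MM H θ w z).card : ℝ) +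
        (((nb H v ∩ nb H w).filter fun z => ¬ G.Adj v z).card : ℝ)) := by exact_mod_cast e3
    have e5 : lo ≤ ((nb H v ∩ nb H w).card : ℝ) := by
      rw [hc.codeg hw.1]
      exact hlo _ (hc.pair_mem hw.1)
    linarith
  have hAc : (A.card : ℝ) ≤ t := by
    refine le_trans ?_ hv
    have : A.card ≤ (qv H θ v).card := by
      refine card_le_card_of_injOn (fun p => (p.1, p.2)) ?_ ?_
      · rintro ⟨w, z⟩ h
        rw [mem_coe, hA, mem_sigma] at h
        simp only [WW, mem_filter, mem_inter, mem_nb] at h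
        rw [mem_coe, qv, mem_filter, mem_product, mem_nb, mem_nb]
        exact ⟨⟨h.1.1, h.2.1.1⟩, h.2.2⟩
      · rintro ⟨x, y⟩ _ ⟨x', y'⟩ _ h
        simp only [Prod.mk.injEq] at h
        obtain ⟨rfl, rfl⟩ := h
        rfl
    exact_mod_cast this
  set X := (WW H θ v).image (θ v) with hX
  have hXc : (X.card : ℝ) ≤ (WW H θ v).card := by exact_mod_cast card_image_le
  have hBc : (B.card : ℝ) ≤ 40 * (d / n : ℝ) * X.card * (RR G ψ v).card +
      10 * (X.card + (RR G ψ v).card) * Real.log n := by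
    refine le_trans ?_ (hD X (RR G ψ v) ?_)
    · have : B.card ≤ eXY G X (RR G ψ v) := by
        rw [eXY]
        refine card_le_card_of_injOn (fun p => (θ v p.1, θ v p.2)) ?_ ?_
        · rintro ⟨w, z⟩ h
          rw [mem_coe, hB, mem_sigma] at h
          simp only [mem_filter, mem_inter, mem_nb] at h
          obtain ⟨hw, ⟨hvz, hwz⟩, hnG⟩ := h
          have hw' := hw
          rw [WW, mem_filter, mem_nb] at hw'
          rw [mem_coe, mem_filter, mem_product]
          refine ⟨⟨?_, ?_⟩, ?_⟩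
          · rw [hX]; exact mem_image_of_mem _ hw
          · rw [RR, mem_filter, mem_nb]
            refine ⟨hc.map' v z hvz, fun h => hnG ?_⟩
            have h3 := hc.map' v z hvz
            have h4 := hc.right v z hvz
            rw [h] at h4
            simp only at h4
            rwa [h4] at h3
          · exact (hc.adj' v w z hw'.1 hvz).1 hwz
        · rintro ⟨w, z⟩ h ⟨w', z'⟩ h' heq
          rw [mem_coe, hB, mem_sigma] at h h'
          simp only [WW, mem_filter, mem_inter, mem_nb] at h h'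
          simp only [Prod.mk.injEq] at heq
          rw [Sigma.mk.injEq]
          have e1 := hc.symm.inj h.1.1 h'.1.1 heq.1
          have e2 := hc.symm.inj h.2.1.1 h'.2.1.1 heq.2
          exact ⟨e1, heq_of_eq e2⟩
      exact_mod_cast this
    · have : (RR G ψ v).card ≤ d := (card_filter_le _ _).trans (card_nb hG v).le
      omega
  have hW0 : (0 : ℝ) ≤ (WW H θ v).card := by positivity
  have hR0 : (0 : ℝ) ≤ (RR G ψ v).card := by positivity
  have g1 : 40 * (d / n : ℝ) * X.card * (RR G ψ v).card ≤ (WW H θ v).card * (lo / 8) := by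
    calc 40 * (d / n : ℝ) * X.card * (RR G ψ v).card
        ≤ 40 * (d / n : ℝ) * (WW H θ v).card * ρ1 := by gcongr
      _ = (WW H θ v).card * (40 * (d / n : ℝ) * ρ1) := by ring
      _ ≤ _ := mul_le_mul_of_nonneg_left h1 hW0
  have g2 : 10 * (X.card + (RR G ψ v).card) * Real.log n ≤
      (WW H θ v).card * (lo / 8) + 10 * ρ1 * Real.log n := by
    calc 10 * (X.card + (RR G ψ v).card) * Real.log n
        ≤ 10 * ((WW H θ v).card + ρ1) * Real.log n := by gcongr
      _ = (WW H θ v).card * (10 * Real.log n) + 10 * ρ1 * Real.log n := by ring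
      _ ≤ _ := by
          have := mul_le_mul_of_nonneg_left h2 hW0
          linarith
  linarith

theorem Qv_le (hc : Chart G H ψ θ) (v : V) :
    (Qv H θ v).card ≤ (RR G ψ v).card + (WW H θ v).card := by
  have h1 : Qv H θ v ⊆ ((nb H v).filter fun w => θ v w ≠ w) ∪ WW H θ v := by
    intro w hw
    rw [Qv, mem_filter] at hw
    rw [mem_union, mem_filter, WW, mem_filter]
    rcases hw.2.2 with h | h
    · exact Or.inl ⟨hw.1, h⟩
    · exact Or.inr ⟨hw.1, h⟩
  have h2 : ((nb H v).filter fun w => θ v w ≠ w).card ≤ (RR G ψ v).card := by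
    refine card_le_card_of_injOn (θ v) ?_ ?_
    · intro w hw
      rw [mem_coe, mem_filter, mem_nb] at hw
      rw [mem_coe, RR, mem_filter, mem_nb, hc.right v w hw.1]
      exact ⟨hc.map' v w hw.1, hw.2.symm⟩
    · intro w hw w' hw' h
      rw [mem_coe, mem_filter, mem_nb] at hw hw'
      exact hc.symm.inj hw.1 hw'.1 h
  have := (card_le_card h1).trans (card_union_le _ _)
  omega

end Pool.Agent.H.MP_0fd30f_pr
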