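import Pool.Agent.H.MP_0fd30f_pr.Fine2

/-!
# The fine step: conclusion
-/

open Finset

namespace Pool.Agent.H.MP_0fd30f_pr

open scoped Classical

variable {V : Type*} [Fintype V] {G H : SimpleGraph V} {ψ θ : V → V → V}

theorem type_one (hc : Chart G H ψ θ) (lo t3 : ℝ) (hlo : ∀ g ∈ pairs V, lo ≤ cdg G g)
    (htrip : TripProp G t3) (ht3 : t3 ≤ lo / 2) {v w : V} (hM : MM H θ v w) :
    lo / 4 ≤ ((nb H w ∩ Qv H θ v).card : ℝ) ∨ lo / 4 ≤ ((nb H v ∩ Qv H θ w).card : ℝ) := by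
  -- a one-sided version
  have key : ∀ v w : V, H.Adj v w → θ w v ≠ v →
      lo / 2 ≤ ((nb H w ∩ Qv H θ v).card : ℝ) + ((nb H v ∩ Qv H θ w).card : ℝ) := by
    intro v w hvw hne
    have e1 := nice_le hc t3 htrip hvw hne
    have e2 : nb H v ∩ nb H w ⊆ ((nb H v ∩ nb H w).filter fun z => ¬ MM H θ w z ∧ G.Adj v z) ∪
        ((nb H w ∩ Qv H θ v) ∪ (nb H v ∩ Qv H θ w)) := by
      intro z hz
      have hz' := hz
      rw [mem_inter, mem_nb, mem_nb] at hz'
      rw [mem_union, mem_union, mem_inter, mem_inter, Qv, Qv, mem_filter, mem_filter, mem_filter]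
      by_cases c1 : MM H θ w z
      · right; right
        exact ⟨mem_nb.2 hz'.1, mem_nb.2 hz'.2, c1⟩
      · by_cases c2 : G.Adj v z
        · left; exact ⟨hz, c1, c2⟩
        · right; left
          refine ⟨mem_nb.2 hz'.2, mem_nb.2 hz'.1, ?_⟩
          by_contra c3
          have h3 := (not_MM hz'.1 c3).1
          have h4 := hc.map' v z hz'.1
          rw [h3] at h4
          exact c2 h4
    have e3 := (card_le_card e2).trans ((card_union_le _ _).trans
      (Nat.add_le_add_left (card_union_le _ _) _))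
    have e4 : ((nb H v ∩ nb H w).card : ℝ) ≤
        (((nb H v ∩ nb H w).filter fun z => ¬ MM H θ w z ∧ G.Adj v z).card : ℝ) +
        (((nb H w ∩ Qv H θ v).card : ℝ) + ((nb H v ∩ Qv H θ w).card : ℝ)) := by exact_mod_cast e3
    have e5 : lo ≤ ((nb H v ∩ nb H w).card : ℝ) := by
      rw [hc.codeg hvw]
      exact hlo _ (hc.pair_mem hvw)
    linarith
  rcases hM.2 with h | h
  · have h1 := key w v hM.1.symm h
    by_contra hcon
    push Not at hcon
    linarith [hcon.1, hcon.2]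
  · have h1 := key v w hM.1 h
    by_contra hcon
    push Not at hcon
    linarith [hcon.1, hcon.2]

/-- Moved neighbours of `v` with many moved common neighbours at `v`. -/
noncomputable def W1 (H : SimpleGraph V) (θ : V → V → V) (lo : ℝ) (v : V) : Finset V :=
  (Qv H θ v).filter fun w => lo / 4 ≤ ((nb H w ∩ Qv H θ v).card : ℝ)

theorem W1_le {d : ℕ} (hG : G ∈ regG V d) (hc : Chart G H ψ θ) (hD : DiscProp G d)
    (lo ρ : ℝ) (hd : 400 * d ≤ Fintype.card V) (v : V)
    (hρ : ((Qv H θ v).card : ℝ) ≤ ρ)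
    (h1 : 40 * (d / Fintype.card V : ℝ) * ρ ≤ lo / 16)
    (h2 : 10 * Real.log (Fintype.card V) ≤ lo / 16)
    (h3 : 1280 * Real.log (Fintype.card V) ≤ lo) (hlo0 : 0 < lo) :
    16 * ((W1 H θ lo v).card : ℝ) ≤ (Qv H θ v).card := by
  set n := Fintype.card V with hn
  have hinj : ∀ w ∈ nb H v, ∀ w' ∈ nb H v, θ v w = θ v w' → w = w' := by
    intro w hw w' hw' h
    rw [mem_nb] at hw hw'
    exact hc.symm.inj hw hw' h
  have hQsub : Qv H θ v ⊆ nb H v := filter_subset _ _
  have hWsub : W1 H θ lo v ⊆ Qv H θ v := filter_subset _ _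
  set X := (W1 H θ lo v).image (θ v) with hX
  set Y := (Qv H θ v).image (θ v) with hY
  have hXc : X.card = (W1 H θ lo v).card := card_image_of_injOn fun w hw w' hw' h =>
    hinj w (hQsub (hWsub hw)) w' (hQsub (hWsub hw')) h
  have hYc : Y.card = (Qv H θ v).card := card_image_of_injOn fun w hw w' hw' h =>
    hinj w (hQsub hw) w' (hQsub hw') h
  have hQd : (Qv H θ v).card ≤ d := by
    refine (card_filter_le _ _).trans ?_
    rw [hc.card_nb, card_nb hG]
  have h4 := disc_use hD (X := X) (Y := Y) (lo / 4) ρ (by rw [hYc]; omega) (by rw [hYc]; exact hρ)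
    (by linarith) (by linarith) (by
      intro x hx
      rw [hX, mem_image] at hx
      obtain ⟨w, hw, rfl⟩ := hx
      have hw' := hw
      rw [W1, mem_filter] at hw'
      refine hw'.2.trans ?_
      have hHw : H.Adj v w := mem_nb.1 (hQsub hw'.1)
      have : (nb H w ∩ Qv H θ v).card ≤ (nb G (θ v w) ∩ Y).card := by
        refine card_le_card_of_injOn (θ v) ?_ ?_
        · intro z hz
          rw [mem_coe, mem_inter, mem_nb] at hz
          rw [mem_coe, mem_inter, mem_nb]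
          refine ⟨(hc.adj' v w z hHw (mem_nb.1 (hQsub hz.2))).1 hz.1, ?_⟩
          rw [hY]; exact mem_image_of_mem _ hz.2
        · intro z hz z' hz' h
          rw [mem_coe, mem_inter] at hz hz'
          exact hinj z (hQsub hz.2) z' (hQsub hz'.2) h
      exact_mod_cast this)
  rw [hXc, hYc] at h4
  have h5 : (0 : ℝ) ≤ (Qv H θ v).card := by positivity
  have h6 : 20 * ((Qv H θ v).card : ℝ) * Real.log n ≤ (Qv H θ v).card * (lo / 64) := by
    have : 20 * Real.log n ≤ lo / 64 := by linarith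
    nlinarith
  have h7 : ((W1 H θ lo v).card : ℝ) * 16 * (lo / 64) ≤ (Qv H θ v).card * (lo / 64) := by
    linarith
  have h8 := le_of_mul_le_mul_right h7 (by positivity)
  linarith

/-- No edge is moved. -/
theorem QS_empty {d : ℕ} (hG : G ∈ regG V d) (hc : Chart G H ψ θ) (hD : DiscProp G d)
    (lo t t3 ρ : ℝ) (hlo : ∀ g ∈ pairs V, lo ≤ cdg G g)
    (htrip : TripProp G t3) (ht3 : t3 ≤ lo / 2)
    (hd : 400 * d ≤ Fintype.card V)
    (hρ : ∀ v, v ∉ IQ H θ t → ((Qv H θ v).card : ℝ) ≤ ρ)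
    (h1 : 40 * (d / Fintype.card V : ℝ) * ρ ≤ lo / 16)
    (h2 : 10 * Real.log (Fintype.card V) ≤ lo / 16)
    (h3 : 1280 * Real.log (Fintype.card V) ≤ lo) (hlo0 : 0 < lo)
    (hIQ : 4 * ((IQ H θ t).card : ℝ) * d ≤ (QS H θ).card) : QS H θ = ∅ := by
  set J := IQ H θ t with hJ
  set Pgg := (PM H θ).filter fun q => q.1 ∉ J ∧ q.2 ∉ J with hPgg
  set Pgb := (PM H θ).filter fun q => q.1 ∉ J ∧ q.2 ∈ J with hPgb
  set Pb := (PM H θ).filter fun q => q.1 ∈ J with hPb
  have hPM : (PM H θ).card ≤ Pgg.card + Pgb.card + Pb.card := by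
    refine (card_le_card ?_).trans ((card_union_le _ _).trans
      (Nat.add_le_add_right (card_union_le _ _) _))
    intro q hq
    rw [mem_union, mem_union, hPgg, hPgb, hPb, mem_filter, mem_filter, mem_filter]
    tauto
  have hdeg : ∀ v, (nb H v).card = d := fun v => by rw [hc.card_nb, card_nb hG]
  have hPb' : Pb.card ≤ J.card * d := by
    have : Pb ⊆ (J.sigma fun v => nb H v).image fun p => (p.1, p.2) := by
      rintro ⟨v, w⟩ hq
      rw [hPb, mem_filter, mem_PM] at hq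
      rw [mem_image]
      exact ⟨⟨v, w⟩, by rw [mem_sigma]; exact ⟨hq.2, mem_nb.2 hq.1.1⟩, rfl⟩
    refine (card_le_card this).trans (card_image_le.trans ?_)
    rw [card_sigma]
    simp_rw [hdeg]
    rw [Finset.sum_const, smul_eq_mul]
  have hPgb' : Pgb.card ≤ J.card * d := by
    have : Pgb ⊆ (J.sigma fun v => nb H v).image fun p => (p.2, p.1) := by
      rintro ⟨v, w⟩ hq
      rw [hPgb, mem_filter, mem_PM] at hq
      rw [mem_image]
      exact ⟨⟨w, v⟩, by rw [mem_sigma]; exact ⟨hq.2.2, mem_nb.2 hq.1.1.symm⟩, rfl⟩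
    refine (card_le_card this).trans (card_image_le.trans ?_)
    rw [card_sigma]
    simp_rw [hdeg]
    rw [Finset.sum_const, smul_eq_mul]
  set SW := (univ \ J).sigma fun v => W1 H θ lo v with hSW
  have hPgg1 : Pgg.card ≤ 2 * SW.card := by
    have : Pgg ⊆ (SW.image fun p => (p.1, p.2)) ∪ (SW.image fun p => (p.2, p.1)) := by
      rintro ⟨v, w⟩ hq
      rw [hPgg, mem_filter, mem_PM] at hq
      obtain ⟨hM, hv, hw⟩ := hq
      simp only at hM hv hw
      rw [mem_union, mem_image, mem_image]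
      rcases type_one hc lo t3 hlo htrip ht3 hM with h | h
      · left
        refine ⟨⟨v, w⟩, ?_, rfl⟩
        rw [hSW, mem_sigma, mem_sdiff, W1, mem_filter, Qv, mem_filter]
        exact ⟨⟨mem_univ _, hv⟩, ⟨mem_nb.2 hM.1, hM⟩, h⟩
      · right
        refine ⟨⟨w, v⟩, ?_, rfl⟩
        rw [hSW, mem_sigma, mem_sdiff, W1, mem_filter, Qv, mem_filter]
        exact ⟨⟨mem_univ _, hw⟩, ⟨mem_nb.2 hM.1.symm, hM.symm⟩, h⟩
    refine (card_le_card this).trans ((card_union_le _ _).trans ?_)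
    have a1 := card_image_le (s := SW) (f := fun p => ((p.1, p.2) : V × V))
    have a2 := card_image_le (s := SW) (f := fun p => ((p.2, p.1) : V × V))
    omega
  have hSW1 : 16 * (SW.card : ℝ) ≤ Pgg.card + Pgb.card := by
    have e1 : 16 * (SW.card : ℝ) ≤ ∑ v ∈ univ \ J, ((Qv H θ v).card : ℝ) := by
      rw [hSW, card_sigma]
      push_cast
      rw [Finset.mul_sum]
      refine Finset.sum_le_sum fun v hv => ?_
      rw [mem_sdiff] at hv
      exact W1_le hG hc hD lo ρ hd v (hρ v hv.2) h1 h2 h3 hlo0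
    have e2 : ∑ v ∈ univ \ J, (Qv H θ v).card ≤ Pgg.card + Pgb.card := by
      rw [← card_sigma]
      have : ((univ \ J).sigma fun v => Qv H θ v) ⊆
          (Pgg.image fun q => (⟨q.1, q.2⟩ : Σ _ : V, V)) ∪
          (Pgb.image fun q => (⟨q.1, q.2⟩ : Σ _ : V, V)) := by
        rintro ⟨v, w⟩ h
        rw [mem_sigma, mem_sdiff, Qv, mem_filter] at h
        simp only at h
        rw [mem_union, mem_image, mem_image]
        by_cases hw : w ∈ J
        · right
          refine ⟨(v, w), ?_, rfl⟩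
          rw [hPgb, mem_filter, mem_PM]
          exact ⟨h.2.2, h.1.2, hw⟩
        · left
          refine ⟨(v, w), ?_, rfl⟩
          rw [hPgg, mem_filter, mem_PM]
          exact ⟨h.2.2, h.1.2, hw⟩
      exact (card_le_card this).trans ((card_union_le _ _).trans
        (Nat.add_le_add card_image_le card_image_le))
    have e3 : ∑ v ∈ univ \ J, ((Qv H θ v).card : ℝ) ≤ Pgg.card + Pgb.card := by exact_mod_cast e2
    linarith
  have g1 : (Pgg.card : ℝ) ≤ 2 * SW.card := by exact_mod_cast hPgg1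
  have g2 : (Pgb.card : ℝ) ≤ J.card * d := by exact_mod_cast hPgb'
  have g3 : (Pb.card : ℝ) ≤ J.card * d := by exact_mod_cast hPb'
  have g4 : ((PM H θ).card : ℝ) ≤ Pgg.card + Pgb.card + Pb.card := by exact_mod_cast hPM
  have g5 : ((QS H θ).card : ℝ) ≤ (PM H θ).card := by exact_mod_cast card_QS_le_PM
  have g6 : ((QS H θ).card : ℝ) ≤ 0 := by linarith
  have g7 : (QS H θ).card = 0 := by
    have : (QS H θ).card ≤ 0 := by exact_mod_cast g6
    omega
  exact card_eq_zero.1 g7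

theorem fixed_of_QS_empty (hc : Chart G H ψ θ) (h : QS H θ = ∅) (v x : V) (hx : G.Adj v x) :
    ψ v x = x := by
  have h1 := hc.map v x hx
  have h2 : ¬ MM H θ v (ψ v x) := by
    intro hM
    have := mem_QS.2 hM
    rw [h] at this
    simp at this
  have h3 := (not_MM h1 h2).1
  rw [hc.left v x hx] at h3
  exact h3.symm

/-- Deterministic part of the sparse case. -/
theorem sparse_det {V : Type} [Fintype V] {G : SimpleGraph V} {d k m a : ℕ}
    (hG : G ∈ regG V d) (lo hi t3 t s s1 B : ℝ)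
    (hd0 : 0 < d) (hd400 : 400 * d ≤ Fintype.card V)
    (hlo2 : 4 ≤ lo) (hlohi : lo ≤ hi)
    (hlo : ∀ g ∈ pairs V, lo ≤ cdg G g) (hhi : ∀ g ∈ pairs V, (cdg G g : ℝ) ≤ hi)
    (htrip : TripProp G t3) (ht3 : t3 ≤ lo / 2)
    (hD : DiscProp G d) (hcov : CoverProp G d) (hmap : MapProp G d k)
    (hresp : ∀ (J : Fin m → V) (ψ : V → V → V),
      (∀ k l, ∀ g ∈ pairs V, ∀ g' ∈ pairs V, cov G (J k) g → cov G (J l) g' →
        Sym2.map (ψ (J l)) g' = Sym2.map (ψ (J k)) g → (g ∈ G.edgeSet ↔ g' ∈ G.edgeSet)) →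
      ((bad1 G J ψ).card : ℝ) ≤ B)
    -- sampling
    (hm : 2 ≤ m) (hmn : m ≤ Fintype.card V)
    (hτ1 : 8 * Real.log (Fintype.card V) ≤ m * lo / Fintype.card V)
    (hτ2 : m * hi / Fintype.card V + 8 * Real.log (Fintype.card V) ≤ a * Real.log 2)
    -- majority
    (hk : 6 * (k : ℝ) + hi ^ 2 < d * lo / 2)
    -- the bound for the moved edges
    (q : ℝ)
    (hq : 8 * (Fintype.card V : ℝ) ^ 2 * (2 * B * a ^ 2 + 1) *
      (1 + (1 + 2 * (hi / lo)) * (4 * (hi / lo))) ≤ q * (m ^ 2 * d * lo))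
    -- fine step
    (ht : 0 < t) (hs : 0 < s) (hss : s ≤ s1) (hts : 80 * d * Real.log (Fintype.card V) * s = t)
    (f1 : 40 * (d / Fintype.card V : ℝ) * s1 ≤ s / 4)
    (f2 : 10 * Real.log (Fintype.card V) ≤ s / 4)
    (f3 : 40 * (d / Fintype.card V : ℝ) * (2 * hi * q / t) ≤ s1 / 4)
    (f3' : 400 * (2 * hi * q / t) ≤ Fintype.card V)
    (f4 : 80 * hi * d * Real.log (Fintype.card V) ≤ t * s)
    (f5 : 32 * ((2 * hi * q / t) * d + q) * Real.log (Fintype.card V) + 8 ≤ Fintype.card V * d)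
    (ρ1 : ℝ) (hρ1 : 6 * k + t ≤ ρ1 * (lo - 1))
    (f6 : 40 * (d / Fintype.card V : ℝ) * ρ1 ≤ lo / 8)
    (f7 : 1280 * Real.log (Fintype.card V) ≤ lo)
    (ρ2 : ℝ) (hρ2 : t + 10 * ρ1 * Real.log (Fintype.card V) ≤ ρ2 * (lo / 4))
    (f8 : 40 * (d / Fintype.card V : ℝ) * (ρ1 + ρ2) ≤ lo / 16) :
    Reconstructable G := by
  refine reconstructable_of_fixed G fun H ψ θ hc v x hvx => ?_
  set n := Fintype.card V with hn
  have hlo0 : 0 < lo := by linarith
  have hd0' : (0 : ℝ) < d := by exact_mod_cast hd0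
  have hm0 : (0 : ℝ) < m := by exact_mod_cast (by omega : 0 < m)
  -- coarse step
  have hbad : ∀ J : Fin m → V, ((bad1 G J ψ).card : ℝ) ≤ B := by
    intro J
    refine hresp J ψ fun k l g _ g' _ h1 h2 h3 => ?_
    rw [hc.map_mem h1, hc.map_mem h2, h3]
  have c1 := incCount_le hc hm hmn lo hi B (8 * Real.log n) a hlo hhi hbad hτ1 hτ2 le_rfl
  have c2 := incV_le hc lo hlo
  obtain ⟨σ, c3⟩ := exists_majority (ψ := ψ) hG hd0
  have c3' : (d : ℝ) * (dev G ψ σ).card ≤ (incV G ψ).card := by exact_mod_cast c3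
  have c4 := moved_le hG hd0 hc lo hi hlo0 hlohi hlo hhi hmap hk σ
  set r := hi / lo with hr
  have hr1 : 1 ≤ r := by rw [hr, le_div_iff₀ hlo0]; linarith
  set Cr := 1 + (1 + 2 * r) * (4 * r) with hCr
  have hCr0 : 0 < Cr := by positivity
  have c5 : ((moved G ψ).card : ℝ) ≤ q := by
    -- dev * (d m^2 lo) ≤ 8 n^2 (2Ba^2+1)
    have e1 : ((incV G ψ).card : ℝ) * (lo / 2) ≤ 2 * incCount G ψ := by
      refine le_trans (mul_le_mul_of_nonneg_left (by linarith) (by positivity)) c2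
    have e2 : ((dev G ψ σ).card : ℝ) * (m ^ 2 * d * lo) ≤ 8 * (n : ℝ) ^ 2 * (2 * B * a ^ 2 + 1) := by
      calc ((dev G ψ σ).card : ℝ) * (m ^ 2 * d * lo)
          = (d * (dev G ψ σ).card) * (lo / 2) * (2 * m ^ 2) := by ring
        _ ≤ (incV G ψ).card * (lo / 2) * (2 * m ^ 2) := by gcongr
        _ ≤ (2 * incCount G ψ) * (2 * m ^ 2) := by gcongr
        _ = 4 * ((m : ℝ) ^ 2 * incCount G ψ) := by ring
        _ ≤ 4 * (2 * (n : ℝ) ^ 2 * (2 * B * a ^ 2 + 1)) := by linarith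
        _ = _ := by ring
    have e3 : ((moved G ψ).card : ℝ) * (m ^ 2 * d * lo) ≤ q * (m ^ 2 * d * lo) := by
      calc ((moved G ψ).card : ℝ) * (m ^ 2 * d * lo)
          ≤ ((dev G ψ σ).card * Cr) * (m ^ 2 * d * lo) := by gcongr
        _ = ((dev G ψ σ).card * (m ^ 2 * d * lo)) * Cr := by ring
        _ ≤ (8 * (n : ℝ) ^ 2 * (2 * B * a ^ 2 + 1)) * Cr := by gcongr
        _ ≤ _ := hq
    exact le_of_mul_le_mul_right e3 (by positivity)
  have c6 : ((QS H θ).card : ℝ) ≤ q := by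
    refine le_trans ?_ c5
    exact_mod_cast card_QS_le_moved hc
  have hhi0 : 0 < hi := by linarith
  have hq0 : 0 ≤ q := le_trans (by positivity) c6
  have c7 : ((IQ H θ t).card : ℝ) ≤ 2 * hi * q / t := by
    rw [le_div_iff₀ ht]
    have e1 := IQ_trivial hc hi t hhi
    have e2 : ((PM H θ).card : ℝ) ≤ 2 * (QS H θ).card := by exact_mod_cast card_PM_le
    calc ((IQ H θ t).card : ℝ) * t ≤ hi * (PM H θ).card := e1
      _ ≤ hi * (2 * q) := by gcongr; linarith
      _ = _ := by ring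
  have hlog : 0 ≤ Real.log n := Real.log_natCast_nonneg _
  have c8 : 4 * ((IQ H θ t).card : ℝ) * d ≤ (QS H θ).card := by
    refine IQ_small hG hc hD hcov hi s s1 t hhi hs hss hts hd0 hd400 f1 f2 ?_ ?_ f4 ?_
    · refine le_trans ?_ f3
      gcongr
    · have : (400 : ℝ) * (IQ H θ t).card ≤ n := by linarith
      exact_mod_cast this
    · refine le_trans ?_ f5
      gcongr
  have c9 : ∀ v, v ∉ IQ H θ t → ((Qv H θ v).card : ℝ) ≤ ρ1 + ρ2 := by
    intro v hv
    rw [IQ, mem_filter] at hv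
    simp only [mem_univ, true_and, not_le] at hv
    have e1 := RR_le hG hc lo t hlo hmap v hv.le
    have e2 : ((RR G ψ v).card : ℝ) ≤ ρ1 := by
      have : ((RR G ψ v).card : ℝ) * (lo - 1) ≤ ρ1 * (lo - 1) := e1.trans hρ1
      exact le_of_mul_le_mul_right this (by linarith)
    have e3 := WW_le hG hc hD lo t t3 ρ1 hlo htrip ht3 hd400 v hv.le e2 f6 (by linarith)
    have e4 : ((WW H θ v).card : ℝ) ≤ ρ2 := by
      have : ((WW H θ v).card : ℝ) * (lo / 4) ≤ ρ2 * (lo / 4) := e3.trans hρ2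
      exact le_of_mul_le_mul_right this (by linarith)
    have e5 : ((Qv H θ v).card : ℝ) ≤ (RR G ψ v).card + (WW H θ v).card := by
      exact_mod_cast Qv_le hc v
    linarith
  have c10 := QS_empty hG hc hD lo t t3 (ρ1 + ρ2) hlo htrip ht3 hd400 c9 f8 (by linarith) f7 hlo0 c8
  exact fixed_of_QS_empty hc c10 v x hvx

end Pool.Agent.H.MP_0fd30f_pr
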