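import Pool.Agent.H.MP_0fd30f_pr.Sampling

/-!
# From coherence of charts to a trivial labelling
-/

open Finset

namespace Pool.Agent.H.MP_0fd30f_pr

open scoped Classical

variable {V : Type*} [Fintype V] {G H : SimpleGraph V} {ψ θ : V → V → V}

theorem cdg_mk (x y : V) : cdg G s(x, y) = (nb G x ∩ nb G y).card := by
  rw [cdg]
  congr 1
  ext i
  rw [mem_filter, mem_inter, mem_nb, mem_nb, cov]
  simp [G.adj_comm]

/-- Vertex incoherences. -/
noncomputable def incV (G : SimpleGraph V) (ψ : V → V → V) : Finset (V × V × V) :=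
  univ.filter fun q => G.Adj q.1 q.2.2 ∧ G.Adj q.2.1 q.2.2 ∧ ψ q.1 q.2.2 ≠ ψ q.2.1 q.2.2

theorem incV_le (hc : Chart G H ψ θ) (lo : ℝ) (hlo : ∀ g ∈ pairs V, lo ≤ cdg G g) :
    ((incV G ψ).card : ℝ) * (lo - 2) ≤ 2 * incCount G ψ := by
  set Ys : V × V × V → Finset V := fun q => (nb G q.1 ∩ nb G q.2.1).filter fun y => y ≠ q.2.2 ∧
    Sym2.map (ψ q.1) s(q.2.2, y) ≠ Sym2.map (ψ q.2.1) s(q.2.2, y) with hYs
  have h1 : ∀ q ∈ incV G ψ, lo - 2 ≤ (Ys q).card := by
    rintro ⟨i, j, x⟩ hq
    simp only [incV, mem_filter, mem_univ, true_and] at hq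
    obtain ⟨hix, hjx, hne⟩ := hq
    have hij : i ≠ j := by rintro rfl; exact hne rfl
    set E := (nb G j).filter fun y => ψ j y = ψ i x with hE
    have hEc : E.card ≤ 1 := by
      rw [card_le_one]
      intro y hy y' hy'
      rw [hE, mem_filter, mem_nb] at hy hy'
      exact hc.inj hy.1 hy'.1 (hy.2.trans hy'.2.symm)
    have hsub : nb G i ∩ nb G j ⊆ Ys (i, j, x) ∪ ({x} ∪ E) := by
      intro y hy
      rw [mem_union, mem_union, mem_singleton]
      by_cases hyx : y = x
      · right; left; exact hyx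
      by_cases hE' : y ∈ E
      · right; right; exact hE'
      left
      simp only [hYs, mem_filter]
      refine ⟨hy, hyx, fun h => ?_⟩
      rw [mem_inter, mem_nb, mem_nb] at hy
      rw [Sym2.map_mk, Sym2.map_mk, Sym2.eq_iff] at h
      rcases h with h | h
      · exact hne h.1
      · apply hE'
        rw [hE, mem_filter, mem_nb]
        exact ⟨hy.2, h.1.symm⟩
    have h2 := (card_le_card hsub).trans ((card_union_le _ _).trans
      (Nat.add_le_add_left (card_union_le _ _) _))
    rw [card_singleton] at h2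
    have h3 := hlo s(i, j) (by rw [mem_pairs, Sym2.mk_isDiag_iff]; exact hij)
    rw [cdg_mk] at h3
    have h4 : ((nb G i ∩ nb G j).card : ℝ) ≤ (Ys (i, j, x)).card + 2 := by
      exact_mod_cast (by omega : (nb G i ∩ nb G j).card ≤ (Ys (i, j, x)).card + 2)
    linarith
  set P := (incV G ψ).sigma Ys with hP
  have h2 : ((incV G ψ).card : ℝ) * (lo - 2) ≤ P.card := by
    rw [hP, card_sigma]
    push_cast
    rw [← nsmul_eq_mul, ← Finset.sum_const]
    exact Finset.sum_le_sum h1
  have h3 : P.card ≤ 2 * incCount G ψ := by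
    rw [incCount]
    set IC := (univ ×ˢ (univ ×ˢ pairs V)).filter
      fun q : V × V × Sym2 V => inc G ψ q.1 q.2.1 q.2.2 with hIC
    have hfib : P.card ≤ ∑ r ∈ IC,
        (P.filter fun p => (p.1.1, p.1.2.1, s(p.1.2.2, p.2)) = r).card := by
      rw [← card_biUnion]
      · refine card_le_card fun p hp => ?_
        rw [mem_biUnion]
        refine ⟨(p.1.1, p.1.2.1, s(p.1.2.2, p.2)), ?_, ?_⟩
        · obtain ⟨⟨i, j, x⟩, y⟩ := p
          rw [hP, mem_sigma] at hp
          simp only [hYs, incV, mem_filter, mem_univ, true_and, mem_inter, mem_nb] at hp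
          rw [hIC, mem_filter, mem_product, mem_product, mem_pairs, Sym2.mk_isDiag_iff]
          refine ⟨⟨mem_univ _, mem_univ _, fun h => hp.2.2.1 h.symm⟩, ?_, ?_, hp.2.2.2⟩
          · intro z hz
            rw [Sym2.mem_iff] at hz
            rcases hz with rfl | rfl
            · exact hp.1.1
            · exact hp.2.1.1
          · intro z hz
            rw [Sym2.mem_iff] at hz
            rcases hz with rfl | rfl
            · exact hp.1.2.1
            · exact hp.2.1.2
        · rw [mem_filter]; exact ⟨hp, rfl⟩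
      · intro r _ r' _ hne
        rw [Function.onFun, disjoint_left]
        intro p hp hp'
        rw [mem_filter] at hp hp'
        exact hne (hp.2.symm.trans hp'.2)
    refine hfib.trans ?_
    rw [mul_comm, ← smul_eq_mul, ← Finset.sum_const]
    refine Finset.sum_le_sum fun r _ => ?_
    obtain ⟨i, j, g⟩ := r
    induction g with
    | h x y =>
      have : (P.filter fun p => (p.1.1, p.1.2.1, s(p.1.2.2, p.2)) = (i, j, s(x, y))) ⊆
          {⟨(i, j, x), y⟩, ⟨(i, j, y), x⟩} := by
        rintro ⟨⟨i', j', x'⟩, y'⟩ hp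
        rw [mem_filter] at hp
        have h4 := hp.2
        simp only [Prod.mk.injEq, Sym2.eq_iff] at h4
        obtain ⟨rfl, rfl, h5⟩ := h4
        rw [mem_insert, mem_singleton]
        rcases h5 with ⟨rfl, rfl⟩ | ⟨rfl, rfl⟩
        · left; rfl
        · right; rfl
      exact (card_le_card this).trans card_le_two
  have h4 : (P.card : ℝ) ≤ 2 * incCount G ψ := by exact_mod_cast h3
  linarith

/-- The vertices `i` near `x` whose chart does not map `x` to `σ x`. -/
noncomputable def dev (G : SimpleGraph V) (ψ : V → V → V) (σ : V → V) : Finset (V × V) :=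
  univ.filter fun q => G.Adj q.1 q.2 ∧ ψ q.1 q.2 ≠ σ q.2

theorem exists_majority {d : ℕ} (hG : G ∈ regG V d) (hd : 0 < d) :
    ∃ σ : V → V, d * (dev G ψ σ).card ≤ (incV G ψ).card := by
  have h1 : ∀ x : V, ∃ s : V, d * (univ.filter fun i => G.Adj i x ∧ ψ i x ≠ s).card ≤
      (univ.filter fun q : V × V => G.Adj q.1 x ∧ G.Adj q.2 x ∧ ψ q.1 x ≠ ψ q.2 x).card := by
    intro x
    have hne : (nb G x).Nonempty := by
      rw [← card_pos, card_nb hG]; exact hd
    obtain ⟨j, hj, hmin⟩ := exists_min_image (nb G x)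
      (fun j => (univ.filter fun i => G.Adj i x ∧ ψ i x ≠ ψ j x).card) hne
    refine ⟨ψ j x, ?_⟩
    have h2 : (univ.filter fun q : V × V => G.Adj q.1 x ∧ G.Adj q.2 x ∧ ψ q.1 x ≠ ψ q.2 x).card =
        ∑ j ∈ nb G x, (univ.filter fun i => G.Adj i x ∧ ψ i x ≠ ψ j x).card := by
      rw [← card_sigma]
      refine card_bij' (fun q _ => ⟨q.2, q.1⟩) (fun q _ => (q.2, q.1)) ?_ ?_ ?_ ?_
      · rintro ⟨i, j⟩ h
        simp only [mem_filter, mem_univ, true_and] at h
        rw [mem_sigma, mem_nb, mem_filter]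
        exact ⟨h.2.1.symm, mem_univ _, h.1, h.2.2⟩
      · rintro ⟨j, i⟩ h
        rw [mem_sigma, mem_nb, mem_filter] at h
        simp only [mem_filter, mem_univ, true_and]
        exact ⟨h.2.2.1, h.1.symm, h.2.2.2⟩
      · rintro ⟨i, j⟩ _; rfl
      · rintro ⟨j, i⟩ _; rfl
    rw [h2]
    calc d * (univ.filter fun i => G.Adj i x ∧ ψ i x ≠ ψ j x).card
        = ∑ _j ∈ nb G x, (univ.filter fun i => G.Adj i x ∧ ψ i x ≠ ψ j x).card := by
          rw [Finset.sum_const, card_nb hG, smul_eq_mul]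
      _ ≤ _ := Finset.sum_le_sum fun j' hj' => hmin j' hj'
  choose σ hσ using h1
  refine ⟨σ, ?_⟩
  have h2 : (dev G ψ σ).card = ∑ x : V, (univ.filter fun i => G.Adj i x ∧ ψ i x ≠ σ x).card := by
    rw [dev, card_filter, Fintype.sum_prod_type_right]
    refine Finset.sum_congr rfl fun x _ => ?_
    rw [card_filter]
  have h3 : (incV G ψ).card = ∑ x : V,
      (univ.filter fun q : V × V => G.Adj q.1 x ∧ G.Adj q.2 x ∧ ψ q.1 x ≠ ψ q.2 x).card := by
    rw [incV, card_filter]
    simp_rw [card_filter, Fintype.sum_prod_type]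
    rw [Finset.sum_congr rfl fun i _ => Finset.sum_comm]
    rw [Finset.sum_comm]
  rw [h2, h3, Finset.mul_sum]
  exact Finset.sum_le_sum fun x _ => hσ x

/-- The moved directed edges. -/
noncomputable def moved (G : SimpleGraph V) (ψ : V → V → V) : Finset (V × V) :=
  univ.filter fun q => G.Adj q.1 q.2 ∧ ψ q.1 q.2 ≠ q.2

end Pool.Agent.H.MP_0fd30f_pr
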