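import Pool.Agent.H.MP_0fd30f_pr.Majority

/-!
# The number of moved directed edges is small
-/

open Finset

namespace Pool.Agent.H.MP_0fd30f_pr

open scoped Classical

variable {V : Type*} [Fintype V] {G H : SimpleGraph V} {ψ θ : V → V → V}

/-- The property of `G` given by `map_bound`. -/
def MapProp (G : SimpleGraph V) (d k : ℕ) : Prop :=
  ∀ (S : Finset V) (b : V → V), S.card ≤ d → Set.InjOn b S →
    ((pairs V).filter fun e => (∀ x ∈ e, x ∈ S) ∧ e ∈ G.edgeSet ∧
      Sym2.map b e ∈ G.edgeSet ∧ Sym2.map b e ≠ e).card < 3 * k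

/-- Adjacent pairs with no coherent common neighbour. -/
noncomputable def badE (G : SimpleGraph V) (ψ : V → V → V) (σ : V → V) : Finset (V × V) :=
  univ.filter fun q => G.Adj q.1 q.2 ∧
    ∀ i, G.Adj i q.1 → G.Adj i q.2 → ψ i q.1 ≠ σ q.1 ∨ ψ i q.2 ≠ σ q.2

theorem badE_le (σ : V → V) (lo hi : ℝ) (hlo : ∀ g ∈ pairs V, lo ≤ cdg G g)
    (hhi : ∀ g ∈ pairs V, (cdg G g : ℝ) ≤ hi) :
    ((badE G ψ σ).card : ℝ) * lo ≤ 2 * (hi * (dev G ψ σ).card) := by
  set W := (badE G ψ σ).sigma fun q => nb G q.1 ∩ nb G q.2 with hW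
  set W1 := (dev G ψ σ).sigma fun q => nb G q.1 ∩ nb G q.2 with hW1
  have h1 : ((badE G ψ σ).card : ℝ) * lo ≤ W.card := by
    rw [hW, card_sigma]
    push_cast
    rw [← nsmul_eq_mul, ← Finset.sum_const]
    refine Finset.sum_le_sum fun q hq => ?_
    simp only [badE, mem_filter, mem_univ, true_and] at hq
    rw [← cdg_mk]
    exact hlo _ (by rw [mem_pairs, Sym2.mk_isDiag_iff]; exact hq.1.ne)
  have h2 : (W1.card : ℝ) ≤ hi * (dev G ψ σ).card := by
    rw [hW1, card_sigma]
    push_cast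
    rw [mul_comm, ← nsmul_eq_mul, ← Finset.sum_const]
    refine Finset.sum_le_sum fun q hq => ?_
    simp only [dev, mem_filter, mem_univ, true_and] at hq
    rw [← cdg_mk]
    exact hhi _ (by rw [mem_pairs, Sym2.mk_isDiag_iff]; exact hq.1.ne)
  have h3 : W.card ≤ 2 * W1.card := by
    have h4 : W ⊆ (W1.image fun p => (⟨(p.1.2, p.2), p.1.1⟩ : Σ _ : V × V, V)) ∪
        (W1.image fun p => (⟨(p.2, p.1.2), p.1.1⟩ : Σ _ : V × V, V)) := by
      rintro ⟨⟨x, y⟩, i⟩ h
      rw [hW, mem_sigma] at h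
      simp only [badE, mem_filter, mem_univ, true_and, mem_inter, mem_nb] at h
      obtain ⟨⟨hxy, hbad⟩, hxi, hyi⟩ := h
      rw [mem_union, mem_image, mem_image]
      rcases hbad i hxi.symm hyi.symm with hb | hb
      · left
        refine ⟨⟨(i, x), y⟩, ?_, rfl⟩
        rw [hW1, mem_sigma]
        simp only [dev, mem_filter, mem_univ, true_and, mem_inter, mem_nb]
        exact ⟨⟨hxi.symm, hb⟩, hyi.symm, hxy⟩
      · right
        refine ⟨⟨(i, y), x⟩, ?_, rfl⟩
        rw [hW1, mem_sigma]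
        simp only [dev, mem_filter, mem_univ, true_and, mem_inter, mem_nb]
        exact ⟨⟨hyi.symm, hb⟩, hxi.symm, hxy.symm⟩
    refine (card_le_card h4).trans ((card_union_le _ _).trans ?_)
    have := card_image_le (s := W1) (f := fun p => (⟨(p.1.2, p.2), p.1.1⟩ : Σ _ : V × V, V))
    have := card_image_le (s := W1) (f := fun p => (⟨(p.2, p.1.2), p.1.1⟩ : Σ _ : V × V, V))
    omega
  have h3' : (W.card : ℝ) ≤ 2 * W1.card := by exact_mod_cast h3
  linarith

theorem fixed_of_nice {d k : ℕ} (hG : G ∈ regG V d) (hc : Chart G H ψ θ) (lo hi : ℝ)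
    (hlo0 : 0 < lo) (hlo : ∀ g ∈ pairs V, lo ≤ cdg G g)
    (hhi : ∀ g ∈ pairs V, (cdg G g : ℝ) ≤ hi)
    (hmap : MapProp G d k) (hk : 6 * (k : ℝ) + hi ^ 2 < d * lo / 2) (σ : V → V) (x : V)
    (hx : (((nb G x).filter fun y => ψ x y ≠ σ y ∨ (x, y) ∈ badE G ψ σ).card : ℝ) * (4 * hi) ≤
      lo * d) : σ x = x := by
  by_contra hne
  set j := σ x with hj
  set S := (nb G x).filter fun z => H.Adj j (ψ x z) with hS
  set E := (nb G x).filter fun y => ψ x y ≠ σ y ∨ (x, y) ∈ badE G ψ σ with hE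
  set b : V → V := fun z => θ j (ψ x z) with hb
  have hSin : ∀ z ∈ S, G.Adj x z ∧ H.Adj j (ψ x z) := by
    intro z hz
    rw [hS, mem_filter, mem_nb] at hz; exact hz
  have hSE : nb G x ⊆ S ∪ E := by
    intro y hy
    rw [mem_union]
    by_cases hyE : y ∈ E
    · right; exact hyE
    · left
      rw [hE, mem_filter] at hyE
      simp only [hy, true_and, not_or, not_not] at hyE
      obtain ⟨h1, h2⟩ := hyE
      rw [hS, mem_filter]
      refine ⟨hy, ?_⟩
      rw [mem_nb] at hy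
      simp only [badE, mem_filter, mem_univ, true_and, hy, not_forall, not_or, not_not] at h2
      obtain ⟨i, hix, hiy, e1, e2⟩ := h2
      have h3 := (hc.adj i x y hix hiy).1 hy
      rw [e1, e2] at h3
      rw [h1]
      exact h3
  have hinj : Set.InjOn b S := by
    intro z hz w hw hzw
    have h1 := hSin z hz
    have h2 := hSin w hw
    exact hc.inj h1.1 h2.1 (hc.symm.inj h1.2 h2.2 hzw)
  have hScard : S.card ≤ d := (card_filter_le _ _).trans (card_nb hG x).le
  have hm := hmap S b hScard hinj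
  -- ordered edges
  set Q := (S ×ˢ S).filter fun q => G.Adj q.1 q.2 with hQ
  set N := (nb G x).sigma fun z => nb G z ∩ nb G x with hN
  have hNcard : (d : ℝ) * lo ≤ N.card := by
    rw [hN, card_sigma]
    push_cast
    calc (d : ℝ) * lo = ∑ _z ∈ nb G x, lo := by
          rw [Finset.sum_const, card_nb hG, nsmul_eq_mul]
      _ ≤ _ := by
          refine Finset.sum_le_sum fun z hz => ?_
          rw [mem_nb] at hz
          rw [← cdg_mk]
          exact hlo _ (by rw [mem_pairs, Sym2.mk_isDiag_iff]; exact hz.ne.symm)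
  set N1 := E.sigma fun z => nb G z ∩ nb G x with hN1
  have hN1card : (N1.card : ℝ) ≤ E.card * hi := by
    rw [hN1, card_sigma]
    push_cast
    rw [← nsmul_eq_mul, ← Finset.sum_const]
    refine Finset.sum_le_sum fun z hz => ?_
    rw [hE, mem_filter, mem_nb] at hz
    rw [← cdg_mk]
    exact hhi _ (by rw [mem_pairs, Sym2.mk_isDiag_iff]; exact hz.1.ne.symm)
  have hNsub : N ⊆ (Q.image fun q => (⟨q.1, q.2⟩ : Σ _ : V, V)) ∪
      (N1 ∪ N1.image fun p => (⟨p.2, p.1⟩ : Σ _ : V, V)) := by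
    rintro ⟨z, w⟩ h
    rw [hN, mem_sigma] at h
    simp only [mem_inter] at h
    obtain ⟨hz, hw1, hw2⟩ := h
    rw [mem_union, mem_union, mem_image, mem_image]
    rcases mem_union.1 (hSE hz) with hzS | hzE
    · rcases mem_union.1 (hSE hw2) with hwS | hwE
      · left
        refine ⟨(z, w), ?_, rfl⟩
        rw [hQ, mem_filter, mem_product]
        exact ⟨⟨hzS, hwS⟩, mem_nb.1 hw1⟩
      · right; right
        refine ⟨⟨w, z⟩, ?_, rfl⟩
        rw [hN1, mem_sigma]
        simp only [mem_inter, mem_nb]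
        exact ⟨hwE, (mem_nb.1 hw1).symm, mem_nb.1 hz⟩
    · right; left
      rw [hN1, mem_sigma]
      simp only [mem_inter]
      exact ⟨hzE, hw1, hw2⟩
  have hQlow : (d : ℝ) * lo / 2 ≤ Q.card := by
    have h1 := (card_le_card hNsub).trans ((card_union_le _ _).trans
      (Nat.add_le_add card_image_le ((card_union_le _ _).trans
        (Nat.add_le_add_left card_image_le _))))
    have h2 : (N.card : ℝ) ≤ Q.card + (N1.card + N1.card) := by exact_mod_cast h1
    have h3 : (E.card : ℝ) * hi ≤ lo * d / 4 := by linarith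
    linarith
  -- upper bound for Q
  set F := ((pairs V).filter fun e => (∀ x ∈ e, x ∈ S) ∧ e ∈ G.edgeSet ∧
      Sym2.map b e ∈ G.edgeSet ∧ Sym2.map b e ≠ e) with hF
  have hQsub : Q ⊆ (univ.filter fun p : V × V => s(p.1, p.2) ∈ F) ∪
      ((nb G x ∩ nb G j) ×ˢ (nb G x ∩ nb G j)) := by
    rintro ⟨z, w⟩ h
    rw [hQ, mem_filter, mem_product] at h
    obtain ⟨⟨hz, hw⟩, hzw⟩ := h
    simp only at hz hw hzw
    have h1 := hSin z hz
    have h2 := hSin w hw
    have h3 : G.Adj (b z) (b w) :=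
      (hc.adj' j _ _ h1.2 h2.2).1 ((hc.adj x z w h1.1 h2.1).1 hzw)
    have h4 : G.Adj j (b z) := hc.map' j _ h1.2
    have h5 : G.Adj j (b w) := hc.map' j _ h2.2
    rw [mem_union, mem_filter, mem_product, mem_inter, mem_inter]
    by_cases heq : Sym2.map b s(z, w) = s(z, w)
    · right
      rw [Sym2.map_mk, Sym2.eq_iff] at heq
      simp only [mem_nb]
      rcases heq with ⟨e1, e2⟩ | ⟨e1, e2⟩
      · rw [e1] at h4; rw [e2] at h5
        exact ⟨⟨h1.1, h4⟩, h2.1, h5⟩
      · rw [e1] at h4; rw [e2] at h5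
        exact ⟨⟨h1.1, h5⟩, h2.1, h4⟩
    · left
      refine ⟨mem_univ _, ?_⟩
      rw [hF, mem_filter, mem_pairs, Sym2.mk_isDiag_iff]
      refine ⟨hzw.ne, ?_, hzw, ?_, heq⟩
      · intro y hy
        rw [Sym2.mem_iff] at hy
        rcases hy with rfl | rfl
        · exact hz
        · exact hw
      · rw [Sym2.map_mk]; exact h3
  have h1 := (card_le_card hQsub).trans (card_union_le _ _)
  have h2 := Pool.Agent.H.MP_ccfaf0_pr.card_sym2_le F
  rw [card_product] at h1
  have h3 : ((nb G x ∩ nb G j).card : ℝ) ≤ hi := by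
    rw [← cdg_mk]
    exact hhi _ (by rw [mem_pairs, Sym2.mk_isDiag_iff]; exact fun h => hne h.symm)
  have h4 : (Q.card : ℝ) ≤ 6 * k + (nb G x ∩ nb G j).card * (nb G x ∩ nb G j).card := by
    exact_mod_cast (by omega : Q.card ≤ 6 * k + (nb G x ∩ nb G j).card * (nb G x ∩ nb G j).card)
  have h5 : ((nb G x ∩ nb G j).card : ℝ) * (nb G x ∩ nb G j).card ≤ hi ^ 2 := by
    rw [sq]
    exact mul_le_mul h3 h3 (by positivity) (by linarith [(Nat.cast_nonneg _ : (0:ℝ) ≤ ((nb G x ∩ nb G j).card : ℝ))])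
  linarith

/-- Few directed edges are moved. -/
theorem moved_le {d k : ℕ} (hG : G ∈ regG V d) (hd : 0 < d) (hc : Chart G H ψ θ) (lo hi : ℝ)
    (hlo0 : 0 < lo) (hlohi : lo ≤ hi) (hlo : ∀ g ∈ pairs V, lo ≤ cdg G g)
    (hhi : ∀ g ∈ pairs V, (cdg G g : ℝ) ≤ hi)
    (hmap : MapProp G d k) (hk : 6 * (k : ℝ) + hi ^ 2 < d * lo / 2) (σ : V → V) :
    ((moved G ψ).card : ℝ) ≤ (dev G ψ σ).card * (1 + (1 + 2 * (hi / lo)) * (4 * (hi / lo))) := by
  have hhi0 : 0 < hi := lt_of_lt_of_le hlo0 hlohi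
  have hd0 : (0 : ℝ) < d := by exact_mod_cast hd
  have hbE := badE_le (G := G) (ψ := ψ) σ lo hi hlo hhi
  set E : V → Finset V := fun x => (nb G x).filter fun y => ψ x y ≠ σ y ∨ (x, y) ∈ badE G ψ σ
    with hE
  set NN := univ.filter fun x => σ x ≠ x with hNN
  have hNNc : (NN.card : ℝ) * (lo * d) ≤ (∑ x ∈ NN, ((E x).card : ℝ)) * (4 * hi) := by
    rw [Finset.sum_mul, ← nsmul_eq_mul, ← Finset.sum_const]
    refine Finset.sum_le_sum fun x hx => ?_
    rw [hNN, mem_filter] at hx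
    by_contra hcon
    push Not at hcon
    exact hx.2 (fixed_of_nice hG hc lo hi hlo0 hlo hhi hmap hk σ x hcon.le)
  have hsumE : (∑ x ∈ NN, ((E x).card : ℝ)) ≤ (dev G ψ σ).card + (badE G ψ σ).card := by
    have h1 : ∑ x ∈ NN, (E x).card ≤ (dev G ψ σ).card + (badE G ψ σ).card := by
      rw [← card_sigma]
      have h2 : NN.sigma E ⊆ ((dev G ψ σ).image fun q => (⟨q.1, q.2⟩ : Σ _ : V, V)) ∪
          ((badE G ψ σ).image fun q => (⟨q.1, q.2⟩ : Σ _ : V, V)) := by
        rintro ⟨x, y⟩ h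
        rw [mem_sigma] at h
        simp only [hE, mem_filter, mem_nb] at h
        rw [mem_union, mem_image, mem_image]
        rcases h.2.2 with h3 | h3
        · left
          refine ⟨(x, y), ?_, rfl⟩
          simp only [dev, mem_filter, mem_univ, true_and]
          exact ⟨h.2.1, h3⟩
        · right; exact ⟨(x, y), h3, rfl⟩
      exact (card_le_card h2).trans ((card_union_le _ _).trans
        (Nat.add_le_add card_image_le card_image_le))
    exact_mod_cast h1
  have hmoved : (moved G ψ).card ≤ (dev G ψ σ).card + NN.card * d := by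
    have h1 : moved G ψ ⊆ dev G ψ σ ∪ (NN.sigma fun x => nb G x).image fun p => (p.2, p.1) := by
      rintro ⟨i, x⟩ h
      simp only [moved, mem_filter, mem_univ, true_and] at h
      rw [mem_union, mem_image]
      by_cases hx : σ x = x
      · left
        simp only [dev, mem_filter, mem_univ, true_and]
        exact ⟨h.1, by rw [hx]; exact h.2⟩
      · right
        refine ⟨⟨x, i⟩, ?_, rfl⟩
        rw [mem_sigma]
        exact ⟨by rw [hNN, mem_filter]; exact ⟨mem_univ _, hx⟩, mem_nb.2 h.1.symm⟩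
    refine (card_le_card h1).trans ((card_union_le _ _).trans
      (Nat.add_le_add_left (card_image_le.trans ?_) _))
    rw [card_sigma]
    simp_rw [card_nb hG]
    rw [Finset.sum_const, smul_eq_mul]
  have hmoved' : ((moved G ψ).card : ℝ) ≤ (dev G ψ σ).card + NN.card * d := by
    exact_mod_cast hmoved
  set D : ℝ := ((dev G ψ σ).card : ℝ) with hD
  set r := hi / lo with hr
  have hrlo : r * lo = hi := by rw [hr]; field_simp
  have hD0 : 0 ≤ D := by positivity
  have h1 : ((badE G ψ σ).card : ℝ) ≤ 2 * r * D := by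
    have : ((badE G ψ σ).card : ℝ) * lo ≤ (2 * r * D) * lo := by
      calc _ ≤ 2 * (hi * D) := hbE
        _ = (2 * r * D) * lo := by rw [← hrlo]; ring
    exact le_of_mul_le_mul_right this hlo0
  have h2 : (NN.card : ℝ) * d ≤ (D + 2 * r * D) * (4 * r) := by
    have h3 : (NN.card : ℝ) * d * lo ≤ ((D + 2 * r * D) * (4 * r)) * lo := by
      calc (NN.card : ℝ) * d * lo = (NN.card : ℝ) * (lo * d) := by ring
        _ ≤ (∑ x ∈ NN, ((E x).card : ℝ)) * (4 * hi) := hNNc
        _ ≤ (D + 2 * r * D) * (4 * hi) :=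
            mul_le_mul_of_nonneg_right (by linarith) (by positivity)
        _ = _ := by rw [← hrlo]; ring
    exact le_of_mul_le_mul_right h3 hlo0
  calc ((moved G ψ).card : ℝ) ≤ D + NN.card * d := hmoved'
    _ ≤ D + (D + 2 * r * D) * (4 * r) := by linarith
    _ = _ := by ring

end Pool.Agent.H.MP_0fd30f_pr
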