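import Pool.Agent.H.MP_0fd30f_pr.Sparse3
import Pool.Agent.H.MP_0fd30f_pr.Chart

/-!
# Sampling charts: most charts are coherent
-/

open Finset

namespace Pool.Agent.H.MP_0fd30f_pr

open scoped Classical

variable {V : Type*} [Fintype V] {G H : SimpleGraph V} {ψ θ : V → V → V}

/-- The charts at `i` and `j` disagree on the pair `g`. -/
def inc (G : SimpleGraph V) (ψ : V → V → V) (i j : V) (g : Sym2 V) : Prop :=
  cov G i g ∧ cov G j g ∧ Sym2.map (ψ i) g ≠ Sym2.map (ψ j) g

omit [Fintype V] in
theorem Chart.map_mem (hc : Chart G H ψ θ) {i : V} {g : Sym2 V} (hg : cov G i g) :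
    g ∈ G.edgeSet ↔ Sym2.map (ψ i) g ∈ H.edgeSet := by
  revert hg
  induction g with
  | h x y =>
    intro hg
    rw [Sym2.map_mk, SimpleGraph.mem_edgeSet, SimpleGraph.mem_edgeSet]
    exact hc.adj i x y (hg x (Sym2.mem_mk_left _ _)) (hg y (Sym2.mem_mk_right _ _))

omit [Fintype V] in
theorem Chart.map_not_diag (hc : Chart G H ψ θ) {i : V} {g : Sym2 V} (hg : cov G i g)
    (hd : ¬ g.IsDiag) : ¬ (Sym2.map (ψ i) g).IsDiag := by
  revert hg hd
  induction g with
  | h x y =>
    intro hg hd
    rw [Sym2.map_mk, Sym2.mk_isDiag_iff]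
    rw [Sym2.mk_isDiag_iff] at hd
    exact fun h => hd (hc.inj (hg x (Sym2.mem_mk_left _ _)) (hg y (Sym2.mem_mk_right _ _)) h)

theorem bad_inc_card (hc : Chart G H ψ θ) {m : ℕ} (J : Fin m → V)
    (hcov : ∀ g ∈ pairs V, ∃ k, cov G (J k) g) :
    ((pairs V).filter fun g => ∃ k l, inc G ψ (J k) (J l) g).card ≤
      2 * (bad1 G J ψ).card := by
  set Im : Sym2 V → Finset (Sym2 V) := fun g =>
    (univ.filter fun k => cov G (J k) g).image fun k => Sym2.map (ψ (J k)) g with hIm
  set D := pairs V \ bad1 G J ψ with hD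
  set D2 := D.filter fun g => 2 ≤ (Im g).card with hD2
  have hmemIm : ∀ g k, cov G (J k) g → Sym2.map (ψ (J k)) g ∈ Im g := by
    intro g k hk
    simp only [hIm]
    exact mem_image_of_mem _ (by rw [mem_filter]; exact ⟨mem_univ _, hk⟩)
  have h1 : ((pairs V).filter fun g => ∃ k l, inc G ψ (J k) (J l) g) ⊆ bad1 G J ψ ∪ D2 := by
    intro g hg
    rw [mem_filter] at hg
    obtain ⟨hgp, k, l, h1, h2, h3⟩ := hg
    rw [mem_union]
    by_cases hb : g ∈ bad1 G J ψ
    · left; exact hb
    · right
      rw [hD2, mem_filter, hD, mem_sdiff]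
      refine ⟨⟨hgp, hb⟩, ?_⟩
      exact Finset.one_lt_card.2 ⟨_, hmemIm g k h1, _, hmemIm g l h2, h3⟩
  have hdisj : ∀ g ∈ D, ∀ g' ∈ D, g ≠ g' → Disjoint (Im g) (Im g') := by
    intro g hg g' hg' hne
    rw [disjoint_left]
    intro h hh hh'
    simp only [hIm, mem_image, mem_filter, mem_univ, true_and] at hh hh'
    obtain ⟨k, hk, rfl⟩ := hh
    obtain ⟨l, hl, heq⟩ := hh'
    rw [hD, mem_sdiff] at hg hg'
    apply hg.2
    rw [bad1, mem_filter]
    exact ⟨hg.1, k, hk, l, g', hg'.1, hl, hne.symm, heq⟩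
  have h2 : ∑ g ∈ D, (Im g).card ≤ (pairs V).card := by
    rw [← card_biUnion hdisj]
    refine card_le_card ?_
    intro h hh
    rw [mem_biUnion] at hh
    obtain ⟨g, hg, hh⟩ := hh
    simp only [hIm, mem_image, mem_filter, mem_univ, true_and] at hh
    obtain ⟨k, hk, rfl⟩ := hh
    rw [hD, mem_sdiff, mem_pairs] at hg
    rw [mem_pairs]
    exact hc.map_not_diag hk hg.1
  have h3 : D.card + D2.card ≤ ∑ g ∈ D, (Im g).card := by
    rw [hD2, card_filter, card_eq_sum_ones, ← Finset.sum_add_distrib]
    refine Finset.sum_le_sum fun g hg => ?_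
    rw [hD, mem_sdiff] at hg
    obtain ⟨k, hk⟩ := hcov g hg.1
    have : 0 < (Im g).card := card_pos.2 ⟨_, hmemIm g k hk⟩
    split_ifs <;> omega
  have h4 : (pairs V).card = D.card + (bad1 G J ψ).card := by
    rw [hD, card_sdiff_add_card_eq_card]
    exact filter_subset _ _
  have h5 := (card_le_card h1).trans (card_union_le _ _)
  omega

theorem triples_card (hc : Chart G H ψ θ) {m : ℕ} (J : Fin m → V)
    (hcov : ∀ g ∈ pairs V, ∃ k, cov G (J k) g) (a : ℕ)
    (ha : ∀ g ∈ pairs V, (univ.filter fun k => cov G (J k) g).card ≤ a) :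
    ((univ ×ˢ (univ ×ˢ pairs V)).filter fun q : Fin m × Fin m × Sym2 V =>
      inc G ψ (J q.1) (J q.2.1) q.2.2).card ≤ 2 * (bad1 G J ψ).card * a ^ 2 := by
  set Bd := ((pairs V).filter fun g => ∃ k l, inc G ψ (J k) (J l) g) with hBd
  have h1 : ((univ ×ˢ (univ ×ˢ pairs V)).filter fun q : Fin m × Fin m × Sym2 V =>
      inc G ψ (J q.1) (J q.2.1) q.2.2) ⊆ Bd.biUnion fun g =>
        ((univ.filter fun k => cov G (J k) g) ×ˢ (univ.filter fun k => cov G (J k) g)).image
          fun q => (q.1, q.2, g) := by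
    rintro ⟨k, l, g⟩ hq
    simp only [mem_filter, mem_product, mem_univ, true_and] at hq
    rw [mem_biUnion]
    refine ⟨g, ?_, ?_⟩
    · rw [hBd, mem_filter]; exact ⟨hq.1, k, l, hq.2⟩
    · rw [mem_image]
      refine ⟨(k, l), ?_, rfl⟩
      rw [mem_product, mem_filter, mem_filter]
      exact ⟨⟨mem_univ _, hq.2.1⟩, ⟨mem_univ _, hq.2.2.1⟩⟩
  refine (card_le_card h1).trans (card_biUnion_le.trans ?_)
  calc ∑ g ∈ Bd, (((univ.filter fun k => cov G (J k) g) ×ˢ
        (univ.filter fun k => cov G (J k) g)).image fun q => (q.1, q.2, g)).card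
      ≤ ∑ _g ∈ Bd, a ^ 2 := by
        refine Finset.sum_le_sum fun g hg => card_image_le.trans ?_
        rw [card_product, sq]
        rw [hBd, mem_filter] at hg
        exact Nat.mul_le_mul (ha g hg.1) (ha g hg.1)
    _ = Bd.card * a ^ 2 := by rw [Finset.sum_const, smul_eq_mul]
    _ ≤ _ := Nat.mul_le_mul_right _ (bad_inc_card hc J hcov)

/-- Number of functions with prescribed behaviour at two places. -/
theorem card_fun_pair {m : ℕ} {k l : Fin m} (hkl : k ≠ l) (P : V → V → Prop) :
    (univ.filter fun J : Fin m → V => P (J k) (J l)).card * (Fintype.card V) ^ 2 =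
      (Fintype.card V) ^ m * (univ.filter fun q : V × V => P q.1 q.2).card := by
  set n := Fintype.card V with hn
  have hm : 2 ≤ m := by
    have h1 := k.2
    have h2 := l.2
    by_contra hcon
    exact hkl (Fin.ext (by omega))
  have h1 : ∀ i j : V, (univ.filter fun J : Fin m → V => J k = i ∧ J l = j).card = n ^ (m - 2) := by
    intro i j
    have : (univ.filter fun J : Fin m → V => J k = i ∧ J l = j) =
        Fintype.piFinset fun t => if t = k then {i} else if t = l then {j} else univ := by
      ext J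
      rw [mem_filter, Fintype.mem_piFinset]
      constructor
      · rintro ⟨-, h1, h2⟩ t
        split_ifs with c1 c2
        · rw [c1, mem_singleton]; exact h1
        · rw [c2, mem_singleton]; exact h2
        · exact mem_univ _
      · intro h
        refine ⟨mem_univ _, ?_, ?_⟩
        · have := h k
          rw [if_pos rfl, mem_singleton] at this
          exact this
        · have := h l
          rw [if_neg hkl.symm, if_pos rfl, mem_singleton] at this
          exact this
    rw [this, Fintype.card_piFinset]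
    have h2 : ∀ t : Fin m, (if t = k then ({i} : Finset V) else if t = l then {j} else univ).card =
        if t ∈ ({k, l} : Finset (Fin m)) then 1 else n := by
      intro t
      by_cases c1 : t = k
      · simp [c1]
      · by_cases c2 : t = l
        · subst c2; simp [hkl.symm]
        · simp [c1, c2, hn]
    simp_rw [h2]
    rw [Finset.prod_ite, prod_const_one, prod_const, one_mul]
    congr 1
    have h3 : (univ.filter fun t : Fin m => t ∉ ({k, l} : Finset (Fin m))) = univ \ {k, l} := by
      ext t; simp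
    rw [h3, card_sdiff_of_subset (subset_univ _), card_univ, Fintype.card_fin, card_pair hkl]
  have h2 : (univ.filter fun J : Fin m → V => P (J k) (J l)).card =
      ∑ q ∈ univ.filter (fun q : V × V => P q.1 q.2),
        (univ.filter fun J : Fin m → V => J k = q.1 ∧ J l = q.2).card := by
    rw [← card_biUnion]
    · congr 1
      ext J
      simp only [mem_filter, mem_univ, true_and, mem_biUnion, Prod.exists]
      constructor
      · intro h; exact ⟨J k, J l, h, rfl, rfl⟩
      · rintro ⟨i, j, h, rfl, rfl⟩; exact h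
    · intro q _ q' _ hne
      rw [Function.onFun, disjoint_left]
      intro J hJ hJ'
      simp only [mem_filter, mem_univ, true_and] at hJ hJ'
      exact hne (Prod.ext (hJ.1.symm.trans hJ'.1) (hJ.2.symm.trans hJ'.2))
  rw [h2]
  simp_rw [h1]
  rw [Finset.sum_const, smul_eq_mul, mul_assoc, ← pow_add, Nat.sub_add_cancel hm, mul_comm]

/-- Number of incoherent triples. -/
noncomputable def incCount (G : SimpleGraph V) (ψ : V → V → V) : ℕ :=
  ((univ ×ˢ (univ ×ˢ pairs V)).filter fun q : V × V × Sym2 V => inc G ψ q.1 q.2.1 q.2.2).card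

theorem sum_triples {m : ℕ} :
    (m * (m - 1)) * (Fintype.card V) ^ m * incCount G ψ ≤
    (Fintype.card V) ^ 2 * ∑ J : Fin m → V,
      ((univ ×ˢ (univ ×ˢ pairs V)).filter fun q : Fin m × Fin m × Sym2 V =>
        inc G ψ (J q.1) (J q.2.1) q.2.2).card := by
  set n := Fintype.card V with hn
  have h1 : ∑ J : Fin m → V, ((univ ×ˢ (univ ×ˢ pairs V)).filter
      fun q : Fin m × Fin m × Sym2 V => inc G ψ (J q.1) (J q.2.1) q.2.2).card =
      ∑ k : Fin m, ∑ l : Fin m, ∑ g ∈ pairs V,
        (univ.filter fun J : Fin m → V => inc G ψ (J k) (J l) g).card := by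
    simp_rw [card_filter, sum_product]
    rw [sum_comm]
    refine Finset.sum_congr rfl fun k _ => ?_
    rw [sum_comm]
    refine Finset.sum_congr rfl fun l _ => ?_
    rw [sum_comm]
  have h2 : incCount G ψ = ∑ g ∈ pairs V, (univ.filter fun q : V × V => inc G ψ q.1 q.2 g).card := by
    rw [incCount]
    simp_rw [card_filter, sum_product, Fintype.sum_prod_type]
    rw [Finset.sum_congr rfl fun x _ => Finset.sum_comm]
    rw [Finset.sum_comm]
  have h3 : ∀ k l : Fin m, ∀ g, (if k = l then 0 else 1) * (n ^ m *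
      (univ.filter fun q : V × V => inc G ψ q.1 q.2 g).card) ≤
      n ^ 2 * (univ.filter fun J : Fin m → V => inc G ψ (J k) (J l) g).card := by
    intro k l g
    split_ifs with hkl
    · simp
    · rw [one_mul, ← card_fun_pair hkl fun i j => inc G ψ i j g, mul_comm]
  have h4 : ∑ k : Fin m, ∑ l : Fin m, (if k = l then 0 else 1) = m * (m - 1) := by
    have : ∀ k : Fin m, ∑ l : Fin m, (if k = l then 0 else 1) = m - 1 := by
      intro k
      have h5 : ∑ l : Fin m, (if k = l then 0 else 1) = (univ.filter fun l => ¬ k = l).card := by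
        rw [card_filter]
        refine Finset.sum_congr rfl fun l _ => ?_
        split_ifs <;> rfl
      have h6 : (univ.filter fun l => ¬ k = l) = univ.erase k := by
        ext l; simp [eq_comm]
      rw [h5, h6, card_erase_of_mem (mem_univ _), card_univ, Fintype.card_fin]
    simp_rw [this]
    simp
  rw [h1, h2, ← h4]
  calc (∑ k : Fin m, ∑ l : Fin m, (if k = l then 0 else 1)) * n ^ m *
        ∑ g ∈ pairs V, (univ.filter fun q : V × V => inc G ψ q.1 q.2 g).card
      = ∑ k : Fin m, ∑ l : Fin m, ∑ g ∈ pairs V, (if k = l then 0 else 1) * (n ^ m *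
        (univ.filter fun q : V × V => inc G ψ q.1 q.2 g).card) := by
        rw [mul_assoc, Finset.sum_mul]
        refine Finset.sum_congr rfl fun k _ => ?_
        rw [Finset.sum_mul]
        refine Finset.sum_congr rfl fun l _ => ?_
        rw [Finset.mul_sum, Finset.mul_sum]
    _ ≤ ∑ k : Fin m, ∑ l : Fin m, ∑ g ∈ pairs V,
        n ^ 2 * (univ.filter fun J : Fin m → V => inc G ψ (J k) (J l) g).card :=
        Finset.sum_le_sum fun k _ => Finset.sum_le_sum fun l _ => Finset.sum_le_sum fun g _ =>
          h3 k l g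
    _ = _ := by
        rw [Finset.mul_sum]
        refine Finset.sum_congr rfl fun k _ => ?_
        rw [Finset.mul_sum]
        refine Finset.sum_congr rfl fun l _ => ?_
        rw [Finset.mul_sum]

/-- The number of vertices whose neighbourhood contains the pair `g`. -/
noncomputable def cdg (G : SimpleGraph V) (g : Sym2 V) : ℕ := (univ.filter fun i => cov G i g).card

theorem card_uncovered {m : ℕ} (g : Sym2 V) :
    (univ.filter fun J : Fin m → V => ¬ ∃ k, cov G (J k) g).card =
      (Fintype.card V - cdg G g) ^ m := by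
  have : (univ.filter fun J : Fin m → V => ¬ ∃ k, cov G (J k) g) =
      Fintype.piFinset fun _ : Fin m => univ.filter fun i => ¬ cov G i g := by
    ext J
    rw [mem_filter, Fintype.mem_piFinset]
    simp
  rw [this, Fintype.card_piFinset, prod_const, card_univ, Fintype.card_fin]
  congr 1
  have h1 := card_filter_add_card_filter_not (s := (univ : Finset V)) (fun i => cov G i g)
  rw [card_univ] at h1
  rw [cdg]
  omega

theorem card_overcovered {m : ℕ} (g : Sym2 V) (a : ℕ) :
    (univ.filter fun J : Fin m → V => a ≤ (univ.filter fun k => cov G (J k) g).card).card * 2 ^ a ≤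
      (Fintype.card V + cdg G g) ^ m := by
  have h1 : ∑ J : Fin m → V, 2 ^ (univ.filter fun k => cov G (J k) g).card =
      (Fintype.card V + cdg G g) ^ m := by
    have h2 : ∀ J : Fin m → V, 2 ^ (univ.filter fun k => cov G (J k) g).card =
        ∏ k, (if cov G (J k) g then 2 else 1) := by
      intro J
      rw [prod_ite, prod_const, prod_const_one, mul_one]
    simp_rw [h2]
    have h3 := Finset.prod_univ_sum (fun _ : Fin m => (univ : Finset V))
      (fun _ i => if cov G i g then 2 else 1)
    rw [Fintype.piFinset_univ] at h3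
    rw [← h3, prod_const, card_univ, Fintype.card_fin]
    congr 1
    have h4 : ∀ i : V, (if cov G i g then 2 else 1) = 1 + (if cov G i g then 1 else 0) := by
      intro i; split_ifs <;> rfl
    simp_rw [h4]
    rw [Finset.sum_add_distrib, ← card_filter, cdg]
    simp
  rw [← h1]
  calc (univ.filter fun J : Fin m → V => a ≤ (univ.filter fun k => cov G (J k) g).card).card * 2 ^ a
      = ∑ _J ∈ univ.filter (fun J : Fin m → V =>
          a ≤ (univ.filter fun k => cov G (J k) g).card), 2 ^ a := by
        rw [Finset.sum_const, smul_eq_mul]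
    _ ≤ ∑ J ∈ univ.filter (fun J : Fin m → V =>
          a ≤ (univ.filter fun k => cov G (J k) g).card),
          2 ^ (univ.filter fun k => cov G (J k) g).card := by
        refine Finset.sum_le_sum fun J hJ => ?_
        rw [mem_filter] at hJ
        exact Nat.pow_le_pow_right (by norm_num) hJ.2
    _ ≤ _ := Finset.sum_le_sum_of_subset (filter_subset _ _)

theorem real_unc {n lo C τ : ℝ} (hn : 0 < n) (hlo : lo ≤ C) (hC : C ≤ n) (m : ℕ)
    (hτ : τ ≤ m * lo / n) : (n - C) ^ m ≤ n ^ m * Real.exp (-τ) := by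
  have e3 := Real.add_one_le_exp (-(lo / n))
  have e4 : n * (-(lo / n) + 1) = n - lo := by field_simp; ring
  have e5 : n * (-(lo / n) + 1) ≤ n * Real.exp (-(lo / n)) :=
    mul_le_mul_of_nonneg_left e3 hn.le
  have e2 : n - C ≤ n * Real.exp (-(lo / n)) := by linarith
  calc (n - C) ^ m ≤ (n * Real.exp (-(lo / n))) ^ m :=
        pow_le_pow_left₀ (by linarith) e2 m
    _ = n ^ m * Real.exp (-(m * lo / n)) := by
        rw [mul_pow, ← Real.exp_nat_mul]; ring_nf
    _ ≤ _ := mul_le_mul_of_nonneg_left (Real.exp_le_exp.2 (by linarith)) (by positivity)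

theorem real_over {n hi C τ : ℝ} (hn : 0 < n) (hhi : C ≤ hi) (hC : 0 ≤ C) (m a : ℕ)
    (hτ : m * hi / n + τ ≤ a * Real.log 2) : (n + C) ^ m / 2 ^ a ≤ n ^ m * Real.exp (-τ) := by
  have e3 := Real.add_one_le_exp (hi / n)
  have e5 : n * (hi / n + 1) = hi + n := by field_simp
  have e6 : n * (hi / n + 1) ≤ n * Real.exp (hi / n) := mul_le_mul_of_nonneg_left e3 hn.le
  have e4 : n + C ≤ n * Real.exp (hi / n) := by linarith
  have h6 : (n + C) ^ m ≤ n ^ m * Real.exp (m * hi / n) := by
    calc (n + C) ^ m ≤ (n * Real.exp (hi / n)) ^ m :=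
          pow_le_pow_left₀ (by positivity) e4 m
      _ = _ := by rw [mul_pow, ← Real.exp_nat_mul]; ring_nf
  have h7 : (2 : ℝ) ^ a = Real.exp (a * Real.log 2) := by
    rw [← Real.rpow_natCast, Real.rpow_def_of_pos (by norm_num)]; ring_nf
  refine (div_le_div_of_nonneg_right h6 (by positivity)).trans ?_
  rw [h7, mul_div_assoc, ← Real.exp_sub]
  exact mul_le_mul_of_nonneg_left (Real.exp_le_exp.2 (by linarith)) (by positivity)

set_option maxHeartbeats 2000000 in
/-- Coherence of the charts on average. -/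
theorem incCount_le (hc : Chart G H ψ θ) {m : ℕ} (hm : 2 ≤ m) (hmn : m ≤ Fintype.card V)
    (lo hi B τ : ℝ) (a : ℕ)
    (hlo : ∀ g ∈ pairs V, lo ≤ cdg G g) (hhi : ∀ g ∈ pairs V, (cdg G g : ℝ) ≤ hi)
    (hB : ∀ J : Fin m → V, ((bad1 G J ψ).card : ℝ) ≤ B)
    (hτ1 : τ ≤ m * lo / Fintype.card V) (hτ2 : m * hi / Fintype.card V + τ ≤ a * Real.log 2)
    (hτ3 : 8 * Real.log (Fintype.card V) ≤ τ) :
    (m : ℝ) ^ 2 * incCount G ψ ≤ 2 * (Fintype.card V : ℝ) ^ 2 * (2 * B * a ^ 2 + 1) := by
  set n := Fintype.card V with hn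
  have hm0 : (2 : ℝ) ≤ m := by exact_mod_cast hm
  have hmn' : (m : ℝ) ≤ n := by exact_mod_cast hmn
  have hn0 : (0 : ℝ) < n := by linarith
  have hB0 : 0 ≤ B := le_trans (by positivity) (hB fun _ => (Fintype.card_pos_iff.1 (by
    have : 0 < n := by omega
    exact this)).some)
  set good : (Fin m → V) → Prop := fun J => (∀ g ∈ pairs V, ∃ k, cov G (J k) g) ∧
    ∀ g ∈ pairs V, (univ.filter fun k => cov G (J k) g).card ≤ a with hgood
  set T : (Fin m → V) → ℕ := fun J => ((univ ×ˢ (univ ×ˢ pairs V)).filter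
    fun q : Fin m × Fin m × Sym2 V => inc G ψ (J q.1) (J q.2.1) q.2.2).card with hT
  have hN : ((pairs V).card : ℝ) ≤ n ^ 2 / 2 := by
    rw [card_pairs, Nat.cast_choose_two]
    nlinarith
  have hTgood : ∀ J, good J → (T J : ℝ) ≤ 2 * B * a ^ 2 := by
    intro J hJ
    have h1 := triples_card hc J hJ.1 a hJ.2
    calc (T J : ℝ) ≤ ((2 * (bad1 G J ψ).card * a ^ 2 : ℕ) : ℝ) := by exact_mod_cast h1
      _ = 2 * (bad1 G J ψ).card * a ^ 2 := by push_cast; ring
      _ ≤ _ := by
          have := hB J
          gcongr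
  have hTall : ∀ J, (T J : ℝ) ≤ n ^ 4 / 2 := by
    intro J
    have h1 : T J ≤ m * (m * (pairs V).card) := by
      refine (card_filter_le _ _).trans ?_
      rw [card_product, card_product, card_univ, Fintype.card_fin]
    calc (T J : ℝ) ≤ m * (m * (pairs V).card) := by exact_mod_cast h1
      _ ≤ n * (n * (n ^ 2 / 2)) := by gcongr
      _ = _ := by ring
  -- bad J
  have hbadJ : ((univ.filter fun J : Fin m → V => ¬ good J).card : ℝ) ≤
      n ^ 2 * (n ^ m * Real.exp (-τ)) := by
    have h1 : (univ.filter fun J : Fin m → V => ¬ good J) ⊆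
        (pairs V).biUnion fun g => (univ.filter fun J : Fin m → V => ¬ ∃ k, cov G (J k) g) ∪
          (univ.filter fun J : Fin m → V => a ≤ (univ.filter fun k => cov G (J k) g).card) := by
      intro J hJ
      rw [mem_filter] at hJ
      simp only [hgood, not_and_or, not_forall] at hJ
      rw [mem_biUnion]
      rcases hJ.2 with ⟨g, hg, h⟩ | ⟨g, hg, h⟩
      · refine ⟨g, hg, ?_⟩
        rw [mem_union, mem_filter, mem_filter]
        exact Or.inl ⟨mem_univ _, h⟩
      · refine ⟨g, hg, ?_⟩
        rw [mem_union, mem_filter, mem_filter]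
        exact Or.inr ⟨mem_univ _, by omega⟩
    have h2 : ((univ.filter fun J : Fin m → V => ¬ good J).card : ℝ) ≤
        ∑ g ∈ pairs V, (((univ.filter fun J : Fin m → V => ¬ ∃ k, cov G (J k) g).card : ℝ) +
          ((univ.filter fun J : Fin m → V =>
            a ≤ (univ.filter fun k => cov G (J k) g).card).card : ℝ)) := by
      have h3 := (card_le_card h1).trans (card_biUnion_le.trans
        (Finset.sum_le_sum fun g _ => card_union_le _ _))
      exact_mod_cast h3
    refine h2.trans ?_
    have h3 : ∀ g ∈ pairs V,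
        (((univ.filter fun J : Fin m → V => ¬ ∃ k, cov G (J k) g).card : ℝ) +
          ((univ.filter fun J : Fin m → V =>
            a ≤ (univ.filter fun k => cov G (J k) g).card).card : ℝ)) ≤
        2 * (n ^ m * Real.exp (-τ)) := by
      intro g hg
      have e1 : ((univ.filter fun J : Fin m → V => ¬ ∃ k, cov G (J k) g).card : ℝ) ≤
          n ^ m * Real.exp (-τ) := by
        rw [card_uncovered]
        have hle : cdg G g ≤ n := card_le_univ _
        rw [Nat.cast_pow, Nat.cast_sub hle]
        exact real_unc hn0 (hlo g hg) (by exact_mod_cast hle) m hτ1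
      have e2 : ((univ.filter fun J : Fin m → V =>
            a ≤ (univ.filter fun k => cov G (J k) g).card).card : ℝ) ≤
          n ^ m * Real.exp (-τ) := by
        have h4 := card_overcovered (G := G) (m := m) g a
        have h5 : ((univ.filter fun J : Fin m → V =>
            a ≤ (univ.filter fun k => cov G (J k) g).card).card : ℝ) * 2 ^ a ≤
            ((n : ℝ) + cdg G g) ^ m := by exact_mod_cast h4
        have h8 : (0 : ℝ) < 2 ^ a := by positivity
        rw [← le_div_iff₀ h8] at h5
        exact h5.trans (real_over hn0 (hhi g hg) (by positivity) m a hτ2)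
      linarith
    refine (Finset.sum_le_sum h3).trans ?_
    rw [Finset.sum_const, nsmul_eq_mul]
    calc ((pairs V).card : ℝ) * (2 * (n ^ m * Real.exp (-τ))) ≤
          (n ^ 2 / 2) * (2 * (n ^ m * Real.exp (-τ))) :=
          mul_le_mul_of_nonneg_right hN (by positivity)
      _ = _ := by ring
  -- average
  have hsum : ∑ J : Fin m → V, (T J : ℝ) ≤ n ^ m * (2 * B * a ^ 2 + 1) := by
    rw [← Finset.sum_filter_add_sum_filter_not univ good]
    have h1 : ∑ J ∈ univ.filter good, (T J : ℝ) ≤ n ^ m * (2 * B * a ^ 2) := by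
      calc ∑ J ∈ univ.filter good, (T J : ℝ) ≤ ∑ _J ∈ univ.filter good, (2 * B * a ^ 2) := by
            refine Finset.sum_le_sum fun J hJ => hTgood J ?_
            rw [mem_filter] at hJ; exact hJ.2
        _ = ((univ.filter good).card : ℝ) * (2 * B * a ^ 2) := by
            rw [Finset.sum_const, nsmul_eq_mul]
        _ ≤ _ := by
            refine mul_le_mul_of_nonneg_right ?_ (by positivity)
            have : (univ.filter good).card ≤ n ^ m := by
              refine (card_le_univ _).trans ?_
              rw [Fintype.card_fun, Fintype.card_fin]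
            exact_mod_cast this
    have h2 : ∑ J ∈ univ.filter (fun J => ¬ good J), (T J : ℝ) ≤ n ^ m * 1 := by
      calc ∑ J ∈ univ.filter (fun J => ¬ good J), (T J : ℝ) ≤
            ∑ _J ∈ univ.filter (fun J => ¬ good J), ((n : ℝ) ^ 4 / 2) :=
            Finset.sum_le_sum fun J _ => hTall J
        _ = ((univ.filter fun J : Fin m → V => ¬ good J).card : ℝ) * (n ^ 4 / 2) := by
            rw [Finset.sum_const, nsmul_eq_mul]
        _ ≤ (n ^ 2 * (n ^ m * Real.exp (-τ))) * (n ^ 4 / 2) :=
            mul_le_mul_of_nonneg_right hbadJ (by positivity)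
        _ = n ^ m * (n ^ 6 / 2 * Real.exp (-τ)) := by ring
        _ ≤ n ^ m * 1 := by
            refine mul_le_mul_of_nonneg_left ?_ (by positivity)
            have h3 : Real.exp (-τ) ≤ 1 / (n : ℝ) ^ 8 := by
              have : (1 : ℝ) / (n : ℝ) ^ 8 = Real.exp (-(8 * Real.log n)) := by
                rw [Real.exp_neg, one_div, mul_comm, Real.exp_mul, Real.exp_log hn0]
                norm_cast
              rw [this]
              exact Real.exp_le_exp.2 (by linarith)
            calc (n : ℝ) ^ 6 / 2 * Real.exp (-τ) ≤ (n : ℝ) ^ 6 / 2 * (1 / (n : ℝ) ^ 8) :=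
                  mul_le_mul_of_nonneg_left h3 (by positivity)
              _ = 1 / (2 * (n : ℝ) ^ 2) := by field_simp
              _ ≤ 1 := by
                  rw [div_le_one (by positivity)]
                  nlinarith
    linarith
  have hfin := sum_triples (G := G) (ψ := ψ) (m := m)
  have hfin' : ((m : ℝ) * (m - 1)) * n ^ m * incCount G ψ ≤ n ^ 2 * ∑ J : Fin m → V, (T J : ℝ) := by
    have : ((m - 1 : ℕ) : ℝ) = (m : ℝ) - 1 := by
      rw [Nat.cast_sub (by omega)]; simp
    rw [← this]
    exact_mod_cast hfin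
  have h1 : ((m : ℝ) * (m - 1)) * n ^ m * incCount G ψ ≤ n ^ 2 * (n ^ m * (2 * B * a ^ 2 + 1)) :=
    hfin'.trans (mul_le_mul_of_nonneg_left hsum (by positivity))
  have h2 : ((m : ℝ) * (m - 1)) * incCount G ψ ≤ n ^ 2 * (2 * B * a ^ 2 + 1) := by
    have h3 : (n : ℝ) ^ m * (((m : ℝ) * (m - 1)) * incCount G ψ) ≤
        n ^ m * (n ^ 2 * (2 * B * a ^ 2 + 1)) := by linarith
    exact le_of_mul_le_mul_left h3 (by positivity)
  have h3 : (m : ℝ) ^ 2 ≤ 2 * (m * (m - 1)) := by nlinarith
  have h4 : (0 : ℝ) ≤ incCount G ψ := by positivity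
  nlinarith

end Pool.Agent.H.MP_0fd30f_pr
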