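import Pool.Agent.H.MP_0fd30f_pr.Basic

/-!
# Regular degree sequences have the largest number of graphs
-/

open Finset

namespace Pool.Agent.H.MP_0fd30f_pr

open scoped Classical

variable {V : Type*} [Fintype V]

/-- Graphs with degree sequence `D`. -/
noncomputable def degSet (D : V → ℕ) : Finset (SimpleGraph V) :=
  univ.filter fun G => ∀ v, (nb G v).card = D v

/-- Replace the edge `iu` by the edge `ju`. -/
def mv (G : SimpleGraph V) (i j u : V) : SimpleGraph V :=
  G.deleteEdges {s(i, u)} ⊔ SimpleGraph.fromEdgeSet {s(j, u)}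

omit [Fintype V] in
theorem mv_adj (G : SimpleGraph V) (i j u a b : V) :
    (mv G i j u).Adj a b ↔ (G.Adj a b ∧ s(a, b) ≠ s(i, u)) ∨ (s(a, b) = s(j, u) ∧ a ≠ b) := by
  simp [mv, SimpleGraph.deleteEdges_adj]

/-- The vertices adjacent to `i` but not to `j`. -/
noncomputable def sdf (G : SimpleGraph V) (i j : V) : Finset V :=
  univ.filter fun u => G.Adj i u ∧ ¬ G.Adj j u ∧ u ≠ j

theorem mem_sdf {G : SimpleGraph V} {i j u : V} :
    u ∈ sdf G i j ↔ G.Adj i u ∧ ¬ G.Adj j u ∧ u ≠ j := by simp [sdf]

theorem mv_nb_i {G : SimpleGraph V} {i j u : V} (hij : i ≠ j) (hu : u ∈ sdf G i j) :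
    nb (mv G i j u) i = (nb G i).erase u := by
  rw [mem_sdf] at hu
  ext b
  rw [mem_nb, mv_adj, mem_erase, mem_nb]
  have h1 := hu.1.ne
  constructor
  · rintro (⟨h2, h3⟩ | ⟨h2, h3⟩)
    · exact ⟨fun h => h3 (by rw [h]), h2⟩
    · rw [Sym2.eq_iff] at h2
      rcases h2 with h2 | h2
      · exact absurd h2.1 hij
      · exact absurd h2.1 h1
  · rintro ⟨h2, h3⟩
    left
    refine ⟨h3, fun h => ?_⟩
    rw [Sym2.eq_iff] at h
    rcases h with h | h
    · exact h2 h.2
    · exact h1 h.1

theorem mv_nb_j {G : SimpleGraph V} {i j u : V} (hij : i ≠ j) (hu : u ∈ sdf G i j) :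
    nb (mv G i j u) j = insert u (nb G j) := by
  rw [mem_sdf] at hu
  ext b
  rw [mem_nb, mv_adj, mem_insert, mem_nb]
  constructor
  · rintro (⟨h2, h3⟩ | ⟨h2, h3⟩)
    · exact Or.inr h2
    · rw [Sym2.eq_iff] at h2
      rcases h2 with h2 | h2
      · exact Or.inl h2.2
      · exact absurd h2.1 hu.2.2.symm
  · rintro (h2 | h2)
    · right; subst h2; exact ⟨rfl, hu.2.2.symm⟩
    · left
      refine ⟨h2, fun h => ?_⟩
      rw [Sym2.eq_iff] at h
      rcases h with h | h
      · exact hij h.1.symm
      · exact hu.2.2 h.1.symm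

theorem mv_nb_u {G : SimpleGraph V} {i j u : V} (hij : i ≠ j) (hu : u ∈ sdf G i j) :
    nb (mv G i j u) u = insert j ((nb G u).erase i) := by
  rw [mem_sdf] at hu
  have h1 := hu.1.ne
  ext b
  rw [mem_nb, mv_adj, mem_insert, mem_erase, mem_nb]
  constructor
  · rintro (⟨h2, h3⟩ | ⟨h2, h3⟩)
    · right
      refine ⟨fun h => h3 ?_, h2⟩
      rw [h, Sym2.eq_swap]
    · rw [Sym2.eq_iff] at h2
      rcases h2 with h2 | h2
      · exact absurd h2.1 hu.2.2
      · exact Or.inl h2.2
  · rintro (h2 | ⟨h2, h3⟩)
    · right; subst h2; exact ⟨Sym2.eq_swap, hu.2.2⟩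
    · left
      refine ⟨h3, fun h => ?_⟩
      rw [Sym2.eq_iff] at h
      rcases h with h | h
      · exact h1 h.1.symm
      · exact h2 h.2

theorem mv_nb_o {G : SimpleGraph V} {i j u w : V} (hi : w ≠ i) (hj : w ≠ j) (hu : w ≠ u) :
    nb (mv G i j u) w = nb G w := by
  ext b
  rw [mem_nb, mv_adj, mem_nb]
  constructor
  · rintro (⟨h2, h3⟩ | ⟨h2, h3⟩)
    · exact h2
    · rw [Sym2.eq_iff] at h2
      rcases h2 with h2 | h2
      · exact absurd h2.1 hj
      · exact absurd h2.1 hu
  · intro h2
    left
    refine ⟨h2, fun h => ?_⟩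
    rw [Sym2.eq_iff] at h
    rcases h with h | h
    · exact hi h.1
    · exact hu h.1

theorem mv_mv {G : SimpleGraph V} {i j u : V} (hu : u ∈ sdf G i j) :
    mv (mv G i j u) j i u = G := by
  rw [mem_sdf] at hu
  ext a b
  rw [mv_adj, mv_adj]
  constructor
  · rintro (⟨(⟨h2, h3⟩ | ⟨h2, h3⟩), h4⟩ | ⟨h2, h3⟩)
    · exact h2
    · exact absurd h2 h4
    · rw [← SimpleGraph.mem_edgeSet, h2]; exact hu.1
  · intro h
    by_cases c : s(a, b) = s(i, u)
    · right; exact ⟨c, h.ne⟩
    · left
      refine ⟨Or.inl ⟨h, c⟩, fun h2 => ?_⟩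
      rw [← SimpleGraph.mem_edgeSet, h2] at h
      exact hu.2.1 h

theorem mem_sdf_mv {G : SimpleGraph V} {i j u : V} (hij : i ≠ j) (hu : u ∈ sdf G i j) :
    u ∈ sdf (mv G i j u) j i := by
  have h1 := mv_nb_i hij hu
  have h2 := mv_nb_j hij hu
  rw [mem_sdf, ← mem_nb, ← mem_nb, h1, h2]
  rw [mem_sdf] at hu
  exact ⟨mem_insert_self _ _, fun h => (mem_erase.1 h).1 rfl, hu.1.ne.symm⟩

theorem card_sdf_add (G : SimpleGraph V) {i j : V} (hij : i ≠ j) :
    (sdf G i j).card + (nb G j).card = (sdf G j i).card + (nb G i).card := by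
  have key : ∀ i j : V, i ≠ j → (nb G i).card =
      (sdf G i j).card + ((nb G i) ∩ (nb G j)).card + (if G.Adj i j then 1 else 0) := by
    intro i j hij
    have h1 : nb G i = (sdf G i j ∪ (nb G i ∩ nb G j)) ∪ (if G.Adj i j then {j} else ∅) := by
      ext b
      rw [mem_union, mem_union, mem_sdf, mem_inter, mem_nb, mem_nb]
      by_cases hb : b = j
      · subst hb
        by_cases hc : G.Adj i b
        · simp [hc]
        · simp [hc]
      · by_cases hc : G.Adj i j <;> simp [hc, hb] <;> tauto
    rw [h1, card_union_of_disjoint, card_union_of_disjoint, ← h1]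
    · split_ifs <;> simp
    · rw [disjoint_left]
      intro b hb hb'
      rw [mem_sdf] at hb
      rw [mem_inter, mem_nb, mem_nb] at hb'
      exact hb.2.1 hb'.2
    · rw [disjoint_left]
      intro b hb hb'
      split_ifs at hb' with hc
      · rw [mem_singleton] at hb'
        subst hb'
        rw [mem_union, mem_sdf, mem_inter, mem_nb, mem_nb] at hb
        rcases hb with hb | hb
        · exact hb.2.2 rfl
        · exact hb.2.ne rfl
      · simp at hb'
  have k1 := key i j hij
  have k2 := key j i hij.symm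
  rw [inter_comm] at k2
  have k3 : (if G.Adj i j then 1 else 0) = (if G.Adj j i then 1 else 0) := by
    simp [G.adj_comm]
  omega

theorem card_sdf_mv {G : SimpleGraph V} {i j u : V} (hij : i ≠ j) (hu : u ∈ sdf G i j) :
    (sdf (mv G i j u) j i).card = (sdf G j i).card + 1 := by
  have h1 := mv_nb_i hij hu
  have h2 := mv_nb_j hij hu
  have h3 : sdf (mv G i j u) j i = insert u (sdf G j i) := by
    ext b
    rw [mem_sdf, ← mem_nb, ← mem_nb, h1, h2, mem_insert, mem_insert, mem_sdf, mem_erase, mem_nb,
      mem_nb]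
    rw [mem_sdf] at hu
    have h3 := hu.1.ne
    by_cases hb : b = u
    · subst hb; simp [h3.symm]
    · simp [hb]
  rw [h3, card_insert_of_notMem]
  rw [mem_sdf] at hu ⊢
  exact fun h => hu.2.1 h.1

theorem mv_mem_degSet {G : SimpleGraph V} {D : V → ℕ} {i j u : V} (hij : i ≠ j)
    (hG : G ∈ degSet D) (hu : u ∈ sdf G i j) :
    mv G i j u ∈ degSet (Function.update (Function.update D i (D i - 1)) j (D j + 1)) := by
  have hu' := hu
  rw [mem_sdf] at hu'
  simp only [degSet, mem_filter, mem_univ, true_and] at hG ⊢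
  intro v
  by_cases c1 : v = j
  · subst c1
    rw [Function.update_self, mv_nb_j hij hu, card_insert_of_notMem, hG]
    rw [mem_nb]; exact hu'.2.1
  rw [Function.update_of_ne c1]
  by_cases c2 : v = i
  · subst c2
    rw [Function.update_self, mv_nb_i hij hu, card_erase_of_mem (mem_nb.2 hu'.1), hG]
  rw [Function.update_of_ne c2]
  by_cases c3 : v = u
  · subst c3
    have h1 : i ∈ nb G v := mem_nb.2 hu'.1.symm
    have h2 : j ∉ (nb G v).erase i := by
      rw [mem_erase, mem_nb]
      exact fun h => hu'.2.1 h.2.symm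
    rw [mv_nb_u hij hu, card_insert_of_notMem h2, card_erase_of_mem h1, hG]
    have : 0 < (nb G v).card := card_pos.2 ⟨i, h1⟩
    rw [hG] at this
    omega
  · rw [mv_nb_o c2 c1 c3, hG]

/-- Balancing the degree sequence does not decrease the number of graphs. -/
theorem degSet_le (D : V → ℕ) {i j : V} (hij : i ≠ j) (hD : D j + 2 ≤ D i) :
    (degSet D).card ≤
      (degSet (Function.update (Function.update D i (D i - 1)) j (D j + 1))).card := by
  set D' := Function.update (Function.update D i (D i - 1)) j (D j + 1) with hD'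
  have hs : ∀ G ∈ degSet D, (sdf G j i).card + 2 ≤ (sdf G i j).card := by
    intro G hG
    simp only [degSet, mem_filter, mem_univ, true_and] at hG
    have := card_sdf_add G hij
    rw [hG, hG] at this
    omega
  set X : Finset (SimpleGraph V × V) := (degSet D ×ˢ univ).filter fun q => q.2 ∈ sdf q.1 i j
  set Y : Finset (SimpleGraph V × V) := (degSet D' ×ˢ univ).filter fun q => q.2 ∈ sdf q.1 j i
  set w : SimpleGraph V × V → ℚ := fun q => 1 / ((sdf q.1 j i).card : ℚ)
  have h1 : ((degSet D).card : ℚ) ≤ ∑ q ∈ X, w (mv q.1 i j q.2, q.2) := by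
    rw [Finset.sum_filter, Finset.sum_product]
    rw [Finset.card_eq_sum_ones, Nat.cast_sum]
    refine Finset.sum_le_sum fun G hG => ?_
    rw [← Finset.sum_filter]
    have h2 : (univ.filter fun u => u ∈ sdf G i j) = sdf G i j := by ext; simp
    rw [h2]
    have h3 : ∀ u ∈ sdf G i j, 1 / ((sdf G i j).card : ℚ) ≤ w (mv G i j u, u) := by
      intro u hu
      simp only [w]
      rw [card_sdf_mv hij hu]
      have := hs G hG
      apply one_div_le_one_div_of_le
      · positivity
      · exact_mod_cast (by omega : (sdf G j i).card + 1 ≤ (sdf G i j).card)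
    calc ((1 : ℕ) : ℚ) = ∑ _u ∈ sdf G i j, 1 / ((sdf G i j).card : ℚ) := by
          rw [Finset.sum_const, nsmul_eq_mul]
          have : ((sdf G i j).card : ℚ) ≠ 0 := by
            have := hs G hG
            exact_mod_cast (by omega : (sdf G i j).card ≠ 0)
          field_simp
          norm_num
      _ ≤ _ := Finset.sum_le_sum h3
  have h2 : ∑ q ∈ X, w (mv q.1 i j q.2, q.2) ≤ ∑ q ∈ Y, w q := by
    have hinj : Set.InjOn (fun q : SimpleGraph V × V => (mv q.1 i j q.2, q.2)) X := by
      rintro ⟨G, u⟩ hq ⟨G', u'⟩ hq' h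
      simp only [X, coe_filter, mem_product, Set.mem_ofPred_eq] at hq hq'
      simp only [Prod.mk.injEq] at h
      obtain ⟨h, rfl⟩ := h
      have e1 := mv_mv hq.2
      rw [h, mv_mv hq'.2] at e1
      rw [e1]
    rw [← Finset.sum_image (f := w) hinj]
    refine Finset.sum_le_sum_of_subset_of_nonneg ?_ fun q _ _ => by simp only [w]; positivity
    intro q hq
    rw [mem_image] at hq
    obtain ⟨⟨G, u⟩, hq, rfl⟩ := hq
    simp only [X, mem_filter, mem_product, mem_univ, and_true] at hq
    simp only [Y, mem_filter, mem_product, mem_univ, and_true]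
    exact ⟨mv_mem_degSet hij hq.1 hq.2, mem_sdf_mv hij hq.2⟩
  have h3 : ∑ q ∈ Y, w q ≤ ((degSet D').card : ℚ) := by
    rw [Finset.sum_filter, Finset.sum_product]
    rw [Finset.card_eq_sum_ones, Nat.cast_sum]
    refine Finset.sum_le_sum fun G hG => ?_
    rw [← Finset.sum_filter]
    have h2 : (univ.filter fun u => u ∈ sdf G j i) = sdf G j i := by ext; simp
    rw [h2]
    simp only [w, Finset.sum_const, nsmul_eq_mul]
    rcases Nat.eq_zero_or_pos (sdf G j i).card with h | h
    · simp [h]
    · have : ((sdf G j i).card : ℚ) ≠ 0 := by exact_mod_cast h.ne'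
      rw [mul_one_div_cancel this]; norm_num
  exact_mod_cast h1.trans (h2.trans h3)

/-- Among all degree sequences with sum `n d`, the regular one has the most graphs. -/
theorem degSet_le_regG (d : ℕ) (D : V → ℕ) (hD : ∑ v, D v = Fintype.card V * d) :
    (degSet D).card ≤ (regG V d).card := by
  have main : ∀ (k : ℕ) (D : V → ℕ), ∑ v, ((D v - d) + (d - D v)) = k →
      ∑ v, D v = Fintype.card V * d → (degSet D).card ≤ (regG V d).card := by
    intro k
    induction k using Nat.strong_induction_on with
    | _ k ih =>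
    intro D hk hD
    by_cases hall : ∀ v, D v = d
    · refine card_le_card fun G hG => ?_
      simp only [degSet, mem_filter, mem_univ, true_and] at hG
      rw [mem_regG]
      intro v
      rw [← hall v, ← hG v, nb, Set.ncard_eq_toFinset_card']
      congr 1
      ext y
      simp
    push Not at hall
    have hsum : ∑ _v : V, d = Fintype.card V * d := by simp
    obtain ⟨i, hi⟩ : ∃ i, d < D i := by
      by_contra hcon
      push Not at hcon
      obtain ⟨v, hv⟩ := hall
      have : ∑ v, D v < ∑ _v : V, d :=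
        Finset.sum_lt_sum (fun v _ => hcon v) ⟨v, mem_univ _, lt_of_le_of_ne (hcon v) hv⟩
      omega
    obtain ⟨j, hj⟩ : ∃ j, D j < d := by
      by_contra hcon
      push Not at hcon
      have : ∑ _v : V, d < ∑ v, D v :=
        Finset.sum_lt_sum (fun v _ => hcon v) ⟨i, mem_univ _, hi⟩
      omega
    have hij : i ≠ j := by rintro rfl; omega
    refine (degSet_le D hij (by omega)).trans ?_
    set D' := Function.update (Function.update D i (D i - 1)) j (D j + 1) with hD'
    have e0 : ∀ v, v ≠ i → v ≠ j → D' v = D v := by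
      intro v h1 h2
      rw [hD', Function.update_of_ne h2, Function.update_of_ne h1]
    have ei : D' i = D i - 1 := by
      rw [hD', Function.update_of_ne hij, Function.update_self]
    have ej : D' j = D j + 1 := by rw [hD', Function.update_self]
    have split : ∀ f : V → ℕ, ∑ v, f v = f i + (f j + ∑ v ∈ (univ.erase i).erase j, f v) := by
      intro f
      rw [← Finset.add_sum_erase _ _ (mem_univ i), ← Finset.add_sum_erase _ _ (a := j)]
      exact mem_erase.2 ⟨hij.symm, mem_univ _⟩
    have hrest : ∀ f : ℕ → ℕ, ∑ v ∈ (univ.erase i).erase j, f (D' v) =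
        ∑ v ∈ (univ.erase i).erase j, f (D v) := by
      intro f
      refine Finset.sum_congr rfl fun v hv => ?_
      rw [mem_erase, mem_erase] at hv
      rw [e0 v hv.2.1 hv.1]
    have s1 := split fun v => D v
    have s2 := split fun v => D' v
    have s3 := split fun v => ((D v - d) + (d - D v))
    have s4 := split fun v => ((D' v - d) + (d - D' v))
    have r1 := hrest id
    have r2 := hrest fun x => ((x - d) + (d - x))
    simp only [id] at r1
    rw [ei, ej] at s2 s4
    exact ih (∑ v, ((D' v - d) + (d - D' v))) (by omega) D' rfl (by omega)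
  exact main _ D rfl hD

/-- All pairs of distinct vertices. -/
noncomputable def pairs (V : Type*) [Fintype V] : Finset (Sym2 V) := univ.filter fun e => ¬ e.IsDiag

theorem card_pairs : (pairs V).card = (Fintype.card V).choose 2 := by
  rw [← Sym2.card_subtype_not_diag (α := V), Fintype.card_subtype]
  rfl

theorem mem_pairs {e : Sym2 V} : e ∈ pairs V ↔ ¬ e.IsDiag := by simp [pairs]

/-- Lower bound for the number of regular graphs. -/
theorem choose_le_card_regG (d : ℕ) (heven : Even (Fintype.card V * d)) :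
    ((Fintype.card V).choose 2).choose (Fintype.card V * d / 2) ≤
      (Fintype.card V) ^ (Fintype.card V) * (regG V d).card := by
  set n := Fintype.card V with hn
  set M := n * d / 2 with hM
  have h2M : 2 * M = n * d := by
    obtain ⟨k, hk⟩ := heven
    omega
  have hsub : ((powersetCard M (pairs V)).image
      fun E : Finset (Sym2 V) => SimpleGraph.fromEdgeSet (E : Set (Sym2 V))) ⊆
      ((Fintype.piFinset fun _ : V => Finset.range n).filter
        fun D => ∑ v, D v = n * d).biUnion degSet := by
    intro G hG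
    rw [mem_image] at hG
    obtain ⟨E, hE, rfl⟩ := hG
    rw [mem_powersetCard] at hE
    obtain ⟨G, hG⟩ : ∃ G, G = SimpleGraph.fromEdgeSet (E : Set (Sym2 V)) := ⟨_, rfl⟩
    rw [← hG, mem_biUnion]
    have hdeg : ∀ v, (nb G v).card = G.degree v := by
      intro v
      rw [nb, ← SimpleGraph.card_neighborFinset_eq_degree]
      congr 1
      ext y
      simp
    refine ⟨fun v => (nb G v).card, ?_, by simp [degSet]⟩
    rw [mem_filter, Fintype.mem_piFinset]
    refine ⟨fun v => ?_, ?_⟩
    · rw [mem_range]
      rw [hdeg]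
      exact G.degree_lt_card_verts v
    · simp_rw [hdeg]
      rw [SimpleGraph.sum_degrees_eq_twice_card_edges, ← h2M]
      congr 1
      rw [← hE.2]
      congr 1
      ext e
      have h5 : e ∈ G.edgeSet ↔ e ∈ (E : Set (Sym2 V)) \ {e | e.IsDiag} := by
        rw [hG, SimpleGraph.edgeSet_fromEdgeSet]
        rfl
      rw [SimpleGraph.mem_edgeFinset, h5]
      constructor
      · intro h; exact h.1
      · intro h
        exact ⟨h, mem_pairs.1 (hE.1 h)⟩
  have hcard := card_le_card hsub
  rw [card_image_of_injOn, card_powersetCard, card_pairs] at hcard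
  · refine hcard.trans (card_biUnion_le.trans ?_)
    calc _ ≤ ∑ _D ∈ (Fintype.piFinset fun _ : V => Finset.range n).filter
            (fun D => ∑ v, D v = n * d), (regG V d).card := by
          refine Finset.sum_le_sum fun D hD => ?_
          exact degSet_le_regG d D (mem_filter.1 hD).2
      _ = _ * (regG V d).card := by rw [Finset.sum_const, smul_eq_mul]
      _ ≤ n ^ n * (regG V d).card := by
          refine Nat.mul_le_mul_right _ ((card_filter_le _ _).trans ?_)
          rw [Fintype.card_piFinset]
          simp [hn]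
  · intro E hE E' hE' h
    rw [mem_coe, mem_powersetCard] at hE hE'
    simp only at h
    have h3 := congrArg SimpleGraph.edgeSet h
    rw [SimpleGraph.edgeSet_fromEdgeSet, SimpleGraph.edgeSet_fromEdgeSet] at h3
    ext e
    have h4 := Set.ext_iff.1 h3 e
    constructor
    · intro he
      have := mem_pairs.1 (hE.1 he)
      exact (h4.1 ⟨he, this⟩).1
    · intro he
      have := mem_pairs.1 (hE'.1 he)
      exact (h4.2 ⟨he, this⟩).1

end Pool.Agent.H.MP_0fd30f_pr
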