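import Pool.Agent.H.MP_0fd30f_pr.Rigid

/-!
# Union bounds in the sparse case, I
-/

open Finset

namespace Pool.Agent.H.MP_0fd30f_pr

open scoped Classical

variable {V : Type*} [Fintype V]

/-- `P(F ⊆ G) ≤ (2d/n)^|F|`, real version. -/
theorem num_subset_le {d : ℕ} (hd : 0 < d) (h16 : 16 * d ≤ Fintype.card V)
    (F : Finset (Sym2 V)) (hF : 8 * F.card ≤ Fintype.card V * d) :
    (num d (fun G : SimpleGraph V => ∀ e ∈ F, e ∈ G.edgeSet) : ℝ) ≤
      (2 * d / Fintype.card V) ^ F.card * (regG V d).card := by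
  have h1 := cnt_le hd h16 F hF
  have hn : (0 : ℝ) < Fintype.card V := by exact_mod_cast (by omega : 0 < Fintype.card V)
  have h2 : (cnt V d F : ℝ) * (Fintype.card V : ℝ) ^ F.card ≤
      (2 * (d : ℝ)) ^ F.card * (regG V d).card := by exact_mod_cast h1
  have h3 : num d (fun G : SimpleGraph V => ∀ e ∈ F, e ∈ G.edgeSet) = cnt V d F := by
    rw [num_eq, cnt]
  rw [h3, div_pow, div_mul_eq_mul_div, le_div_iff₀ (by positivity)]
  exact h2

/-- Same with a lower bound for `|F|`. -/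
theorem num_subset_le' {d : ℕ} (hd : 0 < d) (h16 : 16 * d ≤ Fintype.card V)
    (F : Finset (Sym2 V)) (L : ℕ) (hL : L ≤ F.card) (hF : 8 * L ≤ Fintype.card V * d) :
    (num d (fun G : SimpleGraph V => ∀ e ∈ F, e ∈ G.edgeSet) : ℝ) ≤
      (2 * d / Fintype.card V) ^ L * (regG V d).card := by
  obtain ⟨F', hF', hc⟩ := exists_subset_card_eq hL
  have h1 := num_subset_le hd h16 F' (by rw [hc]; exact hF)
  rw [hc] at h1
  refine le_trans ?_ h1
  have h2 : num d (fun G : SimpleGraph V => ∀ e ∈ F, e ∈ G.edgeSet) ≤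
      num d (fun G : SimpleGraph V => ∀ e ∈ F', e ∈ G.edgeSet) :=
    num_mono fun G _ h e he => h e (hF' he)
  exact_mod_cast h2

theorem choose_mul_pow_le (A k : ℕ) (hk : 0 < k) (q : ℝ) (hq : 0 ≤ q) :
    (A.choose k : ℝ) * q ^ k ≤ (Real.exp 1 * A * q / k) ^ k := by
  have h1 : (A.choose k : ℝ) ≤ (A : ℝ) ^ k / (k.factorial : ℝ) := Nat.choose_le_pow_div k A
  have h2 : (k : ℝ) ^ k / (k.factorial : ℝ) ≤ Real.exp k :=
    Real.pow_div_factorial_le_exp (k : ℝ) (by positivity) k
  have hk0 : (0 : ℝ) < k := by exact_mod_cast hk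
  have hf : (0 : ℝ) < (k.factorial : ℝ) := by exact_mod_cast k.factorial_pos
  have h3 : 1 / (k.factorial : ℝ) ≤ Real.exp k / (k : ℝ) ^ k := by
    rw [le_div_iff₀ (by positivity)]
    calc 1 / (k.factorial : ℝ) * (k : ℝ) ^ k = (k : ℝ) ^ k / (k.factorial : ℝ) := by ring
      _ ≤ _ := h2
  calc (A.choose k : ℝ) * q ^ k ≤ ((A : ℝ) ^ k / (k.factorial : ℝ)) * q ^ k :=
        mul_le_mul_of_nonneg_right h1 (by positivity)
    _ = (A : ℝ) ^ k * q ^ k * (1 / (k.factorial : ℝ)) := by ring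
    _ ≤ (A : ℝ) ^ k * q ^ k * (Real.exp k / (k : ℝ) ^ k) :=
        mul_le_mul_of_nonneg_left h3 (by positivity)
    _ = _ := by
        rw [div_pow, mul_pow, mul_pow, ← Real.exp_nat_mul, mul_one]
        ring

theorem pow_le_exp_neg {x : ℝ} (hx0 : 0 ≤ x) (hx : x ≤ Real.exp (-1)) (k : ℕ) :
    x ^ k ≤ Real.exp (-(k : ℝ)) := by
  calc x ^ k ≤ (Real.exp (-1)) ^ k := pow_le_pow_left₀ hx0 hx k
    _ = _ := by rw [← Real.exp_nat_mul]; ring_nf

theorem exp_neg_one_gt : (9 / 25 : ℝ) ≤ Real.exp (-1) := by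
  rw [Real.exp_neg]
  have := Real.exp_one_lt_d9
  have h0 := Real.exp_pos 1
  rw [le_inv_comm₀ (by norm_num) h0]
  norm_num at *
  linarith

/-- Many common neighbours are unlikely. -/
theorem common_le {d : ℕ} (hd : 0 < d) (h16 : 16 * d ≤ Fintype.card V) (S : Finset V) (k : ℕ)
    (hk0 : 0 < k) (hk : 8 * (S.card * k) ≤ Fintype.card V * d) :
    (num d (fun G : SimpleGraph V => k ≤ (univ.filter fun t => ∀ x ∈ S, G.Adj x t).card) : ℝ) ≤
      (Real.exp 1 * Fintype.card V * (2 * d / Fintype.card V) ^ S.card / k) ^ k *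
        (regG V d).card := by
  set n := Fintype.card V with hn
  set F : Finset V → Finset (Sym2 V) := fun T => (S ×ˢ T).image fun p => s(p.1, p.2) with hF
  set I : Finset (Finset V) := (powersetCard k univ).filter fun T => Disjoint S T with hI
  have h1 := num_le_card_mul (d := d) I
    (fun G : SimpleGraph V => k ≤ (univ.filter fun t => ∀ x ∈ S, G.Adj x t).card)
    (fun T G => ∀ e ∈ F T, e ∈ G.edgeSet)
    ((2 * d / n) ^ (S.card * k) * (regG V d).card) ?_ ?_
  · refine h1.trans ?_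
    rw [← mul_assoc]
    refine mul_le_mul_of_nonneg_right ?_ (by positivity)
    have h2 : (I.card : ℝ) ≤ (n.choose k : ℝ) := by
      have : I.card ≤ n.choose k := by
        refine (card_filter_le _ _).trans ?_
        rw [card_powersetCard, card_univ]
      exact_mod_cast this
    calc (I.card : ℝ) * (2 * d / n) ^ (S.card * k) ≤ (n.choose k : ℝ) * (2 * d / n) ^ (S.card * k) :=
          mul_le_mul_of_nonneg_right h2 (by positivity)
      _ = (n.choose k : ℝ) * ((2 * d / n) ^ S.card) ^ k := by rw [pow_mul]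
      _ ≤ _ := choose_mul_pow_le n k hk0 _ (by positivity)
  · intro G _ h
    obtain ⟨T, hT, hTc⟩ := exists_subset_card_eq h
    refine ⟨T, ?_, ?_⟩
    · rw [hI, mem_filter, mem_powersetCard]
      refine ⟨⟨subset_univ _, hTc⟩, ?_⟩
      rw [disjoint_left]
      intro x hx hxT
      have := hT hxT
      rw [mem_filter] at this
      exact (this.2 x hx).ne rfl
    · intro e he
      simp only [hF, mem_image, mem_product] at he
      obtain ⟨p, ⟨hp1, hp2⟩, rfl⟩ := he
      have := hT hp2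
      rw [mem_filter] at this
      exact this.2 p.1 hp1
  · intro T hT
    rw [hI, mem_filter, mem_powersetCard] at hT
    have hc : (F T).card = S.card * k := by
      simp only [hF]
      rw [card_image_of_injOn, card_product, hT.1.2]
      rintro ⟨x, y⟩ hp ⟨x', y'⟩ hp' h
      simp only [coe_product, Set.mem_prod, mem_coe] at hp hp'
      simp only [Sym2.eq_iff] at h
      rcases h with h | h
      · rw [h.1, h.2]
      · exfalso
        exact disjoint_left.1 hT.2 hp.1 (h.1 ▸ hp'.2)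
    have := num_subset_le hd h16 (F T) (by rw [hc]; exact hk)
    rwa [hc] at this

/-- Upper bound for codegrees. -/
theorem codeg_up {d : ℕ} (hd : 0 < d) (h16 : 16 * d ≤ Fintype.card V) (k : ℕ)
    (hk0 : 0 < k) (hk : 16 * k ≤ Fintype.card V * d)
    (hk2 : (303 / 10) * (d : ℝ) ^ 2 ≤ k * Fintype.card V) :
    (num d (fun G : SimpleGraph V => ∃ a b, a ≠ b ∧ k ≤ (nb G a ∩ nb G b).card) : ℝ) ≤
      (Fintype.card V : ℝ) ^ 2 * Real.exp (-(k : ℝ)) * (regG V d).card := by
  set n := Fintype.card V with hn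
  have hn0 : (0 : ℝ) < n := by exact_mod_cast (by omega : 0 < n)
  have hk0' : (0 : ℝ) < k := by exact_mod_cast hk0
  have h1 := num_le_card_mul (d := d) ((univ : Finset (V × V)).filter fun q => q.1 ≠ q.2)
    (fun G : SimpleGraph V => ∃ a b, a ≠ b ∧ k ≤ (nb G a ∩ nb G b).card)
    (fun q G => k ≤ (univ.filter fun t => ∀ x ∈ ({q.1, q.2} : Finset V), G.Adj x t).card)
    (Real.exp (-(k : ℝ)) * (regG V d).card) ?_ ?_
  · refine h1.trans ?_
    rw [← mul_assoc]
    refine mul_le_mul_of_nonneg_right (mul_le_mul_of_nonneg_right ?_ (Real.exp_pos _).le)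
      (by positivity)
    have : ((univ : Finset (V × V)).filter fun q => q.1 ≠ q.2).card ≤ n ^ 2 := by
      refine (card_filter_le _ _).trans ?_
      rw [card_univ, Fintype.card_prod, sq]
    exact_mod_cast this
  · rintro G _ ⟨a, b, hab, h⟩
    refine ⟨(a, b), by simpa using hab, ?_⟩
    have : (univ.filter fun t => ∀ x ∈ ({a, b} : Finset V), G.Adj x t) = nb G a ∩ nb G b := by
      ext t
      rw [mem_filter, mem_inter, mem_nb, mem_nb]
      simp
    simp only
    rw [this]; exact h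
  · rintro ⟨a, b⟩ hq
    rw [mem_filter] at hq
    have hc : ({a, b} : Finset V).card = 2 := card_pair hq.2
    refine (common_le hd h16 {a, b} k hk0 (by rw [hc]; linarith)).trans ?_
    refine mul_le_mul_of_nonneg_right ?_ (by positivity)
    refine pow_le_exp_neg (by positivity) ?_ k
    rw [hc, div_le_iff₀ hk0']
    have e1 : Real.exp 1 < 68 / 25 := lt_trans Real.exp_one_lt_d9 (by norm_num)
    have e2 := exp_neg_one_gt
    have e3 : Real.exp 1 * n * (2 * d / n) ^ 2 = 4 * Real.exp 1 * (d ^ 2 / n) := by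
      field_simp; ring
    have e4 : (d : ℝ) ^ 2 / n ≤ k / (303 / 10) := by
      rw [div_le_div_iff₀ hn0 (by norm_num)]; linarith
    rw [e3]
    have e5 : 4 * Real.exp 1 * ((d : ℝ) ^ 2 / n) ≤ 4 * (68 / 25) * (k / (303 / 10)) :=
      mul_le_mul (by linarith) e4 (by positivity) (by norm_num)
    have e6 : 9 / 25 * (k : ℝ) ≤ Real.exp (-1) * k := mul_le_mul_of_nonneg_right e2 hk0'.le
    refine e5.trans (le_trans ?_ e6)
    linarith

/-- Upper bound for the number of common neighbours of three vertices. -/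
theorem triple_up {d : ℕ} (hd : 0 < d) (h16 : 16 * d ≤ Fintype.card V) (k : ℕ)
    (hk0 : 0 < k) (hk : 24 * k ≤ Fintype.card V * d)
    (hk2 : 61 * (d : ℝ) ^ 3 ≤ k * (Fintype.card V : ℝ) ^ 2) :
    (num d (fun G : SimpleGraph V => ∃ a b e, a ≠ b ∧ a ≠ e ∧ b ≠ e ∧
      k ≤ (nb G a ∩ nb G b ∩ nb G e).card) : ℝ) ≤
      (Fintype.card V : ℝ) ^ 3 * Real.exp (-(k : ℝ)) * (regG V d).card := by
  set n := Fintype.card V with hn
  have hn0 : (0 : ℝ) < n := by exact_mod_cast (by omega : 0 < n)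
  have hk0' : (0 : ℝ) < k := by exact_mod_cast hk0
  have h1 := num_le_card_mul (d := d)
    ((univ : Finset (V × V × V)).filter fun q => q.1 ≠ q.2.1 ∧ q.1 ≠ q.2.2 ∧ q.2.1 ≠ q.2.2)
    (fun G : SimpleGraph V => ∃ a b e, a ≠ b ∧ a ≠ e ∧ b ≠ e ∧
      k ≤ (nb G a ∩ nb G b ∩ nb G e).card)
    (fun q G => k ≤ (univ.filter fun t => ∀ x ∈ ({q.1, q.2.1, q.2.2} : Finset V), G.Adj x t).card)
    (Real.exp (-(k : ℝ)) * (regG V d).card) ?_ ?_
  · refine h1.trans ?_
    rw [← mul_assoc]
    refine mul_le_mul_of_nonneg_right (mul_le_mul_of_nonneg_right ?_ (Real.exp_pos _).le)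
      (by positivity)
    have : ((univ : Finset (V × V × V)).filter
        fun q => q.1 ≠ q.2.1 ∧ q.1 ≠ q.2.2 ∧ q.2.1 ≠ q.2.2).card ≤ n ^ 3 := by
      refine (card_filter_le _ _).trans ?_
      rw [card_univ, Fintype.card_prod, Fintype.card_prod]
      exact le_of_eq (by ring)
    exact_mod_cast this
  · rintro G _ ⟨a, b, e, hab, hae, hbe, h⟩
    refine ⟨(a, b, e), by simp [hab, hae, hbe], ?_⟩
    have : (univ.filter fun t => ∀ x ∈ ({a, b, e} : Finset V), G.Adj x t) =
        nb G a ∩ nb G b ∩ nb G e := by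
      ext t
      rw [mem_filter, mem_inter, mem_inter, mem_nb, mem_nb, mem_nb]
      simp [and_assoc]
    simp only
    rw [this]; exact h
  · rintro ⟨a, b, e⟩ hq
    rw [mem_filter] at hq
    have hc : ({a, b, e} : Finset V).card = 3 := card_eq_three.2
      ⟨a, b, e, hq.2.1, hq.2.2.1, hq.2.2.2, rfl⟩
    refine (common_le hd h16 {a, b, e} k hk0 (by rw [hc]; linarith)).trans ?_
    refine mul_le_mul_of_nonneg_right ?_ (by positivity)
    refine pow_le_exp_neg (by positivity) ?_ k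
    rw [hc, div_le_iff₀ hk0']
    have e1 : Real.exp 1 < 68 / 25 := lt_trans Real.exp_one_lt_d9 (by norm_num)
    have e2 := exp_neg_one_gt
    have e3 : Real.exp 1 * n * (2 * d / n) ^ 3 = 8 * Real.exp 1 * (d ^ 3 / n ^ 2) := by
      field_simp; ring
    have e4 : (d : ℝ) ^ 3 / n ^ 2 ≤ k / 61 := by
      rw [div_le_div_iff₀ (by positivity) (by norm_num)]; linarith
    rw [e3]
    have e5 : 8 * Real.exp 1 * ((d : ℝ) ^ 3 / n ^ 2) ≤ 8 * (68 / 25) * (k / 61) :=
      mul_le_mul (by linarith) e4 (by positivity) (by norm_num)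
    have e6 : 9 / 25 * (k : ℝ) ≤ Real.exp (-1) * k := mul_le_mul_of_nonneg_right e2 hk0'.le
    refine e5.trans (le_trans ?_ e6)
    linarith

end Pool.Agent.H.MP_0fd30f_pr
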