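import Pool.Agent.H.MP_0fd30f_pr.Sparse1

/-!
# Union bounds in the sparse case, II
-/

open Finset

namespace Pool.Agent.H.MP_0fd30f_pr

open scoped Classical

variable {V : Type*} [Fintype V]

/-- Many edges in a set of pairs. -/
theorem many_edges_le {d : ℕ} (hd : 0 < d) (h16 : 16 * d ≤ Fintype.card V)
    (A : Finset (Sym2 V)) (k : ℕ) (hk0 : 0 < k) (hk : 8 * k ≤ Fintype.card V * d)
    (hk2 : Real.exp 1 * A.card * (2 * d / Fintype.card V) ≤ Real.exp (-1) * k) :
    (num d (fun G : SimpleGraph V => k ≤ (A.filter (· ∈ G.edgeSet)).card) : ℝ) ≤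
      Real.exp (-(k : ℝ)) * (regG V d).card := by
  have hk0' : (0 : ℝ) < k := by exact_mod_cast hk0
  have h1 := num_le_card_mul (d := d) (powersetCard k A)
    (fun G : SimpleGraph V => k ≤ (A.filter (· ∈ G.edgeSet)).card)
    (fun F G => ∀ e ∈ F, e ∈ G.edgeSet)
    ((2 * d / Fintype.card V) ^ k * (regG V d).card) ?_ ?_
  · refine h1.trans ?_
    rw [← mul_assoc, card_powersetCard]
    refine mul_le_mul_of_nonneg_right ?_ (by positivity)
    refine (choose_mul_pow_le A.card k hk0 _ (by positivity)).trans ?_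
    refine pow_le_exp_neg (by positivity) ?_ k
    rw [div_le_iff₀ hk0']
    exact hk2
  · intro G _ h
    obtain ⟨F, hF, hFc⟩ := exists_subset_card_eq h
    refine ⟨F, ?_, ?_⟩
    · rw [mem_powersetCard]
      exact ⟨hF.trans (filter_subset _ _), hFc⟩
    · intro e he
      have := hF he
      rw [mem_filter] at this
      exact this.2
  · intro F hF
    rw [mem_powersetCard] at hF
    have := num_subset_le hd h16 F (by rw [hF.2]; exact hk)
    rwa [hF.2] at this

theorem sum_exp_card (n : ℕ) (hn : Fintype.card V = n) (h2 : 2 ≤ n) :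
    ∑ X ∈ (univ : Finset (Finset V)).filter (fun X => X.Nonempty),
      Real.exp (-(4 * X.card * Real.log n)) ≤ 2 / (n : ℝ) ^ 3 := by
  have hn2 : (2 : ℝ) ≤ n := by exact_mod_cast h2
  have hn0 : (0 : ℝ) < n := by linarith
  set t : ℝ := 1 / (n : ℝ) ^ 4 with ht
  have h1 : ∀ X : Finset V, Real.exp (-(4 * X.card * Real.log n)) = t ^ X.card := by
    intro X
    have : t = Real.exp (-(4 * Real.log n)) := by
      rw [ht, Real.exp_neg, one_div]
      congr 1
      rw [mul_comm, Real.exp_mul, Real.exp_log hn0]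
      norm_cast
    rw [this, ← Real.exp_nat_mul]
    ring_nf
  have h3 : ∑ X : Finset V, t ^ X.card = (t + 1) ^ n := by
    have := Finset.sum_pow_mul_eq_add_pow t 1 (univ : Finset V)
    simp only [powerset_univ, one_pow, mul_one, card_univ, hn] at this
    exact this
  have h4 : ∑ X ∈ (univ : Finset (Finset V)).filter (fun X => X.Nonempty), t ^ X.card
      = (t + 1) ^ n - 1 := by
    rw [← h3, ← Finset.sum_filter_add_sum_filter_not univ (fun X : Finset V => X.Nonempty)]
    have : (univ : Finset (Finset V)).filter (fun X => ¬ X.Nonempty) = {∅} := by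
      ext X
      simp [Finset.not_nonempty_iff_eq_empty]
    rw [this]
    simp
  simp_rw [h1]
  rw [h4]
  have ht0 : 0 ≤ t := by positivity
  have hnt : (n : ℝ) * t = 1 / (n : ℝ) ^ 3 := by
    rw [ht]; field_simp
  have hx : 1 / (n : ℝ) ^ 3 ≤ 1 / 8 := by
    refine div_le_div_of_nonneg_left (by norm_num) (by norm_num) ?_
    calc (8 : ℝ) = 2 ^ 3 := by norm_num
      _ ≤ (n : ℝ) ^ 3 := pow_le_pow_left₀ (by norm_num) hn2 3
  have h5 : (t + 1) ^ n ≤ Real.exp (1 / (n : ℝ) ^ 3) := by
    calc (t + 1) ^ n ≤ (Real.exp t) ^ n :=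
          pow_le_pow_left₀ (by linarith) (Real.add_one_le_exp t) n
      _ = _ := by rw [← Real.exp_nat_mul, hnt]
  set x : ℝ := 1 / (n : ℝ) ^ 3 with hxdef
  have hx0 : 0 ≤ x := by positivity
  have h6 : Real.exp x ≤ 1 + 2 * x := by
    have e1 := Real.add_one_le_exp (-x)
    have e2 : Real.exp x * Real.exp (-x) = 1 := by rw [← Real.exp_add]; simp
    have e3 := Real.exp_pos x
    nlinarith
  have h7 : 2 / (n : ℝ) ^ 3 = 2 * x := by rw [hxdef]; ring
  rw [h7]
  linarith

/-- Discrepancy bound. -/
theorem disc_bound {d : ℕ} (hd : 0 < d) (h16 : 16 * d ≤ Fintype.card V)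
    (h100 : 100 ≤ Fintype.card V)
    (hdl : 100 * Real.log (Fintype.card V) ≤ d) :
    (num d (fun G : SimpleGraph V => ∃ X Y : Finset V, 400 * Y.card ≤ Fintype.card V ∧
      40 * (d / Fintype.card V : ℝ) * X.card * Y.card +
        10 * (X.card + Y.card) * Real.log (Fintype.card V) < (eXY G X Y : ℝ)) : ℝ) ≤
      1 / (Fintype.card V : ℝ) * (regG V d).card := by
  set n := Fintype.card V with hn
  have hn100 : (100 : ℝ) ≤ n := by exact_mod_cast h100
  have hn0 : (0 : ℝ) < n := by linarith
  have hd0 : (0 : ℝ) < d := by exact_mod_cast hd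
  have hlog : 4 ≤ Real.log n := by
    rw [Real.le_log_iff_exp_le (by linarith)]
    have := Real.exp_one_lt_d9
    calc Real.exp 4 = (Real.exp 1) ^ 4 := by rw [← Real.exp_nat_mul]; norm_num
      _ ≤ (2.7182818286 : ℝ) ^ 4 := pow_le_pow_left₀ (Real.exp_pos _).le this.le _
      _ ≤ n := by norm_num; linarith
  set NE : Finset (Finset V) := (univ : Finset (Finset V)).filter (fun X => X.Nonempty) with hNE
  set AA : Finset V → Finset V → Finset (Sym2 V) :=
    fun X Y => (X ×ˢ Y).image fun p => s(p.1, p.2) with hAA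
  set kk : Finset V → Finset V → ℕ := fun X Y =>
    ⌈20 * (d / n : ℝ) * X.card * Y.card + 4 * (X.card + Y.card) * Real.log n⌉₊ with hkk
  set I := (NE ×ˢ NE).filter fun q => 400 * q.2.card ≤ n with hI
  have hsub : ∀ G ∈ regG V d, (∃ X Y : Finset V, 400 * Y.card ≤ n ∧
      40 * (d / n : ℝ) * X.card * Y.card + 10 * (X.card + Y.card) * Real.log n <
        (eXY G X Y : ℝ)) →
      ∃ q ∈ I, kk q.1 q.2 ≤ ((AA q.1 q.2).filter (· ∈ G.edgeSet)).card := by
    rintro G _ ⟨X, Y, hY, h⟩
    have hXne : X.Nonempty := by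
      rw [Finset.nonempty_iff_ne_empty]
      rintro rfl
      simp [eXY] at h
      have : (0 : ℝ) ≤ 10 * (Y.card : ℝ) * Real.log n := by positivity
      linarith
    have hYne : Y.Nonempty := by
      rw [Finset.nonempty_iff_ne_empty]
      rintro rfl
      simp [eXY] at h
      have : (0 : ℝ) ≤ 10 * (X.card : ℝ) * Real.log n := by positivity
      linarith
    refine ⟨(X, Y), ?_, ?_⟩
    · simp only [hI, hNE, mem_filter, mem_product, mem_univ, true_and]
      exact ⟨⟨hXne, hYne⟩, hY⟩
    · have h1 : eXY G X Y ≤ 2 * ((AA X Y).filter (· ∈ G.edgeSet)).card := by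
        refine le_trans (card_le_card ?_) (Pool.Agent.H.MP_ccfaf0_pr.card_sym2_le _)
        intro p hp
        rw [mem_filter] at hp
        simp only [mem_filter, mem_univ, true_and, hAA]
        exact ⟨mem_image_of_mem _ hp.1, hp.2⟩
      have h2 : (eXY G X Y : ℝ) ≤ 2 * (((AA X Y).filter (· ∈ G.edgeSet)).card : ℝ) := by
        exact_mod_cast h1
      simp only [hkk]
      rw [Nat.ceil_le]
      have h3 : (0 : ℝ) ≤ (X.card + Y.card) * Real.log n := by positivity
      nlinarith
  have h1 : (num d (fun G : SimpleGraph V => ∃ X Y : Finset V, 400 * Y.card ≤ n ∧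
      40 * (d / n : ℝ) * X.card * Y.card + 10 * (X.card + Y.card) * Real.log n <
        (eXY G X Y : ℝ)) : ℝ) ≤ ∑ q ∈ I, (num d (fun G : SimpleGraph V =>
          kk q.1 q.2 ≤ ((AA q.1 q.2).filter (· ∈ G.edgeSet)).card) : ℝ) := by
    exact_mod_cast num_le_sum I _ _ hsub
  have hterm : ∀ q ∈ I, (num d (fun G : SimpleGraph V =>
      kk q.1 q.2 ≤ ((AA q.1 q.2).filter (· ∈ G.edgeSet)).card) : ℝ) ≤
      Real.exp (-(4 * q.1.card * Real.log n)) * Real.exp (-(4 * q.2.card * Real.log n)) *
        (regG V d).card := by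
    rintro ⟨X, Y⟩ hq
    simp only [hI, hNE, mem_filter, mem_product, mem_univ, true_and] at hq
    obtain ⟨⟨hX, hY⟩, hY400⟩ := hq
    have hx1 : (1 : ℝ) ≤ X.card := by exact_mod_cast card_pos.2 hX
    have hy1 : (1 : ℝ) ≤ Y.card := by exact_mod_cast card_pos.2 hY
    have hxn : (X.card : ℝ) ≤ n := by exact_mod_cast card_le_univ X
    have hyn : 400 * (Y.card : ℝ) ≤ n := by exact_mod_cast hY400
    have hk1 : 20 * (d / n : ℝ) * X.card * Y.card + 4 * (X.card + Y.card) * Real.log n ≤
        (kk X Y : ℝ) := Nat.le_ceil _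
    have hk2 : (kk X Y : ℝ) ≤
        20 * (d / n : ℝ) * X.card * Y.card + 4 * (X.card + Y.card) * Real.log n + 1 :=
      (Nat.ceil_lt_add_one (by positivity)).le
    have hkpos : 0 < kk X Y := by
      have : (0 : ℝ) < (kk X Y : ℝ) := by
        refine lt_of_lt_of_le ?_ hk1
        have : (0 : ℝ) ≤ 20 * (d / n : ℝ) * X.card * Y.card := by positivity
        nlinarith
      exact_mod_cast this
    have hpxy : (d / n : ℝ) * X.card * Y.card ≤ d * n / 400 := by
      have e1 : (d / n : ℝ) * X.card * Y.card ≤ (d / n : ℝ) * n * (n / 400) := by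
        have : (Y.card : ℝ) ≤ n / 400 := by linarith
        gcongr
      refine e1.trans (le_of_eq ?_)
      field_simp
    have h8 : 8 * kk X Y ≤ n * d := by
      have : (8 : ℝ) * kk X Y ≤ n * d := by
        have e2 : 4 * ((X.card : ℝ) + Y.card) * Real.log n ≤ 4 * (n + n / 400) * Real.log n := by
          have : (Y.card : ℝ) ≤ n / 400 := by linarith
          gcongr
        nlinarith
      exact_mod_cast this
    refine (many_edges_le hd h16 (AA X Y) (kk X Y) hkpos h8 ?_).trans ?_
    · have hAc : ((AA X Y).card : ℝ) ≤ X.card * Y.card := by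
        have : (AA X Y).card ≤ X.card * Y.card := by
          simp only [hAA]
          exact card_image_le.trans (card_product _ _).le
        exact_mod_cast this
      have e1 : Real.exp 1 < 68 / 25 := lt_trans Real.exp_one_lt_d9 (by norm_num)
      have e2 := exp_neg_one_gt
      calc Real.exp 1 * (AA X Y).card * (2 * d / n) ≤ (68 / 25) * (X.card * Y.card) * (2 * d / n) := by
            gcongr
        _ = (136 / 25) * ((d / n : ℝ) * X.card * Y.card) := by ring
        _ ≤ (9 / 25) * (20 * (d / n : ℝ) * X.card * Y.card + 4 * (X.card + Y.card) * Real.log n) := by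
            have e3 : (0 : ℝ) ≤ (d / n : ℝ) * X.card * Y.card := by positivity
            have e4 : (0 : ℝ) ≤ 4 * ((X.card : ℝ) + Y.card) * Real.log n := by positivity
            nlinarith
        _ ≤ Real.exp (-1) * (kk X Y) := by
            refine mul_le_mul e2 hk1 (by positivity) (Real.exp_pos _).le
    · refine mul_le_mul_of_nonneg_right ?_ (by positivity)
      rw [← Real.exp_add]
      refine Real.exp_le_exp.2 ?_
      have : (0 : ℝ) ≤ 20 * (d / n : ℝ) * X.card * Y.card := by positivity
      nlinarith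
  refine h1.trans ((Finset.sum_le_sum hterm).trans ?_)
  rw [← Finset.sum_mul]
  refine mul_le_mul_of_nonneg_right ?_ (by positivity)
  calc ∑ q ∈ I, Real.exp (-(4 * q.1.card * Real.log n)) * Real.exp (-(4 * q.2.card * Real.log n))
      ≤ ∑ q ∈ NE ×ˢ NE,
        Real.exp (-(4 * q.1.card * Real.log n)) * Real.exp (-(4 * q.2.card * Real.log n)) :=
        Finset.sum_le_sum_of_subset_of_nonneg (filter_subset _ _) fun q _ _ => by positivity
    _ = (∑ X ∈ NE, Real.exp (-(4 * X.card * Real.log n))) *
        (∑ X ∈ NE, Real.exp (-(4 * X.card * Real.log n))) := by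
        rw [Finset.sum_product, Finset.sum_mul_sum]
    _ ≤ (2 / (n : ℝ) ^ 3) * (2 / (n : ℝ) ^ 3) := by
        have := sum_exp_card (V := V) n hn.symm (by omega)
        exact mul_le_mul this this (Finset.sum_nonneg fun X _ => (Real.exp_pos _).le)
          (by positivity)
    _ ≤ 1 / (n : ℝ) := by
        rw [div_mul_div_comm, div_le_div_iff₀ (by positivity) hn0]
        have e1 : (n : ℝ) ^ 3 * (n : ℝ) ^ 3 = n ^ 5 * n := by ring
        rw [e1]
        have e2 : (4 : ℝ) ≤ (n : ℝ) ^ 5 := by
          calc (4 : ℝ) ≤ 100 ^ 5 := by norm_num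
            _ ≤ (n : ℝ) ^ 5 := pow_le_pow_left₀ (by norm_num) hn100 5
        nlinarith

/-- Codes for a set of size `s` with a function on it. -/
noncomputable def codes (V : Type*) [Fintype V] (s : ℕ) : Finset (Finset V × (V → V)) :=
  univ.filter fun q => q.1.card = s ∧ ∀ x, x ∉ q.1 → q.2 x = x

theorem card_codes_le (s : ℕ) : (codes V s).card ≤ (Fintype.card V) ^ (2 * s) := by
  set n := Fintype.card V with hn
  have h1 : codes V s ⊆ (powersetCard s (univ : Finset V)).biUnion fun S =>
      (Fintype.piFinset fun x => if x ∈ S then univ else {x}).image fun b => (S, b) := by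
    rintro ⟨S, b⟩ hq
    simp only [codes, mem_filter, mem_univ, true_and] at hq
    rw [mem_biUnion]
    refine ⟨S, ?_, ?_⟩
    · rw [mem_powersetCard]; exact ⟨subset_univ _, hq.1⟩
    · rw [mem_image]
      refine ⟨b, ?_, rfl⟩
      rw [Fintype.mem_piFinset]
      intro x
      by_cases hx : x ∈ S
      · simp [hx]
      · simp [hx, hq.2 x hx]
  refine (card_le_card h1).trans (card_biUnion_le.trans ?_)
  calc ∑ S ∈ powersetCard s (univ : Finset V),
        ((Fintype.piFinset fun x => if x ∈ S then (univ : Finset V) else {x}).image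
          fun b => (S, b)).card
      ≤ ∑ _S ∈ powersetCard s (univ : Finset V), n ^ s := by
        refine Finset.sum_le_sum fun S hS => card_image_le.trans ?_
        rw [mem_powersetCard] at hS
        rw [Fintype.card_piFinset]
        have : ∀ x : V, (if x ∈ S then (univ : Finset V) else {x}).card =
            if x ∈ S then n else 1 := by
          intro x; split_ifs <;> simp [hn]
        simp_rw [this]
        rw [Finset.prod_ite, prod_const, prod_const_one, mul_one]
        rw [filter_mem_eq_inter, univ_inter, hS.2]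
    _ = (n.choose s) * n ^ s := by
        rw [Finset.sum_const, card_powersetCard, card_univ, smul_eq_mul]
    _ ≤ n ^ s * n ^ s := Nat.mul_le_mul_right _ (Nat.choose_le_pow n s)
    _ = n ^ (2 * s) := by rw [← pow_add]; ring_nf

/-- Edges mapped to edges. -/
theorem map_bound {d : ℕ} (hd : 0 < d) (h16 : 16 * d ≤ Fintype.card V) (k : ℕ)
    (hk0 : 0 < k) (hk : 16 * k ≤ Fintype.card V * d)
    (hk2 : 31 * (d : ℝ) ^ 4 ≤ k * (Fintype.card V : ℝ) ^ 2)
    (hk3 : (2 * d + 3) * Real.log (Fintype.card V) ≤ k) :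
    (num d (fun G : SimpleGraph V => ∃ (S : Finset V) (b : V → V), S.card ≤ d ∧
      Set.InjOn b S ∧ 3 * k ≤ ((pairs V).filter fun e => (∀ x ∈ e, x ∈ S) ∧ e ∈ G.edgeSet ∧
        Sym2.map b e ∈ G.edgeSet ∧ Sym2.map b e ≠ e).card) : ℝ) ≤
      1 / (Fintype.card V : ℝ) * (regG V d).card := by
  set n := Fintype.card V with hn
  have hn0 : (0 : ℝ) < n := by exact_mod_cast (by omega : 0 < n)
  have hk0' : (0 : ℝ) < k := by exact_mod_cast hk0
  have hd1 : (1 : ℝ) ≤ d := by exact_mod_cast hd
  have hdn : 16 * (d : ℝ) ≤ n := by exact_mod_cast h16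
  set J : Finset (Finset V × (V → V)) := (range (d + 1)).biUnion fun s => codes V s with hJ
  have hJc : J.card ≤ n ^ (2 * d + 1) := by
    refine card_biUnion_le.trans ?_
    calc ∑ s ∈ range (d + 1), (codes V s).card ≤ ∑ _s ∈ range (d + 1), n ^ (2 * d) := by
          refine Finset.sum_le_sum fun s hs => (card_codes_le s).trans ?_
          rw [mem_range] at hs
          exact Nat.pow_le_pow_right (by omega) (by omega)
      _ = (d + 1) * n ^ (2 * d) := by rw [Finset.sum_const, card_range, smul_eq_mul]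
      _ ≤ n * n ^ (2 * d) := Nat.mul_le_mul_right _ (by omega)
      _ = _ := by rw [pow_succ]; ring
  -- index set
  set pS : Finset V → Finset (Sym2 V) := fun S => (pairs V).filter fun e => ∀ x ∈ e, x ∈ S with hpS
  have hpSc : ∀ S : Finset V, S.card ≤ d → (pS S).card ≤ d ^ 2 := by
    intro S hS
    have h1 : pS S ⊆ (S ×ˢ S).image fun p => s(p.1, p.2) := by
      intro e he
      simp only [hpS, mem_filter] at he
      revert he
      induction e with
      | h x y =>
        intro he
        rw [mem_image]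
        exact ⟨(x, y), mem_product.2 ⟨he.2 x (Sym2.mem_mk_left _ _),
          he.2 y (Sym2.mem_mk_right _ _)⟩, rfl⟩
    refine (card_le_card h1).trans (card_image_le.trans ?_)
    rw [card_product, sq]
    exact Nat.mul_le_mul hS hS
  set I : Finset ((Finset V × (V → V)) × Finset (Sym2 V)) :=
    (J.biUnion fun q => (powersetCard k (pS q.1)).image fun E => (q, E)).filter
      fun r => Set.InjOn r.1.2 r.1.1 ∧ (∀ g ∈ r.2, Sym2.map r.1.2 g ∉ r.2) with hI
  have hIc : (I.card : ℝ) ≤ (n : ℝ) ^ (2 * d + 1) * ((d ^ 2).choose k : ℝ) := by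
    have h1 : I.card ≤ n ^ (2 * d + 1) * (d ^ 2).choose k := by
      refine (card_filter_le _ _).trans (card_biUnion_le.trans ?_)
      calc ∑ q ∈ J, ((powersetCard k (pS q.1)).image fun E => (q, E)).card
          ≤ ∑ _q ∈ J, (d ^ 2).choose k := by
            refine Finset.sum_le_sum fun q hq => card_image_le.trans ?_
            rw [card_powersetCard]
            refine Nat.choose_le_choose k (hpSc _ ?_)
            rw [hJ, mem_biUnion] at hq
            obtain ⟨s, hs, hq⟩ := hq
            rw [codes, mem_filter] at hq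
            rw [mem_range] at hs
            omega
        _ = J.card * (d ^ 2).choose k := by rw [Finset.sum_const, smul_eq_mul]
        _ ≤ _ := Nat.mul_le_mul_right _ hJc
    exact_mod_cast h1
  have h1 := num_le_card_mul (d := d) I
    (fun G : SimpleGraph V => ∃ (S : Finset V) (b : V → V), S.card ≤ d ∧
      Set.InjOn b S ∧ 3 * k ≤ ((pairs V).filter fun e => (∀ x ∈ e, x ∈ S) ∧ e ∈ G.edgeSet ∧
        Sym2.map b e ∈ G.edgeSet ∧ Sym2.map b e ≠ e).card)
    (fun r G => ∀ e ∈ r.2 ∪ r.2.image (Sym2.map r.1.2), e ∈ G.edgeSet)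
    ((2 * d / n) ^ (2 * k) * (regG V d).card) ?_ ?_
  · refine h1.trans ?_
    rw [← mul_assoc]
    refine mul_le_mul_of_nonneg_right ?_ (by positivity)
    have h2 : ((d ^ 2).choose k : ℝ) * (2 * d / n) ^ (2 * k) ≤ Real.exp (-(k : ℝ)) := by
      rw [pow_mul]
      refine (choose_mul_pow_le (d ^ 2) k hk0 _ (by positivity)).trans ?_
      refine pow_le_exp_neg (by positivity) ?_ k
      rw [div_le_iff₀ hk0']
      have e1 : Real.exp 1 < 68 / 25 := lt_trans Real.exp_one_lt_d9 (by norm_num)
      have e2 := exp_neg_one_gt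
      have e3 : Real.exp 1 * ((d ^ 2 : ℕ) : ℝ) * (2 * d / n) ^ 2 =
          4 * Real.exp 1 * (d ^ 4 / n ^ 2) := by
        push_cast; field_simp; ring
      have e4 : (d : ℝ) ^ 4 / n ^ 2 ≤ k / 31 := by
        rw [div_le_div_iff₀ (by positivity) (by norm_num)]; linarith
      rw [e3]
      have e5 : 4 * Real.exp 1 * ((d : ℝ) ^ 4 / n ^ 2) ≤ 4 * (68 / 25) * (k / 31) :=
        mul_le_mul (by linarith) e4 (by positivity) (by norm_num)
      have e6 : 9 / 25 * (k : ℝ) ≤ Real.exp (-1) * k := mul_le_mul_of_nonneg_right e2 hk0'.le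
      refine e5.trans (le_trans ?_ e6)
      linarith
    calc (I.card : ℝ) * (2 * d / n) ^ (2 * k) ≤
          ((n : ℝ) ^ (2 * d + 1) * ((d ^ 2).choose k : ℝ)) * (2 * d / n) ^ (2 * k) :=
          mul_le_mul_of_nonneg_right hIc (by positivity)
      _ = (n : ℝ) ^ (2 * d + 1) * (((d ^ 2).choose k : ℝ) * (2 * d / n) ^ (2 * k)) := by ring
      _ ≤ (n : ℝ) ^ (2 * d + 1) * Real.exp (-(k : ℝ)) :=
          mul_le_mul_of_nonneg_left h2 (by positivity)
      _ ≤ 1 / n := by
          have e7 : (n : ℝ) ^ (2 * d + 1) = Real.exp ((2 * d + 1) * Real.log n) := by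
            rw [← Real.rpow_natCast, Real.rpow_def_of_pos hn0]
            push_cast; ring_nf
          have e8 : (1 : ℝ) / n = Real.exp (-Real.log n) := by
            rw [Real.exp_neg, Real.exp_log hn0, one_div]
          rw [e7, e8, ← Real.exp_add]
          refine Real.exp_le_exp.2 ?_
          have e9 : 0 ≤ Real.log n := Real.log_nonneg (by linarith)
          nlinarith
  · rintro G _ ⟨S, b, hS, hb, hcard⟩
    set b' : V → V := fun x => if x ∈ S then b x else x with hb'
    have hb'S : ∀ x ∈ S, b' x = b x := fun x hx => by simp only [hb', if_pos hx]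
    have hmap : ∀ e : Sym2 V, (∀ x ∈ e, x ∈ S) → Sym2.map b' e = Sym2.map b e := by
      intro e he
      exact Sym2.map_congr fun x hx => hb'S x (he x hx)
    set E0 := (pairs V).filter fun e => (∀ x ∈ e, x ∈ S) ∧ e ∈ G.edgeSet ∧
        Sym2.map b e ∈ G.edgeSet ∧ Sym2.map b e ≠ e with hE0
    obtain ⟨Z, hZ, hZc, hZi⟩ := exists_indep (Sym2.map b') E0.card E0 rfl (by
      intro g hg
      rw [hE0, mem_filter] at hg
      rw [hmap g hg.2.1]
      exact hg.2.2.2.2)
    obtain ⟨E, hE, hEc⟩ := exists_subset_card_eq (by omega : k ≤ Z.card)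
    refine ⟨((S, b'), E), ?_, ?_⟩
    · rw [hI, mem_filter, mem_biUnion]
      refine ⟨⟨(S, b'), ?_, ?_⟩, ?_, ?_⟩
      · rw [hJ, mem_biUnion]
        refine ⟨S.card, mem_range.2 (by omega), ?_⟩
        rw [codes, mem_filter]
        exact ⟨mem_univ _, rfl, fun x hx => by simp only [hb', if_neg hx]⟩
      · rw [mem_image]
        refine ⟨E, ?_, rfl⟩
        rw [mem_powersetCard]
        refine ⟨fun e he => ?_, hEc⟩
        have := hZ (hE he)
        rw [hE0, mem_filter] at this
        simp only [hpS, mem_filter]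
        exact ⟨this.1, this.2.1⟩
      · intro x hx y hy hxy
        simp only at hxy hx hy
        rw [hb'S x hx, hb'S y hy] at hxy
        exact hb hx hy hxy
      · intro g hg
        exact fun h => hZi g (hE hg) (hE h)
    · intro e he
      rw [mem_union, mem_image] at he
      rcases he with he | ⟨g, hg, rfl⟩
      · have := hZ (hE he)
        rw [hE0, mem_filter] at this
        exact this.2.2.1
      · have := hZ (hE hg)
        rw [hE0, mem_filter] at this
        simp only
        rw [hmap g this.2.1]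
        exact this.2.2.2.1
  · rintro ⟨⟨S, b⟩, E⟩ hr
    rw [hI, mem_filter, mem_biUnion] at hr
    obtain ⟨⟨q, hq, hqE⟩, hinj, hind⟩ := hr
    rw [mem_image] at hqE
    obtain ⟨E', hE', hEq⟩ := hqE
    simp only [Prod.mk.injEq] at hEq
    obtain ⟨rfl, rfl⟩ := hEq
    simp only at hinj hind hE'
    rw [mem_powersetCard] at hE'
    have hinj2 : Set.InjOn (Sym2.map b) (E' : Set (Sym2 V)) := by
      intro e he e' he' hee
      have h5 := hE'.1 he
      have h6 := hE'.1 he'
      simp only [hpS, mem_filter] at h5 h6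
      revert hee h5 h6
      induction e with
      | h x y =>
      induction e' with
      | h x' y' =>
        intro hee h5 h6
        have a1 := h5.2 x (Sym2.mem_mk_left _ _)
        have a2 := h5.2 y (Sym2.mem_mk_right _ _)
        have a3 := h6.2 x' (Sym2.mem_mk_left _ _)
        have a4 := h6.2 y' (Sym2.mem_mk_right _ _)
        rw [Sym2.map_mk, Sym2.map_mk, Sym2.eq_iff] at hee
        rw [Sym2.eq_iff]
        rcases hee with hee | hee
        · left; exact ⟨hinj a1 a3 hee.1, hinj a2 a4 hee.2⟩
        · right; exact ⟨hinj a1 a4 hee.1, hinj a2 a3 hee.2⟩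
    have hcardU : (E' ∪ E'.image (Sym2.map b)).card = 2 * k := by
      rw [card_union_of_disjoint, card_image_of_injOn hinj2, hE'.2, two_mul]
      rw [disjoint_left]
      intro e he he'
      rw [mem_image] at he'
      obtain ⟨g, hg, rfl⟩ := he'
      exact hind g hg he
    have h8 : 8 * (2 * k) ≤ Fintype.card V * d := by
      have : 16 * k ≤ Fintype.card V * d := hk
      omega
    have := num_subset_le hd h16 (E' ∪ E'.image (Sym2.map b)) (by rw [hcardU]; exact h8)
    rw [hcardU] at this
    exact this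

end Pool.Agent.H.MP_0fd30f_pr
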