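import Pool.Agent.H.MP_0fd30f_pr.Sparse2

/-!
# Union bounds over families of charts
-/

open Finset

namespace Pool.Agent.H.MP_0fd30f_pr

open scoped Classical

variable {V : Type*} [Fintype V]

/-- Families of `m` codes. -/
noncomputable def cset (V : Type*) [Fintype V] (d m : ℕ) : Finset (Fin m → Finset V × (V → V)) :=
  Fintype.piFinset fun _ => codes V d

theorem card_cset_le (d m : ℕ) : (cset V d m).card ≤ (Fintype.card V) ^ (2 * d * m) := by
  rw [cset, Fintype.card_piFinset, Finset.prod_const, card_univ, Fintype.card_fin, pow_mul]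
  exact Nat.pow_le_pow_left (card_codes_le d) m

/-- The pairs of vertices contained in the neighbourhood of `i`. -/
def cov (G : SimpleGraph V) (i : V) (e : Sym2 V) : Prop := ∀ x ∈ e, G.Adj i x

theorem exists_code {d m : ℕ} {G : SimpleGraph V} (hG : G ∈ regG V d) (J : Fin m → V)
    (ψ : V → V → V) : ∃ c ∈ cset V d m, (∀ k e, (∀ x ∈ e, x ∈ (c k).1) ↔ cov G (J k) e) ∧
      ∀ k e, cov G (J k) e → Sym2.map (c k).2 e = Sym2.map (ψ (J k)) e := by
  refine ⟨fun k => (nb G (J k), fun x => if x ∈ nb G (J k) then ψ (J k) x else x), ?_, ?_, ?_⟩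
  · rw [cset, Fintype.mem_piFinset]
    intro k
    rw [codes, mem_filter]
    exact ⟨mem_univ _, card_nb hG _, fun x hx => by simp only [if_neg hx]⟩
  · intro k e
    simp only [cov, mem_nb]
  · intro k e he
    refine Sym2.map_congr fun x hx => ?_
    simp only [if_pos (mem_nb.2 (he x hx))]

/-- Few distinct edges of `G` are represented by a small set `Q` of edges of `H`. -/
theorem cover_bound {d : ℕ} (hd : 4 ≤ d) (h16 : 16 * d ≤ Fintype.card V) :
    (num d (fun G : SimpleGraph V => ∃ (I : Finset V) (Q : Finset (Sym2 V)) (ψ : V → V → V),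
      I.Nonempty ∧
      32 * ((I.card : ℝ) * d + Q.card) * Real.log (Fintype.card V) + 8 ≤ Fintype.card V * d ∧
      (∀ i ∈ I, ∀ e ∈ pairs V, cov G i e → Sym2.map (ψ i) e ∈ Q → e ∈ G.edgeSet) ∧
      4 * ((I.card : ℝ) * d + Q.card) * Real.log (Fintype.card V) ≤
        ((pairs V).filter fun e => ∃ i ∈ I, cov G i e ∧ Sym2.map (ψ i) e ∈ Q).card) : ℝ) ≤
      1 / (Fintype.card V : ℝ) * (regG V d).card := by
  set n := Fintype.card V with hn
  have hn64 : (64 : ℝ) ≤ n := by exact_mod_cast (by omega : 64 ≤ n)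
  have hn0 : (0 : ℝ) < n := by linarith
  have hlog : 0 ≤ Real.log n := Real.log_nonneg (by linarith)
  have hd0 : (4 : ℝ) ≤ d := by exact_mod_cast hd
  have hexp : ∀ a : ℕ, (n : ℝ) ^ a = Real.exp (a * Real.log n) := by
    intro a
    rw [← Real.rpow_natCast, Real.rpow_def_of_pos hn0]
    ring_nf
  -- sizes
  set T : Finset (ℕ × ℕ) := (range (n + 1) ×ˢ range (n ^ 2 + 1)).filter fun t => 1 ≤ t.1 ∧
    32 * ((t.1 : ℝ) * d + t.2) * Real.log n + 8 ≤ n * d with hT
  set Zc : (m : ℕ) → (Fin m → Finset V × (V → V)) → Finset (Sym2 V) → Finset (Sym2 V) :=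
    fun m c Q => (pairs V).filter fun e => ∃ k, (∀ x ∈ e, x ∈ (c k).1) ∧
      Sym2.map (c k).2 e ∈ Q with hZc
  set PP : ℕ × ℕ → SimpleGraph V → Prop := fun t G => ∃ c ∈ cset V d t.1,
    ∃ Q ∈ powersetCard t.2 (univ : Finset (Sym2 V)),
      4 * ((t.1 : ℝ) * d + t.2) * Real.log n ≤ (Zc t.1 c Q).card ∧
      ∀ e ∈ Zc t.1 c Q, e ∈ G.edgeSet with hPP
  have hSym : Fintype.card (Sym2 V) ≤ n ^ 2 := by
    have h1 : Fintype.card (Sym2 V) ≤ Fintype.card (V × V) :=
      Fintype.card_le_of_surjective (fun p : V × V => s(p.1, p.2)) (by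
        intro e
        induction e with
        | h x y => exact ⟨(x, y), rfl⟩)
    rw [Fintype.card_prod] at h1
    rw [sq]; exact h1
  have hsub : ∀ G ∈ regG V d, (∃ (I : Finset V) (Q : Finset (Sym2 V)) (ψ : V → V → V),
      I.Nonempty ∧ 32 * ((I.card : ℝ) * d + Q.card) * Real.log n + 8 ≤ n * d ∧
      (∀ i ∈ I, ∀ e ∈ pairs V, cov G i e → Sym2.map (ψ i) e ∈ Q → e ∈ G.edgeSet) ∧
      4 * ((I.card : ℝ) * d + Q.card) * Real.log n ≤
        ((pairs V).filter fun e => ∃ i ∈ I, cov G i e ∧ Sym2.map (ψ i) e ∈ Q).card) →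
      ∃ t ∈ T, PP t G := by
    rintro G hG ⟨I, Q, ψ, hI, h32, hedge, hcard⟩
    refine ⟨(I.card, Q.card), ?_, ?_⟩
    · rw [hT, mem_filter, mem_product, mem_range, mem_range]
      refine ⟨⟨?_, ?_⟩, card_pos.2 hI, h32⟩
      · have := card_le_univ I
        simp only
        omega
      · have := card_le_univ Q
        simp only
        omega
    · set J : Fin I.card → V := fun k => (I.equivFin.symm k : V) with hJ
      have hJI : ∀ k, J k ∈ I := fun k => (I.equivFin.symm k).2
      have hJs : ∀ i ∈ I, ∃ k, J k = i := by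
        intro i hi
        exact ⟨I.equivFin ⟨i, hi⟩, by simp [hJ]⟩
      obtain ⟨c, hc, hc1, hc2⟩ := exists_code hG J ψ
      have hZeq : Zc I.card c Q =
          (pairs V).filter fun e => ∃ i ∈ I, cov G i e ∧ Sym2.map (ψ i) e ∈ Q := by
        ext e
        simp only [hZc, mem_filter]
        refine and_congr_right fun _ => ?_
        constructor
        · rintro ⟨k, h1, h2⟩
          rw [hc1] at h1
          rw [hc2 k e h1] at h2
          exact ⟨J k, hJI k, h1, h2⟩
        · rintro ⟨i, hi, h1, h2⟩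
          obtain ⟨k, rfl⟩ := hJs i hi
          exact ⟨k, (hc1 k e).2 h1, by rw [hc2 k e h1]; exact h2⟩
      refine ⟨c, hc, Q, ?_, ?_, ?_⟩
      · rw [mem_powersetCard]; exact ⟨subset_univ _, rfl⟩
      · rw [hZeq]; exact hcard
      · rw [hZeq]
        intro e he
        rw [mem_filter] at he
        obtain ⟨hep, i, hi, h1, h2⟩ := he
        exact hedge i hi e hep h1 h2
  have hPPb : ∀ t ∈ T, (num d (PP t) : ℝ) ≤ 1 / (n : ℝ) ^ 8 * (regG V d).card := by
    rintro ⟨m, q⟩ ht
    rw [hT, mem_filter] at ht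
    obtain ⟨-, hm1, h32⟩ := ht
    simp only at hm1 h32
    have hm1' : (1 : ℝ) ≤ m := by exact_mod_cast hm1
    set L : ℕ := ⌈4 * ((m : ℝ) * d + q) * Real.log n⌉₊ with hL
    have hL1 : 4 * ((m : ℝ) * d + q) * Real.log n ≤ L := Nat.le_ceil _
    have hL2 : (L : ℝ) < 4 * ((m : ℝ) * d + q) * Real.log n + 1 :=
      Nat.ceil_lt_add_one (by positivity)
    have h8L : 8 * L ≤ n * d := by
      have : (8 : ℝ) * L ≤ n * d := by linarith
      exact_mod_cast this
    have h1 := num_le_card_mul (d := d) (cset V d m ×ˢ powersetCard q (univ : Finset (Sym2 V)))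
      (PP (m, q)) (fun r G => L ≤ (Zc m r.1 r.2).card ∧ ∀ e ∈ Zc m r.1 r.2, e ∈ G.edgeSet)
      ((2 * d / n) ^ L * (regG V d).card) ?_ ?_
    · refine h1.trans ?_
      rw [← mul_assoc]
      refine mul_le_mul_of_nonneg_right ?_ (by positivity)
      have h2 : ((cset V d m ×ˢ powersetCard q (univ : Finset (Sym2 V))).card : ℝ) ≤
          Real.exp (2 * (m * d + q) * Real.log n) := by
        have h3 : (cset V d m ×ˢ powersetCard q (univ : Finset (Sym2 V))).card ≤
            n ^ (2 * d * m + 2 * q) := by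
          rw [card_product, card_powersetCard, card_univ, pow_add, pow_mul n 2 q]
          refine Nat.mul_le_mul (card_cset_le d m) ?_
          exact (Nat.choose_le_pow _ _).trans (Nat.pow_le_pow_left hSym q)
        calc ((cset V d m ×ˢ powersetCard q (univ : Finset (Sym2 V))).card : ℝ) ≤
            (n : ℝ) ^ (2 * d * m + 2 * q) := by exact_mod_cast h3
          _ = _ := by rw [hexp]; push_cast; ring_nf
      have h3 : (2 * (d : ℝ) / n) ^ L ≤ Real.exp (-(4 * (m * d + q) * Real.log n)) := by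
        refine (pow_le_exp_neg (by positivity) ?_ L).trans (Real.exp_le_exp.2 (by linarith))
        refine le_trans ?_ exp_neg_one_gt
        have : 16 * (d : ℝ) ≤ n := by exact_mod_cast h16
        rw [div_le_iff₀ hn0]; linarith
      refine (mul_le_mul h2 h3 (by positivity) (Real.exp_pos _).le).trans ?_
      rw [← Real.exp_add, hexp, one_div, ← Real.exp_neg]
      refine Real.exp_le_exp.2 ?_
      push_cast
      have h4 : (4 : ℝ) ≤ m * d + q := by
        have : (0 : ℝ) ≤ q := by positivity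
        nlinarith
      nlinarith
    · rintro G _ ⟨c, hc, Q, hQ, h2, h3⟩
      refine ⟨(c, Q), mem_product.2 ⟨hc, hQ⟩, ?_, h3⟩
      rw [hL]
      exact Nat.ceil_le.2 h2
    · rintro ⟨c, Q⟩ _
      by_cases hcase : L ≤ (Zc m c Q).card
      · refine le_trans ?_ (num_subset_le' (by omega) h16 (Zc m c Q) L hcase h8L)
        have : num d (fun G : SimpleGraph V => L ≤ (Zc m c Q).card ∧
            ∀ e ∈ Zc m c Q, e ∈ G.edgeSet) ≤
            num d (fun G : SimpleGraph V => ∀ e ∈ Zc m c Q, e ∈ G.edgeSet) :=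
          num_mono fun G _ h => h.2
        exact_mod_cast this
      · have : num d (fun G : SimpleGraph V => L ≤ (Zc m c Q).card ∧
            ∀ e ∈ Zc m c Q, e ∈ G.edgeSet) = 0 := by
          rw [num_eq, card_eq_zero, filter_eq_empty_iff]
          rintro G _ ⟨h, _⟩
          exact hcase h
        simp only
        rw [this]
        simp only [Nat.cast_zero]
        positivity
  have h1 : (num d (fun G : SimpleGraph V => ∃ (I : Finset V) (Q : Finset (Sym2 V)) (ψ : V → V → V),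
      I.Nonempty ∧ 32 * ((I.card : ℝ) * d + Q.card) * Real.log n + 8 ≤ n * d ∧
      (∀ i ∈ I, ∀ e ∈ pairs V, cov G i e → Sym2.map (ψ i) e ∈ Q → e ∈ G.edgeSet) ∧
      4 * ((I.card : ℝ) * d + Q.card) * Real.log n ≤
        ((pairs V).filter fun e => ∃ i ∈ I, cov G i e ∧ Sym2.map (ψ i) e ∈ Q).card) : ℝ) ≤
      T.card * (1 / (n : ℝ) ^ 8 * (regG V d).card) :=
    num_le_card_mul T _ PP _ hsub hPPb
  refine h1.trans ?_
  rw [← mul_assoc]
  refine mul_le_mul_of_nonneg_right ?_ (by positivity)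
  have hTc : (T.card : ℝ) ≤ (n + 1) * (n ^ 2 + 1) := by
    have : T.card ≤ (n + 1) * (n ^ 2 + 1) := by
      refine (card_filter_le _ _).trans ?_
      rw [card_product, card_range, card_range]
    exact_mod_cast this
  calc (T.card : ℝ) * (1 / (n : ℝ) ^ 8) ≤ ((n + 1) * (n ^ 2 + 1)) * (1 / (n : ℝ) ^ 8) :=
        mul_le_mul_of_nonneg_right hTc (by positivity)
    _ ≤ 1 / n := by
        rw [mul_one_div, div_le_div_iff₀ (by positivity) hn0]
        have e1 : ((n : ℝ) + 1) * (n ^ 2 + 1) ≤ (2 * n) * (2 * n ^ 2) := by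
          have : (1 : ℝ) ≤ (n : ℝ) ^ 2 := by nlinarith
          exact mul_le_mul (by linarith) (by linarith) (by positivity) (by positivity)
        have e2 : (2 * (n : ℝ)) * (2 * n ^ 2) * n = 4 * n ^ 4 := by ring
        have e3 : (4 : ℝ) ≤ (n : ℝ) ^ 4 := by
          calc (4 : ℝ) ≤ 64 ^ 4 := by norm_num
            _ ≤ (n : ℝ) ^ 4 := pow_le_pow_left₀ (by norm_num) hn64 4
        have e4 : (n : ℝ) ^ 8 = n ^ 4 * n ^ 4 := by ring
        have e5 : (0 : ℝ) < (n : ℝ) ^ 4 := by positivity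
        nlinarith

/-- The pairs sharing an image with another pair, for the charts at `J 0, …, J (m-1)`. -/
noncomputable def bad1 {m : ℕ} (G : SimpleGraph V) (J : Fin m → V) (ψ : V → V → V) :
    Finset (Sym2 V) :=
  (pairs V).filter fun g => ∃ k, cov G (J k) g ∧ ∃ l, ∃ g' ∈ pairs V, cov G (J l) g' ∧ g' ≠ g ∧
    Sym2.map (ψ (J l)) g' = Sym2.map (ψ (J k)) g

/-- Few pairs share an image with another pair. -/
theorem respect_bound {d : ℕ} (m : ℕ) (heven : Even (Fintype.card V * d))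
    (h2 : 4 ≤ Fintype.card V) (hd : 2 * d ≤ Fintype.card V) (B : ℝ)
    (hB : 6 * (Fintype.card V : ℝ) * (2 * d * m + Fintype.card V + 3) *
      Real.log (Fintype.card V) ≤ d * B) :
    (num d (fun G : SimpleGraph V => ∃ (J : Fin m → V) (ψ : V → V → V),
      (∀ k l, ∀ g ∈ pairs V, ∀ g' ∈ pairs V, cov G (J k) g → cov G (J l) g' →
        Sym2.map (ψ (J l)) g' = Sym2.map (ψ (J k)) g → (g ∈ G.edgeSet ↔ g' ∈ G.edgeSet)) ∧
      B ≤ (bad1 G J ψ).card) : ℝ) ≤ 1 / (Fintype.card V : ℝ) * (regG V d).card := by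
  set n := Fintype.card V with hn
  have hn4 : (4 : ℝ) ≤ n := by exact_mod_cast h2
  have hn0 : (0 : ℝ) < n := by linarith
  set bc : (Fin m → Finset V × (V → V)) → Finset (Sym2 V) := fun c =>
    (pairs V).filter fun g => ∃ k, (∀ x ∈ g, x ∈ (c k).1) ∧ ∃ l, ∃ g' ∈ pairs V,
      (∀ x ∈ g', x ∈ (c l).1) ∧ g' ≠ g ∧ Sym2.map (c l).2 g' = Sym2.map (c k).2 g with hbc
  have hchoice : ∀ c : Fin m → Finset V × (V → V), ∃ f : Sym2 V → Sym2 V, ∀ g ∈ bc c,
      f g ≠ g ∧ ∃ k, (∀ x ∈ g, x ∈ (c k).1) ∧ ∃ l, f g ∈ pairs V ∧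
      (∀ x ∈ f g, x ∈ (c l).1) ∧ Sym2.map (c l).2 (f g) = Sym2.map (c k).2 g := by
    intro c
    have : ∀ g : Sym2 V, ∃ g', g ∈ bc c → (g' ≠ g ∧ ∃ k, (∀ x ∈ g, x ∈ (c k).1) ∧
        ∃ l, g' ∈ pairs V ∧ (∀ x ∈ g', x ∈ (c l).1) ∧
        Sym2.map (c l).2 g' = Sym2.map (c k).2 g) := by
      intro g
      by_cases hg : g ∈ bc c
      · have hg' := hg
        simp only [hbc, mem_filter] at hg'
        obtain ⟨_, k, hk, l, g', hg'p, h1, h3, h4⟩ := hg'
        exact ⟨g', fun _ => ⟨h3, k, hk, l, hg'p, h1, h4⟩⟩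
      · exact ⟨g, fun h => absurd h hg⟩
    choose f hf using this
    exact ⟨f, fun g hg => hf g hg⟩
  choose f hf using hchoice
  have hind : ∀ c, ∃ Z ⊆ bc c, (bc c).card ≤ 3 * Z.card ∧ ∀ g ∈ Z, f c g ∉ Z :=
    fun c => exists_indep (f c) _ (bc c) rfl fun g hg => (hf c g hg).1
  choose Z hZs hZc hZi using hind
  have h1 := num_le_card_mul (d := d) ((cset V d m).filter fun c => B ≤ ((bc c).card : ℝ))
    (fun G : SimpleGraph V => ∃ (J : Fin m → V) (ψ : V → V → V),
      (∀ k l, ∀ g ∈ pairs V, ∀ g' ∈ pairs V, cov G (J k) g → cov G (J l) g' →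
        Sym2.map (ψ (J l)) g' = Sym2.map (ψ (J k)) g → (g ∈ G.edgeSet ↔ g' ∈ G.edgeSet)) ∧
      B ≤ (bad1 G J ψ).card)
    (fun c G => ∀ g ∈ Z c, (g ∈ G.edgeSet ↔ f c g ∈ G.edgeSet))
    (Real.exp (((n : ℝ) + 2) * Real.log n - (2 * d * m + n + 3) * Real.log n) *
      (regG V d).card) ?_ ?_
  · refine h1.trans ?_
    rw [← mul_assoc]
    refine mul_le_mul_of_nonneg_right ?_ (by positivity)
    have h3 : (((cset V d m).filter fun c => B ≤ ((bc c).card : ℝ)).card : ℝ) ≤
        Real.exp (2 * d * m * Real.log n) := by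
      have h4 := (card_filter_le (cset V d m) fun c => B ≤ ((bc c).card : ℝ)).trans
        (card_cset_le d m)
      calc (((cset V d m).filter fun c => B ≤ ((bc c).card : ℝ)).card : ℝ) ≤
          (n : ℝ) ^ (2 * d * m) := by exact_mod_cast h4
        _ = _ := by
            rw [← Real.rpow_natCast, Real.rpow_def_of_pos hn0]
            push_cast; ring_nf
    refine (mul_le_mul_of_nonneg_right h3 (Real.exp_pos _).le).trans ?_
    rw [← Real.exp_add]
    have h4 : (1 : ℝ) / n = Real.exp (-Real.log n) := by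
      rw [Real.exp_neg, Real.exp_log hn0, one_div]
    rw [h4]
    refine Real.exp_le_exp.2 ?_
    ring_nf
    exact le_rfl
  · rintro G hG ⟨J, ψ, hresp, hcard⟩
    obtain ⟨c, hc, hc1, hc2⟩ := exists_code hG J ψ
    have hbeq : bc c = bad1 G J ψ := by
      ext g
      simp only [hbc, bad1, mem_filter]
      refine and_congr_right fun _ => ?_
      constructor
      · rintro ⟨k, hk, l, g', hg', h5, h6, h7⟩
        rw [hc1] at hk h5
        rw [hc2 l g' h5, hc2 k g hk] at h7
        exact ⟨k, hk, l, g', hg', h5, h6, h7⟩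
      · rintro ⟨k, hk, l, g', hg', h5, h6, h7⟩
        rw [← hc2 l g' h5, ← hc2 k g hk] at h7
        rw [← hc1] at hk h5
        exact ⟨k, hk, l, g', hg', h5, h6, h7⟩
    refine ⟨c, ?_, ?_⟩
    · rw [mem_filter, hbeq]; exact ⟨hc, hcard⟩
    · intro g hg
      have hgb := hZs c hg
      obtain ⟨_, k, hk, l, hp, hl, heq⟩ := hf c g hgb
      have hgp : g ∈ pairs V := by
        simp only [hbc, mem_filter] at hgb
        exact hgb.1
      rw [hc1] at hk hl
      rw [hc2 l _ hl, hc2 k g hk] at heq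
      exact hresp k l g hgp _ hp hk hl heq
  · intro c hc
    rw [mem_filter] at hc
    have hZp : Z c ⊆ pairs V := by
      intro g hg
      have := hZs c hg
      simp only [hbc, mem_filter] at this
      exact this.1
    refine (coinc_le heven h2 hd (Z c) hZp (f c) (hZi c)).trans ?_
    refine mul_le_mul_of_nonneg_right (Real.exp_le_exp.2 ?_) (by positivity)
    have h5 : ((bc c).card : ℝ) ≤ 3 * (Z c).card := by exact_mod_cast hZc c
    have h6 : B ≤ 3 * (Z c).card := hc.2.trans h5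
    have h7 : (2 * (d : ℝ) * m + n + 3) * Real.log n ≤ d / (2 * n) * (Z c).card := by
      rw [div_mul_eq_mul_div, le_div_iff₀ (by positivity)]
      have h8 : (d : ℝ) * B ≤ d * (3 * (Z c).card) := mul_le_mul_of_nonneg_left h6 (by positivity)
      nlinarith
    linarith

end Pool.Agent.H.MP_0fd30f_pr
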