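import Pool.Agent.H.MP_0fd30f_pr.Schur

/-!
# Transfer from `G(n,p)` to random regular graphs
-/

open Finset

namespace Pool.Agent.H.MP_0fd30f_pr

open scoped Classical

variable {V : Type*} [Fintype V]

/-- The largest term of the binomial distribution with mean `M`. -/
theorem mode (N M : ℕ) (h : M ≤ N) :
    (1 : ℝ) ≤ (N + 1) * ((N.choose M : ℝ) * (M / N : ℝ) ^ M * (1 - M / N : ℝ) ^ (N - M)) := by
  rcases Nat.eq_zero_or_pos N with rfl | hN
  · obtain rfl : M = 0 := by omega
    simp
  set p : ℝ := M / N with hp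
  have hN' : (0 : ℝ) < N := by exact_mod_cast hN
  have hp0 : 0 ≤ p := by positivity
  have hp1 : p ≤ 1 := by
    rw [hp, div_le_one hN']; exact_mod_cast h
  set t : ℕ → ℝ := fun j => (N.choose j : ℝ) * p ^ j * (1 - p) ^ (N - j) with ht
  have hsum : ∑ j ∈ range (N + 1), t j = 1 := by
    have := add_pow p (1 - p) N
    rw [add_sub_cancel, one_pow] at this
    rw [this]
    refine Finset.sum_congr rfl fun j _ => ?_
    simp only [ht]; ring
  have hstep : ∀ j, j < N → t (j + 1) * ((j + 1) * (N - M)) = t j * ((N - j) * M) := by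
    intro j hj
    have h1 : ((N.choose (j + 1) : ℝ)) * (j + 1) = (N.choose j : ℝ) * (N - j) := by
      have h2 := Nat.choose_succ_right_eq N j
      have h3 : ((N - j : ℕ) : ℝ) = (N : ℝ) - j := by
        push_cast [Nat.cast_sub hj.le]; ring
      rw [← h3]
      exact_mod_cast h2
    have h4 : (1 - p) * N = N - M := by
      rw [hp]; field_simp
    have h5 : p * N = M := by rw [hp]; field_simp
    have h6 : N - j = (N - (j + 1)) + 1 := by omega
    simp only [ht]
    rw [h6, pow_succ (1 - p), pow_succ p]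
    calc _ = ((N.choose (j + 1) : ℝ) * (j + 1)) * (p ^ j * p) * (1 - p) ^ (N - (j + 1)) *
          (N - M) := by ring
      _ = ((N.choose j : ℝ) * (N - j)) * (p ^ j * p) * (1 - p) ^ (N - (j + 1)) *
          ((1 - p) * N) := by rw [h1, h4]
      _ = (N.choose j : ℝ) * p ^ j * ((1 - p) ^ (N - (j + 1)) * (1 - p)) * ((N - j) * (p * N)) := by
          ring
      _ = _ := by rw [h5]
  have ht0 : ∀ j, 0 ≤ t j := by
    intro j
    simp only [ht]
    have : 0 ≤ 1 - p := by linarith
    positivity
  -- increasing up to M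
  have hup : ∀ j, j < M → t j ≤ t (j + 1) := by
    intro j hj
    have h1 := hstep j (by omega)
    have hj' : (j : ℝ) + 1 ≤ M := by exact_mod_cast hj
    have hM' : (M : ℝ) ≤ N := by exact_mod_cast h
    have h2 : ((j : ℝ) + 1) * (N - M) ≤ (N - j) * M := by nlinarith
    have h3 : (0 : ℝ) < (N - j) * M := by
      have : (0 : ℝ) ≤ j := by positivity
      nlinarith
    by_contra hcon
    push Not at hcon
    have h4 : t (j + 1) * ((j + 1) * (N - M)) ≤ t (j + 1) * ((N - j) * M) :=
      mul_le_mul_of_nonneg_left h2 (ht0 _)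
    have h5 : t (j + 1) * ((N - j) * M) < t j * ((N - j) * M) :=
      mul_lt_mul_of_pos_right hcon h3
    linarith
  have hdown : ∀ j, M ≤ j → j < N → t (j + 1) ≤ t j := by
    intro j hj hjN
    have h1 := hstep j hjN
    have hj' : (M : ℝ) ≤ j := by exact_mod_cast hj
    have hjN' : (j : ℝ) + 1 ≤ N := by exact_mod_cast hjN
    have hM0 : (0 : ℝ) ≤ M := by positivity
    have h2 : ((N : ℝ) - j) * M ≤ (j + 1) * (N - M) := by nlinarith
    have h3 : (0 : ℝ) < (j + 1) * (N - M) := by
      have : (0 : ℝ) ≤ j := by positivity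
      nlinarith
    by_contra hcon
    push Not at hcon
    have h4 : t j * ((N - j) * M) ≤ t j * ((j + 1) * (N - M)) :=
      mul_le_mul_of_nonneg_left h2 (ht0 _)
    have h5 : t j * ((j + 1) * (N - M)) < t (j + 1) * ((j + 1) * (N - M)) :=
      mul_lt_mul_of_pos_right hcon h3
    linarith
  have hmax : ∀ j, j ≤ N → t j ≤ t M := by
    intro j hj
    rcases le_total j M with hjM | hjM
    · have : ∀ k, j + k ≤ M → t j ≤ t (j + k) := by
        intro k
        induction k with
        | zero => intro _; simp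
        | succ k ih =>
          intro hk
          exact (ih (by omega)).trans (hup (j + k) (by omega))
      have := this (M - j) (by omega)
      rwa [Nat.add_sub_cancel' hjM] at this
    · have : ∀ k, M + k ≤ N → t (M + k) ≤ t M := by
        intro k
        induction k with
        | zero => intro _; simp
        | succ k ih =>
          intro hk
          exact (hdown (M + k) (by omega) (by omega)).trans (ih (by omega))
      have := this (j - M) (by omega)
      rwa [Nat.add_sub_cancel' hjM] at this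
  calc (1 : ℝ) = ∑ j ∈ range (N + 1), t j := hsum.symm
    _ ≤ ∑ _j ∈ range (N + 1), t M :=
        Finset.sum_le_sum fun j hj => hmax j (by rw [mem_range] at hj; omega)
    _ = (N + 1) * t M := by simp
    _ = _ := rfl

/-- The edge set as a finset. -/
noncomputable def es (G : SimpleGraph V) : Finset (Sym2 V) := (pairs V).filter (· ∈ G.edgeSet)

theorem mem_es {G : SimpleGraph V} {e : Sym2 V} : e ∈ es G ↔ e ∈ G.edgeSet := by
  rw [es, mem_filter, mem_pairs]
  exact ⟨fun h => h.2, fun h => ⟨G.not_isDiag_of_mem_edgeSet h, h⟩⟩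

theorem es_subset (G : SimpleGraph V) : es G ⊆ pairs V := filter_subset _ _

theorem es_inj {G H : SimpleGraph V} (h : es G = es H) : G = H := by
  have : G.edgeSet = H.edgeSet := by
    ext e
    rw [← mem_es, ← mem_es, h]
  exact SimpleGraph.edgeSet_injective this

theorem es_fromEdgeSet {E : Finset (Sym2 V)} (hE : E ⊆ pairs V) :
    es (SimpleGraph.fromEdgeSet (E : Set (Sym2 V))) = E := by
  ext e
  rw [mem_es, SimpleGraph.edgeSet_fromEdgeSet]
  constructor
  · intro h; exact h.1
  · intro h; exact ⟨h, mem_pairs.1 (hE h)⟩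

theorem two_card_es {d : ℕ} {G : SimpleGraph V} (hG : G ∈ regG V d) :
    2 * (es G).card = Fintype.card V * d := by
  have h1 := SimpleGraph.sum_degrees_eq_twice_card_edges G
  have h2 : es G = G.edgeFinset := by
    ext e
    rw [mem_es, SimpleGraph.mem_edgeFinset]
  rw [h2, ← h1]
  have hdeg : ∀ v, G.degree v = d := by
    intro v
    rw [← card_nb hG v, nb, ← SimpleGraph.card_neighborFinset_eq_degree]
    congr 1
    ext y
    simp
  simp_rw [hdeg]
  simp

theorem sum_graph (g : Finset (Sym2 V) → ℝ) :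
    ∑ G : SimpleGraph V, g (es G) = ∑ E ∈ (pairs V).powerset, g E := by
  refine Finset.sum_bij (fun G _ => es G) ?_ ?_ ?_ ?_
  · intro G _
    rw [mem_powerset]; exact es_subset G
  · intro G _ H _ h
    exact es_inj h
  · intro E hE
    rw [mem_powerset] at hE
    exact ⟨_, mem_univ _, es_fromEdgeSet hE⟩
  · intro G _; rfl

/-- The `G(n,p)`-weight of a set of edges. -/
noncomputable def wt (V : Type*) [Fintype V] (p : ℝ) (E : Finset (Sym2 V)) : ℝ :=
  p ^ E.card * (1 - p) ^ (pairs V \ E).card

/-- The edge probability `d / (n-1)`. -/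
noncomputable def pp (V : Type*) [Fintype V] (d : ℕ) : ℝ := (d : ℝ) / ((Fintype.card V : ℝ) - 1)

theorem pp_eq {d : ℕ} (heven : Even (Fintype.card V * d)) (h2 : 2 ≤ Fintype.card V) :
    pp V d = ((Fintype.card V * d / 2 : ℕ) : ℝ) / (((Fintype.card V).choose 2 : ℕ) : ℝ) := by
  obtain ⟨k, hk⟩ := heven
  have h3 : Fintype.card V * d / 2 = k := by omega
  rw [h3, Nat.cast_choose_two, pp]
  have h4 : ((Fintype.card V : ℝ)) * d = 2 * k := by
    have : Fintype.card V * d = 2 * k := by omega
    exact_mod_cast this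
  have h5 : (2 : ℝ) ≤ Fintype.card V := by exact_mod_cast h2
  rw [div_eq_div_iff (by linarith) (by nlinarith)]
  nlinarith

theorem transfer {d : ℕ} (heven : Even (Fintype.card V * d)) (h2 : 2 ≤ Fintype.card V)
    (hd : d < Fintype.card V) (f : SimpleGraph V → ℝ) (hf : ∀ G, 0 ≤ f G) :
    ∑ G ∈ regG V d, f G ≤
      (Fintype.card V : ℝ) ^ (Fintype.card V) * (((Fintype.card V).choose 2 : ℕ) + 1) *
      (∑ G : SimpleGraph V, f G * wt V (pp V d) (es G)) * (regG V d).card := by
  set n := Fintype.card V with hn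
  set N := n.choose 2 with hN
  set M := n * d / 2 with hM
  have h2M : 2 * M = n * d := by
    obtain ⟨k, hk⟩ := heven
    omega
  have hMN : M ≤ N := by
    have h3 : 2 * N = n * (n - 1) := by
      rw [hN, Nat.choose_two_right]
      exact Nat.mul_div_cancel' (Nat.even_mul_pred_self n).two_dvd
    have h4 : n * d ≤ n * (n - 1) := Nat.mul_le_mul_left _ (by omega)
    omega
  set p := pp V d with hp
  have hpeq : p = (M : ℝ) / N := pp_eq heven h2
  have hmode := mode N M hMN
  rw [← hpeq] at hmode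
  have hp0 : 0 ≤ p := by rw [hpeq]; positivity
  have hp1 : p ≤ 1 := by
    rw [hpeq]
    rcases Nat.eq_zero_or_pos N with h | h
    · rw [h]; simp
    · rw [div_le_one (by exact_mod_cast h)]; exact_mod_cast hMN
  have hwt : ∀ E, 0 ≤ wt V p E := by
    intro E
    rw [wt]
    have : 0 ≤ 1 - p := by linarith
    positivity
  set w0 : ℝ := p ^ M * (1 - p) ^ (N - M) with hw0
  have hwreg : ∀ G ∈ regG V d, wt V p (es G) = w0 := by
    intro G hG
    have h5 : 2 * (es G).card = n * d := two_card_es hG
    have h6 : (es G).card = M := by omega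
    rw [wt, card_sdiff_of_subset (es_subset G), card_pairs, h6]
  have hchoose := choose_le_card_regG (V := V) d heven
  have hkey : (1 : ℝ) ≤ (n : ℝ) ^ n * (N + 1) * (regG V d).card * w0 := by
    calc (1 : ℝ) ≤ (N + 1) * ((N.choose M : ℝ) * p ^ M * (1 - p) ^ (N - M)) := hmode
      _ = (N + 1) * w0 * (N.choose M : ℝ) := by rw [hw0]; ring
      _ ≤ (N + 1) * w0 * ((n : ℝ) ^ n * (regG V d).card) := by
          refine mul_le_mul_of_nonneg_left ?_ ?_
          · exact_mod_cast hchoose
          · have : 0 ≤ 1 - p := by linarith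
            positivity
      _ = _ := by ring
  have hreg : (∑ G ∈ regG V d, f G) * w0 ≤ ∑ G : SimpleGraph V, f G * wt V p (es G) := by
    rw [Finset.sum_mul]
    calc ∑ G ∈ regG V d, f G * w0 = ∑ G ∈ regG V d, f G * wt V p (es G) :=
          Finset.sum_congr rfl fun G hG => by rw [hwreg G hG]
      _ ≤ _ := Finset.sum_le_sum_of_subset_of_nonneg (subset_univ _)
          fun G _ _ => mul_nonneg (hf G) (hwt _)
  have hS : 0 ≤ ∑ G ∈ regG V d, f G := Finset.sum_nonneg fun G _ => hf G
  calc ∑ G ∈ regG V d, f G = (∑ G ∈ regG V d, f G) * 1 := (mul_one _).symm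
    _ ≤ (∑ G ∈ regG V d, f G) * ((n : ℝ) ^ n * (N + 1) * (regG V d).card * w0) :=
        mul_le_mul_of_nonneg_left hkey hS
    _ = (n : ℝ) ^ n * (N + 1) * ((∑ G ∈ regG V d, f G) * w0) * (regG V d).card := by ring
    _ ≤ _ := by
        refine mul_le_mul_of_nonneg_right ?_ (by positivity)
        exact mul_le_mul_of_nonneg_left hreg (by positivity)

theorem sum_wt_pow (p x : ℝ) (F : Finset (Sym2 V)) (hF : F ⊆ pairs V) :
    ∑ G : SimpleGraph V, x ^ (F.filter (· ∈ G.edgeSet)).card * wt V p (es G) =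
      (1 - p + p * x) ^ F.card := by
  have h1 : ∀ G : SimpleGraph V, x ^ (F.filter (· ∈ G.edgeSet)).card * wt V p (es G) =
      (∏ e ∈ es G, (if e ∈ F then p * x else p)) * ∏ _e ∈ pairs V \ es G, (1 - p) := by
    intro G
    rw [wt, prod_ite, prod_const, prod_const, prod_const]
    have h2 : F.filter (· ∈ G.edgeSet) = (es G).filter (· ∈ F) := by
      ext e
      rw [mem_filter, mem_filter, mem_es]
      tauto
    have h3 : (es G).card = ((es G).filter (· ∈ F)).card + ((es G).filter (· ∉ F)).card :=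
      (card_filter_add_card_filter_not _).symm
    rw [h2, h3, pow_add, mul_pow]
    ring
  simp_rw [h1]
  rw [sum_graph fun E => (∏ e ∈ E, (if e ∈ F then p * x else p)) * ∏ _e ∈ pairs V \ E, (1 - p),
    ← Finset.prod_add]
  have h4 : ∀ e ∈ pairs V, (if e ∈ F then p * x else p) + (1 - p) =
      if e ∈ F then (1 - p + p * x) else 1 := by
    intro e _
    split_ifs <;> ring
  rw [Finset.prod_congr rfl h4, prod_ite, prod_const, prod_const_one, mul_one]
  congr 2
  ext e
  rw [mem_filter]
  exact ⟨fun h => h.2, fun h => ⟨hF h, h⟩⟩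

/-- Exponential moments of the number of edges in a set of pairs. -/
theorem transfer_exp {d : ℕ} (heven : Even (Fintype.card V * d)) (h2 : 2 ≤ Fintype.card V)
    (hd : d < Fintype.card V) (x : ℝ) (hx : 0 ≤ x) (F : Finset (Sym2 V)) (hF : F ⊆ pairs V) :
    ∑ G ∈ regG V d, x ^ (F.filter (· ∈ G.edgeSet)).card ≤
      (Fintype.card V : ℝ) ^ (Fintype.card V) * (((Fintype.card V).choose 2 : ℕ) + 1) *
      (1 - pp V d + pp V d * x) ^ F.card * (regG V d).card := by
  have := transfer heven h2 hd (fun G => x ^ (F.filter (· ∈ G.edgeSet)).card)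
    (fun G => by positivity)
  rw [sum_wt_pow _ _ _ hF] at this
  exact this

theorem sum_wt_coinc (p : ℝ) (hp0 : 0 ≤ p) (hp1 : p ≤ 1) (Z : Finset (Sym2 V)) (hZ : Z ⊆ pairs V)
    (f : Sym2 V → Sym2 V) (hf : ∀ g ∈ Z, f g ∉ Z) :
    ∑ G : SimpleGraph V, (if ∀ g ∈ Z, (g ∈ G.edgeSet ↔ f g ∈ G.edgeSet) then (1 : ℝ) else 0) *
      wt V p (es G) ≤ (max p (1 - p)) ^ Z.card := by
  set μ := max p (1 - p) with hμ
  have hμ0 : 0 ≤ μ := le_max_of_le_left hp0
  have hq0 : 0 ≤ 1 - p := by linarith
  set Q := pairs V \ Z with hQ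
  set w' : Finset (Sym2 V) → ℝ := fun E => (∏ _e ∈ E, p) * ∏ _e ∈ Q \ E, (1 - p) with hw'
  have hw'0 : ∀ E, 0 ≤ w' E := fun E => by simp only [hw']; positivity
  -- constrained sets
  set C : Finset (SimpleGraph V) :=
    univ.filter fun G => ∀ g ∈ Z, (g ∈ G.edgeSet ↔ f g ∈ G.edgeSet) with hC
  have h1 : ∑ G : SimpleGraph V,
      (if ∀ g ∈ Z, (g ∈ G.edgeSet ↔ f g ∈ G.edgeSet) then (1 : ℝ) else 0) * wt V p (es G) =
      ∑ G ∈ C, wt V p (es G) := by
    rw [hC, Finset.sum_filter]
    refine Finset.sum_congr rfl fun G _ => ?_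
    split_ifs <;> simp
  rw [h1]
  have h3 : ∀ G : SimpleGraph V, wt V p (es G) ≤ μ ^ Z.card * w' (es G \ Z) := by
    intro G
    have e1 : (es G).card = (es G \ Z).card + (es G ∩ Z).card :=
      (card_sdiff_add_card_inter _ _).symm
    have e2 : (pairs V \ es G).card = (Q \ (es G \ Z)).card + (Z \ es G).card := by
      rw [← card_union_of_disjoint]
      · congr 1
        ext e
        simp only [hQ, mem_union, mem_sdiff, not_and, not_not]
        constructor
        · rintro ⟨h5, h6⟩
          by_cases h7 : e ∈ Z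
          · right; exact ⟨h7, h6⟩
          · left; exact ⟨⟨h5, h7⟩, fun h8 => absurd h8 h6⟩
        · rintro (⟨⟨h5, h6⟩, h7⟩ | ⟨h5, h6⟩)
          · exact ⟨h5, fun h8 => h6 (h7 h8)⟩
          · exact ⟨hZ h5, h6⟩
      · rw [disjoint_left]
        intro e he he'
        simp only [hQ, mem_sdiff] at he he'
        exact he.1.2 he'.1
    have e3 : Z.card = (es G ∩ Z).card + (Z \ es G).card := by
      rw [inter_comm, card_inter_add_card_sdiff]
    rw [wt, e1, e2, e3, pow_add, pow_add, pow_add]
    simp only [hw', prod_const]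
    calc p ^ (es G \ Z).card * p ^ (es G ∩ Z).card *
          ((1 - p) ^ (Q \ (es G \ Z)).card * (1 - p) ^ (Z \ es G).card)
        = (p ^ (es G ∩ Z).card * (1 - p) ^ (Z \ es G).card) *
          (p ^ (es G \ Z).card * (1 - p) ^ (Q \ (es G \ Z)).card) := by ring
      _ ≤ (μ ^ (es G ∩ Z).card * μ ^ (Z \ es G).card) *
          (p ^ (es G \ Z).card * (1 - p) ^ (Q \ (es G \ Z)).card) := by
          refine mul_le_mul_of_nonneg_right ?_ (by positivity)
          exact mul_le_mul (pow_le_pow_left₀ hp0 (le_max_left _ _) _)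
            (pow_le_pow_left₀ hq0 (le_max_right _ _) _) (by positivity) (by positivity)
  calc ∑ G ∈ C, wt V p (es G) ≤ ∑ G ∈ C, μ ^ Z.card * w' (es G \ Z) :=
        Finset.sum_le_sum fun G _ => h3 G
    _ = μ ^ Z.card * ∑ G ∈ C, w' (es G \ Z) := by rw [Finset.mul_sum]
    _ ≤ μ ^ Z.card * ∑ E ∈ Q.powerset, w' E := by
        refine mul_le_mul_of_nonneg_left ?_ (by positivity)
        have hinj : Set.InjOn (fun G : SimpleGraph V => es G \ Z) C := by
          intro G hG H hH h
          simp only [hC, coe_filter, mem_univ, true_and] at hG hH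
          simp only at h
          have hG' : ∀ g ∈ Z, (g ∈ G.edgeSet ↔ f g ∈ G.edgeSet) := hG
          have hH' : ∀ g ∈ Z, (g ∈ H.edgeSet ↔ f g ∈ H.edgeSet) := hH
          have hout : ∀ e, e ∉ Z → (e ∈ G.edgeSet ↔ e ∈ H.edgeSet) := by
            intro e he
            have h5 := Finset.ext_iff.1 h e
            rw [mem_sdiff, mem_sdiff, mem_es, mem_es] at h5
            tauto
          apply es_inj
          ext e
          rw [mem_es, mem_es]
          by_cases he : e ∈ Z
          · rw [hG' e he, hH' e he]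
            exact hout _ (hf e he)
          · exact hout e he
        rw [← Finset.sum_image (f := w') hinj]
        refine Finset.sum_le_sum_of_subset_of_nonneg ?_ fun E _ _ => hw'0 E
        intro E hE
        rw [mem_image] at hE
        obtain ⟨G, -, rfl⟩ := hE
        rw [mem_powerset]
        exact sdiff_subset_sdiff (es_subset G) (Subset.refl _)
    _ = μ ^ Z.card * 1 := by
        congr 1
        simp only [hw']
        rw [← Finset.prod_add]
        simp
    _ = _ := mul_one _

/-- Probability that `G` is invariant under identifications of pairs. -/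
theorem transfer_coinc {d : ℕ} (heven : Even (Fintype.card V * d)) (h2 : 2 ≤ Fintype.card V)
    (hd : d < Fintype.card V) (Z : Finset (Sym2 V)) (hZ : Z ⊆ pairs V)
    (f : Sym2 V → Sym2 V) (hf : ∀ g ∈ Z, f g ∉ Z) :
    (num d (fun G : SimpleGraph V => ∀ g ∈ Z, (g ∈ G.edgeSet ↔ f g ∈ G.edgeSet)) : ℝ) ≤
      (Fintype.card V : ℝ) ^ (Fintype.card V) * (((Fintype.card V).choose 2 : ℕ) + 1) *
      (max (pp V d) (1 - pp V d)) ^ Z.card * (regG V d).card := by
  have hn1 : (0 : ℝ) < (Fintype.card V : ℝ) - 1 := by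
    have : (2 : ℝ) ≤ Fintype.card V := by exact_mod_cast h2
    linarith
  have hp0 : 0 ≤ pp V d := by rw [pp]; positivity
  have hp1 : pp V d ≤ 1 := by
    rw [pp, div_le_one hn1]
    have : (d : ℝ) + 1 ≤ Fintype.card V := by exact_mod_cast hd
    linarith
  have h3 := transfer heven h2 hd
    (fun G => if ∀ g ∈ Z, (g ∈ G.edgeSet ↔ f g ∈ G.edgeSet) then (1 : ℝ) else 0)
    (fun G => by positivity)
  have h4 := sum_wt_coinc (pp V d) hp0 hp1 Z hZ f hf
  have h5 : (num d (fun G : SimpleGraph V => ∀ g ∈ Z, (g ∈ G.edgeSet ↔ f g ∈ G.edgeSet)) : ℝ) =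
      ∑ G ∈ regG V d, (if ∀ g ∈ Z, (g ∈ G.edgeSet ↔ f g ∈ G.edgeSet) then (1 : ℝ) else 0) := by
    rw [num, Finset.card_filter]
    push_cast
    rfl
  rw [h5]
  refine h3.trans ?_
  refine mul_le_mul_of_nonneg_right ?_ (by positivity)
  exact mul_le_mul_of_nonneg_left h4 (by positivity)

end Pool.Agent.H.MP_0fd30f_pr
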