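import Pool.Agent.H.MP_0fd30f_pr.Transfer

/-!
# Numerical forms of the transfer, and a typical property
-/

open Finset

namespace Pool.Agent.H.MP_0fd30f_pr

open scoped Classical

variable {V : Type*} [Fintype V]

theorem loss_le (h2 : 4 ≤ Fintype.card V) :
    (Fintype.card V : ℝ) ^ (Fintype.card V) * (((Fintype.card V).choose 2 : ℕ) + 1) ≤
      Real.exp (((Fintype.card V : ℝ) + 2) * Real.log (Fintype.card V)) := by
  set n := Fintype.card V with hn
  have hn4 : (4 : ℝ) ≤ n := by exact_mod_cast h2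
  have hn0 : (0 : ℝ) < n := by linarith
  have h3 : (((n.choose 2 : ℕ) : ℝ) + 1) ≤ (n : ℝ) ^ 2 := by
    rw [Nat.cast_choose_two]; nlinarith
  have h4 : Real.exp (((n : ℝ) + 2) * Real.log n) = (n : ℝ) ^ n * (n : ℝ) ^ 2 := by
    rw [← pow_add, ← Real.rpow_natCast (n : ℝ) (n + 2), Real.rpow_def_of_pos hn0]
    push_cast
    ring_nf
  rw [h4]
  exact mul_le_mul_of_nonneg_left h3 (by positivity)

theorem pp_bounds {d : ℕ} (h2 : 4 ≤ Fintype.card V) (hd : 2 * d ≤ Fintype.card V) :
    0 ≤ pp V d ∧ (d : ℝ) / Fintype.card V ≤ pp V d ∧ pp V d ≤ 2 / 3 := by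
  have hn4 : (4 : ℝ) ≤ Fintype.card V := by exact_mod_cast h2
  have hd' : (2 : ℝ) * d ≤ Fintype.card V := by exact_mod_cast hd
  have hd0 : (0 : ℝ) ≤ d := by positivity
  refine ⟨?_, ?_, ?_⟩
  · rw [pp]; exact div_nonneg hd0 (by linarith)
  · rw [pp]; exact div_le_div_of_nonneg_left hd0 (by linarith) (by linarith)
  · rw [pp, div_le_div_iff₀ (by linarith) (by norm_num)]; nlinarith

theorem coinc_le {d : ℕ} (heven : Even (Fintype.card V * d)) (h2 : 4 ≤ Fintype.card V)
    (hd : 2 * d ≤ Fintype.card V) (Z : Finset (Sym2 V)) (hZ : Z ⊆ pairs V)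
    (f : Sym2 V → Sym2 V) (hf : ∀ g ∈ Z, f g ∉ Z) :
    (num d (fun G : SimpleGraph V => ∀ g ∈ Z, (g ∈ G.edgeSet ↔ f g ∈ G.edgeSet)) : ℝ) ≤
      Real.exp (((Fintype.card V : ℝ) + 2) * Real.log (Fintype.card V) -
        (d : ℝ) / (2 * Fintype.card V) * Z.card) * (regG V d).card := by
  have hn4 : (4 : ℝ) ≤ Fintype.card V := by exact_mod_cast h2
  have hd' : (2 : ℝ) * d ≤ Fintype.card V := by exact_mod_cast hd
  obtain ⟨h3, h4, h5⟩ := pp_bounds h2 hd
  have h6 : max (pp V d) (1 - pp V d) ≤ Real.exp (-((d : ℝ) / (2 * Fintype.card V))) := by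
    have h7 : 1 - (d : ℝ) / (2 * Fintype.card V) ≤
        Real.exp (-((d : ℝ) / (2 * Fintype.card V))) := by
      have := Real.add_one_le_exp (-((d : ℝ) / (2 * Fintype.card V)))
      linarith
    have h8 : (d : ℝ) / (2 * Fintype.card V) ≤ 1 / 4 := by
      rw [div_le_div_iff₀ (by linarith) (by norm_num)]; linarith
    have h9 : (d : ℝ) / (2 * Fintype.card V) ≤ (d : ℝ) / Fintype.card V :=
      div_le_div_of_nonneg_left (by positivity) (by linarith) (by linarith)
    refine max_le ?_ ?_ <;> linarith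
  have h10 : (max (pp V d) (1 - pp V d)) ^ Z.card ≤
      Real.exp (-((d : ℝ) / (2 * Fintype.card V) * Z.card)) := by
    calc (max (pp V d) (1 - pp V d)) ^ Z.card ≤
        (Real.exp (-((d : ℝ) / (2 * Fintype.card V)))) ^ Z.card :=
          pow_le_pow_left₀ (le_max_of_le_left h3) h6 _
      _ = _ := by rw [← Real.exp_nat_mul]; ring_nf
  refine (transfer_coinc heven (by omega) (by omega) Z hZ f hf).trans ?_
  refine mul_le_mul_of_nonneg_right ?_ (by positivity)
  have h11 : ∀ A B : ℝ, Real.exp (A - B) = Real.exp A * Real.exp (-B) := by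
    intro A B; rw [← Real.exp_add]; ring_nf
  rw [h11]
  exact mul_le_mul (loss_le h2) h10 (by have := le_max_left (pp V d) (1 - pp V d); positivity)
    (by positivity)

/-- If `G` has many edges in `F`: exponential Markov inequality with base `8`. -/
theorem many_le {d : ℕ} (heven : Even (Fintype.card V * d)) (h2 : 100 ≤ Fintype.card V)
    (hd : 2 * d ≤ Fintype.card V) (F : Finset (Sym2 V)) (hF : F ⊆ pairs V) (D : ℕ)
    (hFD : F.card ≤ D) :
    (num d (fun G : SimpleGraph V => 7 * D ≤ 8 * (F.filter (· ∈ G.edgeSet)).card) : ℝ) ≤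
      Real.exp (((Fintype.card V : ℝ) + 2) * Real.log (Fintype.card V) - (D : ℝ) / 4) *
        (regG V d).card := by
  have hn4 : (100 : ℝ) ≤ Fintype.card V := by exact_mod_cast h2
  have hd' : (2 : ℝ) * d ≤ Fintype.card V := by exact_mod_cast hd
  obtain ⟨h3, h4, h5⟩ := pp_bounds (by omega) hd
  have h6 : 1 - pp V d + pp V d * 8 ≤ 4.6 := by
    have : pp V d ≤ 3.6 / 7 := by
      rw [pp, div_le_div_iff₀ (by linarith) (by norm_num)]; nlinarith
    linarith
  have h6' : 1 ≤ 1 - pp V d + pp V d * 8 := by linarith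
  have hT := transfer_exp heven (by omega) (by omega) 8 (by norm_num) F hF
  -- Markov
  have hM : (num d (fun G : SimpleGraph V => 7 * D ≤ 8 * (F.filter (· ∈ G.edgeSet)).card) : ℝ) *
      Real.exp (7 / 8 * D * Real.log 8) ≤ ∑ G ∈ regG V d, (8 : ℝ) ^ (F.filter (· ∈ G.edgeSet)).card := by
    have h8 : 0 < Real.log 8 := Real.log_pos (by norm_num)
    have hpt : ∀ G ∈ (regG V d).filter (fun G : SimpleGraph V =>
        7 * D ≤ 8 * (F.filter (· ∈ G.edgeSet)).card),
        Real.exp (7 / 8 * D * Real.log 8) ≤ (8 : ℝ) ^ (F.filter (· ∈ G.edgeSet)).card := by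
      intro G hG
      rw [mem_filter] at hG
      have h7 : (7 : ℝ) * D ≤ 8 * (F.filter (· ∈ G.edgeSet)).card := by exact_mod_cast hG.2
      rw [← Real.rpow_natCast, Real.rpow_def_of_pos (by norm_num)]
      refine Real.exp_le_exp.2 ?_
      nlinarith
    have h9 := Finset.card_nsmul_le_sum _ _ _ hpt
    rw [nsmul_eq_mul] at h9
    rw [num_eq]
    refine h9.trans ?_
    exact Finset.sum_le_sum_of_subset_of_nonneg (filter_subset _ _) fun G _ _ => by positivity
  have h9 : (1 - pp V d + pp V d * 8) ^ F.card ≤ Real.exp (D * (2 * Real.log 2 + 0.15)) := by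
    calc (1 - pp V d + pp V d * 8) ^ F.card ≤ (1 - pp V d + pp V d * 8) ^ D :=
          pow_le_pow_right₀ h6' hFD
      _ ≤ (4.6 : ℝ) ^ D := pow_le_pow_left₀ (by linarith) h6 _
      _ ≤ (Real.exp (2 * Real.log 2 + 0.15)) ^ D := by
          refine pow_le_pow_left₀ (by norm_num) ?_ _
          have e1 : Real.exp (2 * Real.log 2) = 4 := by
            rw [two_mul, Real.exp_add, Real.exp_log (by norm_num)]; norm_num
          rw [Real.exp_add, e1]
          have := Real.add_one_le_exp (0.15 : ℝ)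
          norm_num at this ⊢
          linarith
      _ = _ := by rw [← Real.exp_nat_mul]
  have h10 : Real.log 8 = 3 * Real.log 2 := by
    rw [show (8 : ℝ) = 2 ^ 3 by norm_num, Real.log_pow]; norm_num
  have h11 := Real.log_two_gt_d9
  have h12 : (num d (fun G : SimpleGraph V => 7 * D ≤ 8 * (F.filter (· ∈ G.edgeSet)).card) : ℝ) *
      Real.exp (7 / 8 * D * Real.log 8) ≤
      Real.exp (((Fintype.card V : ℝ) + 2) * Real.log (Fintype.card V)) *
      Real.exp (D * (2 * Real.log 2 + 0.15)) * (regG V d).card := by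
    refine hM.trans (hT.trans ?_)
    refine mul_le_mul_of_nonneg_right ?_ (by positivity)
    exact mul_le_mul (loss_le (by omega)) h9 (by positivity) (by positivity)
  have h13 : (0 : ℝ) < Real.exp (7 / 8 * D * Real.log 8) := Real.exp_pos _
  rw [← le_div_iff₀ h13] at h12
  refine h12.trans ?_
  rw [div_eq_mul_inv, ← Real.exp_neg, ← Real.exp_add, mul_right_comm, ← Real.exp_add]
  refine mul_le_mul_of_nonneg_right (Real.exp_le_exp.2 ?_) (by positivity)
  have hD : (0 : ℝ) ≤ D := by positivity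
  rw [h10]
  nlinarith

/-- Typical graphs: for each `u`, at most `r` vertices share more than `15/16` of the
neighbourhood. -/
def Typ (d r : ℕ) (G : SimpleGraph V) : Prop :=
  ∀ u, (univ.filter fun y => 15 * d < 16 * (nb G u ∩ nb G y).card).card ≤ r

theorem typ_bound {d r : ℕ} (heven : Even (Fintype.card V * d)) (h2 : 100 ≤ Fintype.card V)
    (hd : 2 * d ≤ Fintype.card V) (hr : 16 * (r + 1) ≤ d)
    (hr2 : 20 * (Fintype.card V : ℝ) * Real.log (Fintype.card V) ≤ d * (r + 1)) :
    (num d (fun G : SimpleGraph V => ¬ Typ d r G) : ℝ) ≤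
      Real.exp (-(Fintype.card V : ℝ)) * (regG V d).card := by
  set n := Fintype.card V with hn
  have hn100 : (100 : ℝ) ≤ n := by exact_mod_cast h2
  -- the pairs
  set F : Finset V → Finset V → Finset (Sym2 V) :=
    fun A R => (R ×ˢ (A \ R)).image fun p => s(p.1, p.2) with hF
  have hFp : ∀ A R, F A R ⊆ pairs V := by
    intro A R e he
    simp only [hF, mem_image, mem_product, mem_sdiff] at he
    obtain ⟨p, ⟨h3, h4, h5⟩, rfl⟩ := he
    rw [mem_pairs, Sym2.mk_isDiag_iff]
    exact fun h => h5 (h ▸ h3)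
  set D := d * (r + 1) with hD
  set I : Finset (Finset V × Finset V) :=
    (univ.filter fun q => q.1.card = d ∧ q.2.card = r + 1) with hI
  have hsub : ∀ G ∈ regG V d, ¬ Typ d r G → ∃ q ∈ I,
        7 * D ≤ 8 * ((F q.1 q.2).filter (· ∈ G.edgeSet)).card := by
    intro G hreg hG
    rw [Typ] at hG
    push Not at hG
    obtain ⟨u, hu⟩ := hG
    obtain ⟨R, hR, hRc⟩ := exists_subset_card_eq (Nat.succ_le_of_lt hu)
    refine ⟨(nb G u, R), ?_, ?_⟩
    · simp only [hI, mem_filter, mem_univ, true_and]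
      exact ⟨card_nb hreg u, hRc⟩
    · change 7 * D ≤ 8 * ((F (nb G u) R).filter (· ∈ G.edgeSet)).card
      have hinj : Set.InjOn (fun p : V × V => s(p.1, p.2))
          ((R ×ˢ (nb G u \ R)).filter fun p => G.Adj p.1 p.2 : Finset (V × V)) := by
        rintro ⟨x, y⟩ hp ⟨x', y'⟩ hp' h
        simp only [coe_filter, mem_product, mem_sdiff, Set.mem_ofPred_eq] at hp hp'
        simp only [Sym2.eq_iff] at h
        rcases h with h | h
        · rw [h.1, h.2]
        · exfalso
          exact hp'.1.2.2 (h.1 ▸ hp.1.1)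
      have h3 : ((R ×ˢ (nb G u \ R)).filter fun p => G.Adj p.1 p.2).card ≤
          ((F (nb G u) R).filter (· ∈ G.edgeSet)).card := by
        rw [← card_image_of_injOn hinj]
        refine card_le_card ?_
        intro e he
        rw [mem_image] at he
        obtain ⟨p, hp, rfl⟩ := he
        rw [mem_filter] at hp ⊢
        refine ⟨?_, hp.2⟩
        simp only [hF]
        exact mem_image_of_mem _ hp.1
      have h4 : ((R ×ˢ (nb G u \ R)).filter fun p => G.Adj p.1 p.2).card =
          ∑ y ∈ R, ((nb G u \ R).filter fun z => G.Adj y z).card := by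
        rw [Finset.card_filter, Finset.sum_product]
        refine Finset.sum_congr rfl fun y _ => ?_
        rw [Finset.card_filter]
      have h5 : ∀ y ∈ R, 7 * d ≤ 8 * ((nb G u \ R).filter fun z => G.Adj y z).card := by
        intro y hy
        have h6 := hR hy
        rw [mem_filter] at h6
        have h7 : (nb G u ∩ nb G y) ⊆ ((nb G u \ R).filter fun z => G.Adj y z) ∪ R := by
          intro z hz
          rw [mem_inter, mem_nb, mem_nb] at hz
          rw [mem_union, mem_filter, mem_sdiff, mem_nb]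
          by_cases hzR : z ∈ R
          · right; exact hzR
          · left; exact ⟨⟨hz.1, hzR⟩, hz.2⟩
        have h8 := (card_le_card h7).trans (card_union_le _ _)
        omega
      have h6 : ∑ y ∈ R, 7 * d ≤ ∑ y ∈ R, 8 * ((nb G u \ R).filter fun z => G.Adj y z).card :=
        Finset.sum_le_sum h5
      rw [Finset.sum_const, ← Finset.mul_sum, ← h4, hRc, smul_eq_mul] at h6
      have h7 : 7 * D = r.succ * (7 * d) := by rw [hD]; simp only [Nat.succ_eq_add_one]; ring
      omega
  have hIc : (I.card : ℝ) ≤ Real.exp (2 * n * Real.log 2) := by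
    have h3 : I.card ≤ 2 ^ n * 2 ^ n := by
      refine (card_le_univ _).trans ?_
      rw [Fintype.card_prod, Fintype.card_finset]
    calc (I.card : ℝ) ≤ ((2 ^ n * 2 ^ n : ℕ) : ℝ) := by exact_mod_cast h3
      _ = Real.exp (2 * n * Real.log 2) := by
          push_cast
          rw [← pow_add, ← Real.rpow_natCast (2 : ℝ) (n + n), Real.rpow_def_of_pos (by norm_num)]
          push_cast
          ring_nf
  have hterm : ∀ q ∈ I, (num d (fun G : SimpleGraph V =>
        7 * D ≤ 8 * ((F q.1 q.2).filter (· ∈ G.edgeSet)).card) : ℝ) ≤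
      Real.exp (((n : ℝ) + 2) * Real.log n - (D : ℝ) / 4) * (regG V d).card := by
    intro q hq
    refine many_le heven h2 hd _ (hFp _ _) D ?_
    simp only [hI, mem_filter, mem_univ, true_and] at hq
    simp only [hF]
    refine card_image_le.trans ?_
    rw [card_product, hq.2, hD, mul_comm]
    exact Nat.mul_le_mul_right _ ((card_le_card sdiff_subset).trans hq.1.le)
  refine (num_le_card_mul I _ _ _ hsub hterm).trans ?_
  rw [← mul_assoc]
  refine mul_le_mul_of_nonneg_right ?_ (by positivity)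
  refine (mul_le_mul_of_nonneg_right hIc (Real.exp_pos _).le).trans ?_
  rw [← Real.exp_add]
  refine Real.exp_le_exp.2 ?_
  have hlog : 4 ≤ Real.log n := by
    rw [Real.le_log_iff_exp_le (by linarith)]
    have := Real.exp_one_lt_d9
    calc Real.exp 4 = (Real.exp 1) ^ 4 := by rw [← Real.exp_nat_mul]; norm_num
      _ ≤ (2.7182818286 : ℝ) ^ 4 := pow_le_pow_left₀ (Real.exp_pos _).le this.le _
      _ ≤ n := by norm_num; linarith
  have hDr : 20 * (n : ℝ) * Real.log n ≤ D := by
    rw [hD]; push_cast; exact hr2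
  have h11 := Real.log_two_lt_d9
  nlinarith

end Pool.Agent.H.MP_0fd30f_pr
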